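import Pool.Agent.H370R2.LA

open scoped BigOperators ComplexConjugate

namespace H370

/-- `la_core` with finsets of complex indices -/
lemma la_core_finset {E : Type*} [NormedAddCommGroup E] [InnerProductSpace ℂ E]
    (P : Finset ℂ) (x b : ℂ → E) (D : ℂ → ℂ → ℝ)
    (hD2 : ∀ v : ℂ → ℂ, ∑ i ∈ P, ∑ j ∈ P, D i j * ((starRingEnd ℂ (v i)) * v j).re
      ≤ 2 * ∑ i ∈ P, ‖v i‖ ^ 2) :
    0 ≤ ∑ i ∈ P, ∑ j ∈ P, ‖inner ℂ (x i) (x j) - (D i j : ℂ)‖ ^ 2
      - 2 * ∑ i ∈ P, ∑ l ∈ P, ‖inner ℂ (x i) (b l)‖ ^ 2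
      + ∑ k ∈ P, ∑ l ∈ P, ‖inner ℂ (b k) (b l)‖ ^ 2 + 4 * ∑ l ∈ P, ‖b l‖ ^ 2 := by
  classical
  have h := la_core (ι := {z // z ∈ P}) (κ := {z // z ∈ P}) (fun i => x i) (fun i => b i)
    (fun i j => (D i j : ℂ)) (by
      intro v
      have h1 := hD2 (fun z => if h : z ∈ P then v ⟨z, h⟩ else 0)
      have e1 : ∑ i ∈ P, ∑ j ∈ P, D i j *
          ((starRingEnd ℂ (if h : i ∈ P then v ⟨i, h⟩ else 0)) *
            (if h : j ∈ P then v ⟨j, h⟩ else 0)).re =
          (∑ i : {z // z ∈ P}, ∑ j : {z // z ∈ P},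
            (starRingEnd ℂ (v i)) * (D i j : ℂ) * v j).re := by
        rw [Complex.re_sum, ← Finset.sum_coe_sort P]
        refine Finset.sum_congr rfl fun i _ => ?_
        rw [Complex.re_sum, ← Finset.sum_coe_sort P]
        refine Finset.sum_congr rfl fun j _ => ?_
        simp only [i.2, j.2, dif_pos]
        rw [mul_right_comm, mul_comm ((starRingEnd ℂ) (v i) * v j) _, Complex.re_ofReal_mul]
      have e2 : ∑ i ∈ P, ‖(if h : i ∈ P then v ⟨i, h⟩ else 0)‖ ^ 2 =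
          ∑ i : {z // z ∈ P}, ‖v i‖ ^ 2 := by
        rw [← Finset.sum_coe_sort P]
        refine Finset.sum_congr rfl fun i _ => ?_
        simp only [i.2, dif_pos]
      rw [e1, e2] at h1
      exact h1)
  have c1 : ∀ f : ℂ → ℂ → ℝ, ∑ i : {z // z ∈ P}, ∑ j : {z // z ∈ P}, f i j =
      ∑ i ∈ P, ∑ j ∈ P, f i j := by
    intro f
    rw [← Finset.sum_coe_sort P]
    refine Finset.sum_congr rfl fun i _ => ?_
    rw [← Finset.sum_coe_sort P]
  rw [c1 (fun i j => ‖inner ℂ (x i) (x j) - (D i j : ℂ)‖ ^ 2),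
    c1 (fun i j => ‖inner ℂ (x i) (b j)‖ ^ 2), c1 (fun i j => ‖inner ℂ (b i) (b j)‖ ^ 2),
    Finset.sum_coe_sort P (fun i => ‖b i‖ ^ 2)] at h
  exact h

lemma dsum (P S : Finset ℂ) (hSP : S ⊆ P) (f : ℂ → ℂ → ℝ) (g : ℂ → ℝ) :
    ∑ z ∈ P, ∑ w ∈ P, (if z ∈ S ∧ w ∈ S then f z w else if z = w then g z else 0) =
      ∑ z ∈ S, ∑ w ∈ S, f z w + ∑ z ∈ P \ S, g z := by
  classical
  rw [← Finset.sum_sdiff hSP, add_comm]
  congr 1
  · refine Finset.sum_congr rfl fun z hz => ?_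
    rw [← Finset.sum_sdiff hSP]
    have h1 : ∑ w ∈ P \ S, (if z ∈ S ∧ w ∈ S then f z w else if z = w then g z else 0) = 0 := by
      refine Finset.sum_eq_zero fun w hw => ?_
      have hw2 := (Finset.mem_sdiff.mp hw).2
      rw [if_neg (fun h => hw2 h.2), if_neg]
      rintro rfl
      exact hw2 hz
    rw [h1, zero_add]
    refine Finset.sum_congr rfl fun w hw => ?_
    rw [if_pos ⟨hz, hw⟩]
  · refine Finset.sum_congr rfl fun z hz => ?_
    have hz2 := Finset.mem_sdiff.mp hz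
    have h1 : ∀ w ∈ P, (if z ∈ S ∧ w ∈ S then f z w else if z = w then g z else 0) =
        if z = w then g z else 0 := by
      intro w _
      rw [if_neg (fun h => hz2.2 h.1)]
    rw [Finset.sum_congr rfl h1, Finset.sum_ite_eq, if_pos hz2.1]

theorem trace_ineq {E : Type*} [NormedAddCommGroup E] [InnerProductSpace ℂ E]
    (φ : ℂ → ℂ) (k : ℂ → E) (hk : ∀ z w, inner ℂ (k z) (k w) = φ (w - (starRingEnd ℂ) z))
    (hev : ∀ z, φ (-z) = φ z) (h0 : φ 0 = 1)
    (Z : Finset ℂ) (hZ : ∀ z ∈ Z, (starRingEnd ℂ) z ∈ Z) (m : ℂ → ℕ)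
    (hm1 : ∀ z ∈ Z, 1 ≤ m z) (hmc : ∀ z ∈ Z, m ((starRingEnd ℂ) z) = m z)
    (Y : ℂ → ℂ → ℝ)
    (hY : ∀ v : ℂ → ℂ, ∑ x ∈ Z.filter (fun z => z.im = 0 ∧ m z = 1),
      ∑ y ∈ Z.filter (fun z => z.im = 0 ∧ m z = 1), Y x y * ((starRingEnd ℂ (v x)) * v y).re
        ≤ ∑ x ∈ Z.filter (fun z => z.im = 0 ∧ m z = 1), ‖v x‖ ^ 2) :
    4 * ∑ z ∈ Z, (m z : ℝ) - 3 * ((Z.filter (fun z => z.im = 0 ∧ m z = 1)).card : ℝ)
      - 4 * (((Z.filter (fun z => z.im = 0 ∧ 2 ≤ m z)).card : ℝ)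
          + ((Z.filter (fun z => 0 < z.im)).card : ℝ))
      + (2 * ∑ x ∈ Z.filter (fun z => z.im = 0 ∧ m z = 1),
            ∑ y ∈ Z.filter (fun z => z.im = 0 ∧ m z = 1),
              Y x y * ((φ (x - y)).re - if x = y then 1 else 0)
          - ∑ x ∈ Z.filter (fun z => z.im = 0 ∧ m z = 1),
            ∑ y ∈ Z.filter (fun z => z.im = 0 ∧ m z = 1), (Y x y) ^ 2)
      ≤ (∑ z ∈ Z, ∑ w ∈ Z, (m z : ℂ) * (m w : ℂ) * (φ (z - w)) ^ 2).re := by
  classical
  set S := Z.filter (fun z => z.im = 0 ∧ m z = 1) with hS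
  set P := Z.filter (fun z => 0 ≤ z.im) with hP
  -- conj relation
  have hcj : ∀ z, (starRingEnd ℂ) (φ z) = φ ((starRingEnd ℂ) z) := by
    intro z
    have h1 := hk 0 z
    have h2 := hk z 0
    rw [← inner_conj_symm, h1] at h2
    simp only [map_zero, sub_zero, zero_sub] at h2
    rw [h2, hev]
  -- coefficients
  set c : ℂ → ℝ := fun z => if z.im = 0 then (m z : ℝ) / 4 else (m z : ℝ) / 2 with hc
  have hc0 : ∀ z, 0 ≤ c z := by
    intro z
    simp only [hc]
    split_ifs <;> positivity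
  set x : ℂ → E := fun z => ((Real.sqrt (c z) : ℝ) : ℂ) • (k z + k ((starRingEnd ℂ) z)) with hx
  set b : ℂ → E := fun z => ((Real.sqrt (c z) : ℝ) : ℂ) • (k z - k ((starRingEnd ℂ) z)) with hb
  set D : ℂ → ℂ → ℝ := fun z w => if z ∈ S ∧ w ∈ S then (if z = w then 1 else 0) + Y z w
    else if z = w then 2 else 0 with hD
  -- splitting sums over Z
  have hsplit : ∀ G : ℂ → ℂ, ∑ z ∈ Z, (m z : ℂ) * G z =
      ∑ z ∈ P, (2 * c z : ℂ) * (G z + G ((starRingEnd ℂ) z)) := by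
    intro G
    have h1 : ∑ z ∈ Z, (m z : ℂ) * G z = ∑ z ∈ Z.filter (fun z => z.im = 0), (m z : ℂ) * G z +
        ∑ z ∈ Z.filter (fun z => 0 < z.im), (m z : ℂ) * G z +
        ∑ z ∈ Z.filter (fun z => z.im < 0), (m z : ℂ) * G z := by
      rw [← Finset.sum_filter_add_sum_filter_not Z (fun z => z.im = 0), add_assoc]
      congr 1
      rw [← Finset.sum_filter_add_sum_filter_not (Z.filter (fun z => ¬ z.im = 0))
        (fun z => 0 < z.im), Finset.filter_filter, Finset.filter_filter]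
      congr 1
      · refine Finset.sum_congr ?_ fun _ _ => rfl
        ext z
        simp only [Finset.mem_filter]
        constructor
        · rintro ⟨h1, h2, h3⟩; exact ⟨h1, h3⟩
        · rintro ⟨h1, h3⟩; exact ⟨h1, ne_of_gt h3, h3⟩
      · refine Finset.sum_congr ?_ fun _ _ => rfl
        ext z
        simp only [Finset.mem_filter, not_lt]
        constructor
        · rintro ⟨h1, h2, h3⟩; exact ⟨h1, lt_of_le_of_ne h3 h2⟩
        · rintro ⟨h1, h3⟩; exact ⟨h1, ne_of_lt h3, h3.le⟩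
    have h2 : ∑ z ∈ Z.filter (fun z => z.im < 0), (m z : ℂ) * G z =
        ∑ z ∈ Z.filter (fun z => 0 < z.im), (m z : ℂ) * G ((starRingEnd ℂ) z) := by
      refine Finset.sum_nbij' (fun z => (starRingEnd ℂ) z) (fun z => (starRingEnd ℂ) z) ?_ ?_ ?_ ?_ ?_
      · intro z hz
        simp only [Finset.mem_filter] at hz ⊢
        refine ⟨hZ z hz.1, ?_⟩
        rw [Complex.conj_im]; linarith [hz.2]
      · intro z hz
        simp only [Finset.mem_filter] at hz ⊢
        refine ⟨hZ z hz.1, ?_⟩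
        rw [Complex.conj_im]; linarith [hz.2]
      · intro z _; simp
      · intro z _; simp
      · intro z hz
        simp only [Finset.mem_filter] at hz
        rw [hmc z hz.1, Complex.conj_conj]
    have h3 : ∑ z ∈ P, (2 * c z : ℂ) * (G z + G ((starRingEnd ℂ) z)) =
        ∑ z ∈ Z.filter (fun z => z.im = 0), (2 * c z : ℂ) * (G z + G ((starRingEnd ℂ) z)) +
        ∑ z ∈ Z.filter (fun z => 0 < z.im), (2 * c z : ℂ) * (G z + G ((starRingEnd ℂ) z)) := by
      rw [hP, ← Finset.sum_filter_add_sum_filter_not (Z.filter (fun z => 0 ≤ z.im))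
        (fun z => z.im = 0), Finset.filter_filter, Finset.filter_filter]
      congr 1
      · refine Finset.sum_congr ?_ fun _ _ => rfl
        ext z
        simp only [Finset.mem_filter]
        constructor
        · rintro ⟨h1, h2, h3⟩; exact ⟨h1, h3⟩
        · rintro ⟨h1, h3⟩; exact ⟨h1, h3.ge, h3⟩
      · refine Finset.sum_congr ?_ fun _ _ => rfl
        ext z
        simp only [Finset.mem_filter]
        constructor
        · rintro ⟨h1, h2, h3⟩; exact ⟨h1, lt_of_le_of_ne h2 (Ne.symm h3)⟩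
        · rintro ⟨h1, h3⟩; exact ⟨h1, h3.le, ne_of_gt h3⟩
    rw [h1, h2, h3, add_assoc, ← Finset.sum_add_distrib]
    congr 1
    · refine Finset.sum_congr rfl fun z hz => ?_
      simp only [Finset.mem_filter] at hz
      have hzc : (starRingEnd ℂ) z = z := Complex.conj_eq_iff_im.mpr hz.2
      rw [hzc]
      simp only [hc, if_pos hz.2]
      push_cast
      ring
    · refine Finset.sum_congr rfl fun z hz => ?_
      simp only [Finset.mem_filter] at hz
      simp only [hc, if_neg (ne_of_gt hz.2)]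
      push_cast
      ring
  -- inner products
  have hxx : ∀ z w, inner ℂ (x z) (x w) = ((Real.sqrt (c z) * Real.sqrt (c w) : ℝ) : ℂ) *
      (φ (w - (starRingEnd ℂ) z) + φ ((starRingEnd ℂ) w - (starRingEnd ℂ) z) + φ (w - z) +
        φ ((starRingEnd ℂ) w - z)) := by
    intro z w
    simp only [hx]
    rw [inner_smul_left, inner_smul_right, inner_add_left, inner_add_right, inner_add_right,
      hk, hk, hk, hk, Complex.conj_ofReal, Complex.conj_conj]
    push_cast; ring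
  have hxb : ∀ z w, inner ℂ (x z) (b w) = ((Real.sqrt (c z) * Real.sqrt (c w) : ℝ) : ℂ) *
      (φ (w - (starRingEnd ℂ) z) - φ ((starRingEnd ℂ) w - (starRingEnd ℂ) z) + φ (w - z) -
        φ ((starRingEnd ℂ) w - z)) := by
    intro z w
    simp only [hx, hb]
    rw [inner_smul_left, inner_smul_right, inner_add_left, inner_sub_right, inner_sub_right,
      hk, hk, hk, hk, Complex.conj_ofReal, Complex.conj_conj]
    push_cast; ring
  have hbb : ∀ z w, inner ℂ (b z) (b w) = ((Real.sqrt (c z) * Real.sqrt (c w) : ℝ) : ℂ) *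
      (φ (w - (starRingEnd ℂ) z) - φ ((starRingEnd ℂ) w - (starRingEnd ℂ) z) - φ (w - z) +
        φ ((starRingEnd ℂ) w - z)) := by
    intro z w
    simp only [hb]
    rw [inner_smul_left, inner_smul_right, inner_sub_left, inner_sub_right, inner_sub_right,
      hk, hk, hk, hk, Complex.conj_ofReal, Complex.conj_conj]
    push_cast; ring
  -- real forms
  have hA : ∀ z w, φ ((starRingEnd ℂ) w - z) = (starRingEnd ℂ) (φ (w - (starRingEnd ℂ) z)) := by
    intro z w
    rw [hcj]; simp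
  have hB : ∀ z w, φ (w - z) = (starRingEnd ℂ) (φ ((starRingEnd ℂ) w - (starRingEnd ℂ) z)) := by
    intro z w
    rw [hcj]; simp
  set r : ℂ → ℂ → ℝ := fun z w => Real.sqrt (c z) * Real.sqrt (c w) *
    (2 * (φ (w - (starRingEnd ℂ) z)).re + 2 * (φ ((starRingEnd ℂ) w - (starRingEnd ℂ) z)).re) with hr
  have hxxr : ∀ z w, inner ℂ (x z) (x w) = (r z w : ℂ) := by
    intro z w
    rw [hxx, hA z w, hB z w]
    simp only [hr]
    apply Complex.ext
    · simp; left; ring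
    · simp
  have hbbr : ∀ z w, inner ℂ (b z) (b w) = ((Real.sqrt (c z) * Real.sqrt (c w) *
    (2 * (φ (w - (starRingEnd ℂ) z)).re - 2 * (φ ((starRingEnd ℂ) w - (starRingEnd ℂ) z)).re) : ℝ)
      : ℂ) := by
    intro z w
    rw [hbb, hA z w, hB z w]
    apply Complex.ext
    · simp; left; ring
    · simp
  have hxbr : ∀ z w, ‖inner ℂ (x z) (b w)‖ ^ 2 = c z * c w *
    (4 * ((φ (w - (starRingEnd ℂ) z)).im - (φ ((starRingEnd ℂ) w - (starRingEnd ℂ) z)).im) ^ 2) := by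
    intro z w
    rw [hxb, hA z w, hB z w, ← Complex.normSq_eq_norm_sq, Complex.normSq_apply]
    simp only [Complex.mul_re, Complex.ofReal_re, Complex.ofReal_im, Complex.sub_re, Complex.add_re,
      Complex.conj_re, Complex.conj_im, Complex.sub_im, Complex.add_im, Complex.mul_im, zero_mul,
      sub_zero, add_zero]
    have h1 := Real.mul_self_sqrt (hc0 z)
    have h2 := Real.mul_self_sqrt (hc0 w)
    have : ∀ X : ℝ, (Real.sqrt (c z) * Real.sqrt (c w) * X) * (Real.sqrt (c z) * Real.sqrt (c w) * X)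
        = c z * c w * (X * X) := by
      intro X
      calc _ = (Real.sqrt (c z) * Real.sqrt (c z)) * (Real.sqrt (c w) * Real.sqrt (c w)) * (X * X) := by
            ring
        _ = _ := by rw [h1, h2]
    rw [this, this]
    ring
  have hsq : ∀ z w, ∀ X : ℝ, (Real.sqrt (c z) * Real.sqrt (c w) * X) ^ 2 = c z * c w * X ^ 2 := by
    intro z w X
    rw [mul_pow, mul_pow, Real.sq_sqrt (hc0 z), Real.sq_sqrt (hc0 w)]
  -- symmetric partner of xb
  have hxbr' : ∀ z w, ‖inner ℂ (x w) (b z)‖ ^ 2 = c z * c w *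
    (4 * ((φ (w - (starRingEnd ℂ) z)).im + (φ ((starRingEnd ℂ) w - (starRingEnd ℂ) z)).im) ^ 2) := by
    intro z w
    rw [hxbr w z]
    have e1 : φ (z - (starRingEnd ℂ) w) = (starRingEnd ℂ) (φ (w - (starRingEnd ℂ) z)) := by
      rw [← hA z w, ← hev]; congr 1; ring
    have e2 : φ ((starRingEnd ℂ) z - (starRingEnd ℂ) w) =
        φ ((starRingEnd ℂ) w - (starRingEnd ℂ) z) := by
      rw [← hev]; congr 1; ring
    rw [e1, e2, Complex.conj_im]
    ring
  -- trace of T^2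
  have htr : (∑ z ∈ Z, ∑ w ∈ Z, (m z : ℂ) * (m w : ℂ) * (φ (z - w)) ^ 2).re =
      ∑ z ∈ P, ∑ w ∈ P, 8 * (c z * c w) * ((φ (w - (starRingEnd ℂ) z) ^ 2).re +
        (φ ((starRingEnd ℂ) w - (starRingEnd ℂ) z) ^ 2).re) := by
    have h1 : ∑ z ∈ Z, ∑ w ∈ Z, (m z : ℂ) * (m w : ℂ) * (φ (z - w)) ^ 2 =
        ∑ z ∈ Z, (m z : ℂ) * ∑ w ∈ P, (2 * c w : ℂ) * (φ (z - w) ^ 2 +
          φ (z - (starRingEnd ℂ) w) ^ 2) := by
      refine Finset.sum_congr rfl fun z _ => ?_
      rw [← hsplit (fun w => φ (z - w) ^ 2), Finset.mul_sum]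
      refine Finset.sum_congr rfl fun w _ => ?_
      ring
    rw [h1, hsplit (fun z => ∑ w ∈ P, (2 * c w : ℂ) * (φ (z - w) ^ 2 +
          φ (z - (starRingEnd ℂ) w) ^ 2)), Complex.re_sum]
    refine Finset.sum_congr rfl fun z _ => ?_
    rw [← Finset.sum_add_distrib, Finset.mul_sum, Complex.re_sum]
    refine Finset.sum_congr rfl fun w _ => ?_
    have e1 : φ (z - w) = (starRingEnd ℂ) (φ ((starRingEnd ℂ) w - (starRingEnd ℂ) z)) := by
      rw [← hB z w, ← hev]; congr 1; ring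
    have e2 : φ (z - (starRingEnd ℂ) w) = (starRingEnd ℂ) (φ (w - (starRingEnd ℂ) z)) := by
      rw [← hA z w, ← hev]; congr 1; ring
    have e3 : φ ((starRingEnd ℂ) z - w) = φ (w - (starRingEnd ℂ) z) := by
      rw [← hev]; congr 1; ring
    have e4 : φ ((starRingEnd ℂ) z - (starRingEnd ℂ) w) =
        φ ((starRingEnd ℂ) w - (starRingEnd ℂ) z) := by
      rw [← hev]; congr 1; ring
    rw [e1, e2, e3, e4, ← map_pow, ← map_pow]
    set X := φ (w - (starRingEnd ℂ) z) ^ 2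
    set W := φ ((starRingEnd ℂ) w - (starRingEnd ℂ) z) ^ 2
    simp only [Complex.mul_re, Complex.add_re, Complex.conj_re, Complex.ofReal_re, Complex.ofReal_im,
      Complex.mul_im, Complex.add_im, Complex.conj_im]
    norm_num
    ring
  have htr2 : ∑ z ∈ P, ∑ w ∈ P, 8 * (c z * c w) * ((φ (w - (starRingEnd ℂ) z) ^ 2).re +
        (φ ((starRingEnd ℂ) w - (starRingEnd ℂ) z) ^ 2).re) =
      ∑ z ∈ P, ∑ w ∈ P, (r z w) ^ 2 - 2 * ∑ z ∈ P, ∑ w ∈ P, ‖inner ℂ (x z) (b w)‖ ^ 2 +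
        ∑ z ∈ P, ∑ w ∈ P, ‖inner ℂ (b z) (b w)‖ ^ 2 := by
    have h1 : 2 * ∑ z ∈ P, ∑ w ∈ P, ‖inner ℂ (x z) (b w)‖ ^ 2 =
        ∑ z ∈ P, ∑ w ∈ P, (‖inner ℂ (x z) (b w)‖ ^ 2 + ‖inner ℂ (x w) (b z)‖ ^ 2) := by
      simp_rw [Finset.sum_add_distrib]
      rw [Finset.sum_comm (f := fun z w => ‖inner ℂ (x w) (b z)‖ ^ 2)]
      ring
    rw [h1, ← Finset.sum_sub_distrib, ← Finset.sum_add_distrib]
    refine Finset.sum_congr rfl fun z _ => ?_
    rw [← Finset.sum_sub_distrib, ← Finset.sum_add_distrib]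
    refine Finset.sum_congr rfl fun w _ => ?_
    have e1 : (r z w) ^ 2 = c z * c w * (2 * (φ (w - (starRingEnd ℂ) z)).re +
        2 * (φ ((starRingEnd ℂ) w - (starRingEnd ℂ) z)).re) ^ 2 := hsq z w _
    rw [hxbr, hxbr', hbbr, Complex.norm_real, Real.norm_eq_abs, sq_abs, e1, hsq,
      sq (φ (w - (starRingEnd ℂ) z)), sq (φ ((starRingEnd ℂ) w - (starRingEnd ℂ) z)),
      Complex.mul_re, Complex.mul_re]
    ring
  -- facts on S and P
  have hSP : S ⊆ P := by
    intro z hz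
    simp only [hS, hP, Finset.mem_filter] at hz ⊢
    exact ⟨hz.1, hz.2.1.ge⟩
  have hSc : ∀ z ∈ S, c z = 1 / 4 ∧ (starRingEnd ℂ) z = z := by
    intro z hz
    simp only [hS, Finset.mem_filter] at hz
    refine ⟨?_, Complex.conj_eq_iff_im.mpr hz.2.1⟩
    simp only [hc, if_pos hz.2.1, hz.2.2]
    norm_num
  have hrS : ∀ z ∈ S, ∀ w ∈ S, r z w = (φ (z - w)).re := by
    intro z hz w hw
    simp only [hr]
    rw [(hSc z hz).1, (hSc w hw).1, (hSc z hz).2, (hSc w hw).2,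
      Real.mul_self_sqrt (by norm_num), ← hev (w - z), neg_sub]
    ring
  have hrd : ∀ z, r z z = 4 * c z + ‖b z‖ ^ 2 := by
    intro z
    have h1 : ((‖b z‖ ^ 2 : ℝ) : ℂ) = inner ℂ (b z) (b z) := by
      rw [inner_self_eq_norm_sq_to_K]; push_cast; rfl
    rw [hbbr] at h1
    have h2 := Complex.ofReal_injective h1
    rw [h2]
    simp only [hr, sub_self, h0, Complex.one_re]
    rw [Real.mul_self_sqrt (hc0 z)]
    ring
  have hbS : ∀ z ∈ S, ‖b z‖ ^ 2 = 0 := by
    intro z hz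
    have h1 := hrd z
    rw [hrS z hz z hz, (hSc z hz).1, sub_self, h0, Complex.one_re] at h1
    linarith
  -- main inequality
  have hmain := la_core_finset P x b D (by
    intro v
    have e1 : ∀ z ∈ P, ∀ w ∈ P, D z w * ((starRingEnd ℂ) (v z) * v w).re =
        if z ∈ S ∧ w ∈ S then ((if z = w then 1 else 0) + Y z w) * ((starRingEnd ℂ) (v z) * v w).re
          else if z = w then 2 * ‖v z‖ ^ 2 else 0 := by
      intro z _ w _
      simp only [hD]
      by_cases h1 : z ∈ S ∧ w ∈ S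
      · rw [if_pos h1, if_pos h1]
      · rw [if_neg h1, if_neg h1]
        by_cases h2 : z = w
        · rw [if_pos h2, if_pos h2, ← h2, Complex.conj_mul']
          rw [← Complex.ofReal_pow, Complex.ofReal_re]
        · rw [if_neg h2, if_neg h2, zero_mul]
    rw [Finset.sum_congr rfl fun z hz => Finset.sum_congr rfl fun w hw => e1 z hz w hw,
      dsum P S hSP]
    have e2 : ∑ z ∈ S, ∑ w ∈ S, ((if z = w then 1 else 0) + Y z w) *
        ((starRingEnd ℂ) (v z) * v w).re = ∑ z ∈ S, ‖v z‖ ^ 2 +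
        ∑ z ∈ S, ∑ w ∈ S, Y z w * ((starRingEnd ℂ) (v z) * v w).re := by
      rw [← Finset.sum_add_distrib]
      refine Finset.sum_congr rfl fun z hz => ?_
      simp_rw [add_mul, ite_mul, one_mul, zero_mul]
      rw [Finset.sum_add_distrib, Finset.sum_ite_eq, if_pos hz, Complex.conj_mul',
        ← Complex.ofReal_pow, Complex.ofReal_re]
    rw [e2, ← Finset.sum_sdiff hSP, ← Finset.mul_sum]
    have := hY v
    linarith)
  have hDr : ∑ z ∈ P, ∑ w ∈ P, ‖inner ℂ (x z) (x w) - (D z w : ℂ)‖ ^ 2 =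
      ∑ z ∈ P, ∑ w ∈ P, (r z w) ^ 2 - 2 * (∑ z ∈ S, ∑ w ∈ S,
        ((if z = w then 1 else 0) + Y z w) * (φ (z - w)).re + ∑ z ∈ P \ S, 2 * r z z)
        + (∑ z ∈ S, ∑ w ∈ S, ((if z = w then 1 else 0) + Y z w) ^ 2 + ∑ z ∈ P \ S, (4 : ℝ)) := by
    have e1 : ∀ z ∈ P, ∀ w ∈ P, D z w * r z w =
        if z ∈ S ∧ w ∈ S then ((if z = w then 1 else 0) + Y z w) * (φ (z - w)).re
          else if z = w then 2 * r z z else 0 := by
      intro z _ w _
      simp only [hD]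
      by_cases h1 : z ∈ S ∧ w ∈ S
      · rw [if_pos h1, if_pos h1, hrS z h1.1 w h1.2]
      · rw [if_neg h1, if_neg h1]
        by_cases h2 : z = w
        · rw [if_pos h2, if_pos h2, ← h2]
        · rw [if_neg h2, if_neg h2, zero_mul]
    have e2 : ∀ z ∈ P, ∀ w ∈ P, (D z w) ^ 2 =
        if z ∈ S ∧ w ∈ S then ((if z = w then 1 else 0) + Y z w) ^ 2
          else if z = w then 4 else 0 := by
      intro z _ w _
      simp only [hD]
      by_cases h1 : z ∈ S ∧ w ∈ S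
      · rw [if_pos h1, if_pos h1]
      · rw [if_neg h1, if_neg h1]
        by_cases h2 : z = w
        · rw [if_pos h2, if_pos h2]; norm_num
        · rw [if_neg h2, if_neg h2]; norm_num
    rw [← dsum P S hSP, ← dsum P S hSP]
    rw [← Finset.sum_congr rfl fun z hz => Finset.sum_congr rfl fun w hw => e1 z hz w hw,
      ← Finset.sum_congr rfl fun z hz => Finset.sum_congr rfl fun w hw => e2 z hz w hw,
      Finset.mul_sum, ← Finset.sum_sub_distrib, ← Finset.sum_add_distrib]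
    refine Finset.sum_congr rfl fun z _ => ?_
    rw [Finset.mul_sum, ← Finset.sum_sub_distrib, ← Finset.sum_add_distrib]
    refine Finset.sum_congr rfl fun w _ => ?_
    rw [hxxr, ← Complex.ofReal_sub, Complex.norm_real, Real.norm_eq_abs, sq_abs]
    ring
  have hN : ∑ z ∈ P, 4 * c z = ∑ z ∈ Z, (m z : ℝ) := by
    have h1 := hsplit (fun _ => 1)
    apply Complex.ofReal_injective
    push_cast
    simp only [mul_one] at h1
    rw [h1]
    refine Finset.sum_congr rfl fun z _ => ?_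
    ring
  have hNS : ∑ z ∈ S, 4 * c z = (S.card : ℝ) := by
    rw [Finset.card_eq_sum_ones, Nat.cast_sum]
    refine Finset.sum_congr rfl fun z hz => ?_
    rw [(hSc z hz).1]; norm_num
  have hcard : ((P \ S).card : ℝ) = ((Z.filter (fun z => z.im = 0 ∧ 2 ≤ m z)).card : ℝ)
          + ((Z.filter (fun z => 0 < z.im)).card : ℝ) := by
    rw [← Nat.cast_add, ← Finset.card_union_of_disjoint]
    · congr 2
      ext z
      simp only [hS, hP, Finset.mem_sdiff, Finset.mem_filter, Finset.mem_union]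
      constructor
      · rintro ⟨⟨h1, h2⟩, h3⟩
        rcases h2.eq_or_lt with h4 | h4
        · left
          refine ⟨h1, h4.symm, ?_⟩
          have h5 := hm1 z h1
          have h6 : m z ≠ 1 := fun h6 => h3 ⟨h1, h4.symm, h6⟩
          omega
        · right
          exact ⟨h1, h4⟩
      · rintro (⟨h1, h2, h3⟩ | ⟨h1, h2⟩)
        · exact ⟨⟨h1, h2.ge⟩, fun h => by omega⟩
        · exact ⟨⟨h1, h2.le⟩, fun h => by linarith [h.2.1]⟩
    · rw [Finset.disjoint_left]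
      intro z h1 h2
      simp only [Finset.mem_filter] at h1 h2
      linarith [h1.2.1, h2.2]
  have hsum1 : ∑ z ∈ P \ S, 2 * r z z = 2 * (∑ z ∈ Z, (m z : ℝ) - (S.card : ℝ)) +
      2 * ∑ z ∈ P, ‖b z‖ ^ 2 := by
    have e1 : ∑ z ∈ P \ S, 2 * r z z = 2 * ∑ z ∈ P \ S, 4 * c z + 2 * ∑ z ∈ P \ S, ‖b z‖ ^ 2 := by
      rw [Finset.mul_sum, Finset.mul_sum, ← Finset.sum_add_distrib]
      refine Finset.sum_congr rfl fun z _ => ?_
      rw [hrd]; ring
    have e2 := Finset.sum_sdiff (f := fun z => 4 * c z) hSP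
    have e3 := Finset.sum_sdiff (f := fun z => ‖b z‖ ^ 2) hSP
    have e4 : ∑ z ∈ S, ‖b z‖ ^ 2 = 0 := Finset.sum_eq_zero fun z hz => hbS z hz
    rw [e1]
    rw [e4, add_zero] at e3
    rw [hN, hNS] at e2
    rw [e3]
    linarith
  have hsum2 : ∑ z ∈ P \ S, (4 : ℝ) = 4 * ((P \ S).card : ℝ) := by
    rw [Finset.sum_const, nsmul_eq_mul]; ring
  have hsum3 : ∑ z ∈ S, ∑ w ∈ S, ((if z = w then 1 else 0) + Y z w) * (φ (z - w)).re =
      (S.card : ℝ) + ∑ z ∈ S, ∑ w ∈ S, Y z w * (φ (z - w)).re := by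
    rw [Finset.card_eq_sum_ones, Nat.cast_sum, ← Finset.sum_add_distrib]
    refine Finset.sum_congr rfl fun z hz => ?_
    simp_rw [add_mul, ite_mul, one_mul, zero_mul]
    rw [Finset.sum_add_distrib, Finset.sum_ite_eq, if_pos hz, sub_self, h0]
    simp
  have hsum4 : ∑ z ∈ S, ∑ w ∈ S, ((if z = w then 1 else 0) + Y z w) ^ 2 =
      (S.card : ℝ) + 2 * ∑ z ∈ S, Y z z + ∑ z ∈ S, ∑ w ∈ S, (Y z w) ^ 2 := by
    rw [Finset.card_eq_sum_ones, Nat.cast_sum, Finset.mul_sum, ← Finset.sum_add_distrib,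
      ← Finset.sum_add_distrib]
    refine Finset.sum_congr rfl fun z hz => ?_
    have : ∀ w, ((if z = w then 1 else 0) + Y z w) ^ 2 =
        (if z = w then 1 + 2 * Y z w else 0) + (Y z w) ^ 2 := by
      intro w
      split_ifs <;> ring
    simp_rw [this]
    rw [Finset.sum_add_distrib, Finset.sum_ite_eq, if_pos hz]
    simp
  have hsum5 : ∑ x ∈ S, ∑ y ∈ S, Y x y * ((φ (x - y)).re - if x = y then 1 else 0) =
      ∑ z ∈ S, ∑ w ∈ S, Y z w * (φ (z - w)).re - ∑ z ∈ S, Y z z := by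
    rw [← Finset.sum_sub_distrib]
    refine Finset.sum_congr rfl fun z hz => ?_
    simp_rw [mul_sub, mul_ite, mul_one, mul_zero]
    rw [Finset.sum_sub_distrib, Finset.sum_ite_eq, if_pos hz]
  rw [htr, htr2, hsum5]
  rw [hDr, hsum1, hsum2, hsum3, hsum4, hcard] at hmain
  linarith

end H370
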