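import Pool.Agent.H370R2.PC1
import Pool.Agent.H370R2.Trace

open Complex Filter Topology Set MeasureTheory
open scoped BigOperators ComplexConjugate

namespace H370

/-- ordinates of the simple critical zeros in `(U1, U2]` -/
noncomputable def SF (F : ℂ → ℂ) (U1 U2 : ℝ) : Finset ℝ := by
  classical
  exact ((Zf F U1 U2).filter (fun s => s.re = 1 / 2 ∧ mult F s = 1)).image Complex.im

section

variable {F : ℂ → ℂ} (hF : GoodL F) {U1 U2 : ℝ} (hU : 1 ≤ U1)

lemma SF_injOn : Set.InjOn Complex.im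
    ((Zf F U1 U2).filter (fun s => s.re = 1 / 2 ∧ mult F s = 1) : Set ℂ) := by
  intro s hs s' hs' h
  have h1 := (Finset.mem_filter.mp hs).2.1
  have h2 := (Finset.mem_filter.mp hs').2.1
  exact Complex.ext (by rw [h1, h2]) h

include hF hU in
lemma Ns_card : Ns F U1 U2 = (SF F U1 U2).card := by
  unfold SF Ns
  rw [Finset.card_image_of_injOn SF_injOn, ← Set.ncard_coe_finset]
  congr 1
  ext s
  simp only [Set.mem_ofPred_eq, Finset.coe_filter, mem_Zf hF hU]

include hF hU in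
lemma Nd_card : Nd F U1 U2 = (Zf F U1 U2).card := by
  unfold Nd
  rw [← Set.ncard_coe_finset]
  congr 1
  ext s
  simp only [Finset.mem_coe, mem_Zf hF hU]

include hF hU in
lemma SF_mem {x : ℝ} (hx : x ∈ SF F U1 U2) : U1 < x ∧ x ≤ U2 := by
  unfold SF at hx
  rw [Finset.mem_image] at hx
  obtain ⟨s, hs, rfl⟩ := hx
  have := (Finset.mem_filter.mp hs).1
  rw [mem_Zf hF hU] at this
  exact ⟨this.2.2.1, this.2.2.2.1⟩

lemma sum_SF {M : Type*} [AddCommMonoid M] (f : ℝ → M) :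
    ∑ x ∈ SF F U1 U2, f x =
      ∑ s ∈ (Zf F U1 U2).filter (fun s => s.re = 1 / 2 ∧ mult F s = 1), f s.im := by
  unfold SF
  rw [Finset.sum_image SF_injOn]

/-- the quantity gained from an off-diagonal test matrix `Y` -/
noncomputable def YT (Λ : ℝ) (S : Finset ℝ) (Y : ℝ → ℝ → ℝ) : ℝ :=
  2 * ∑ x ∈ S, ∑ y ∈ S, Y x y * ((phi Λ ((x : ℂ) - y)).re - if x = y then 1 else 0)
    - ∑ x ∈ S, ∑ y ∈ S, (Y x y) ^ 2

lemma phi_even (Λ : ℝ) (z : ℂ) : phi Λ (-z) = phi Λ z := by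
  unfold phi
  rw [mul_neg, kap_even, neg_sq]

lemma phi_zero (Λ : ℝ) : phi Λ 0 = 1 := by
  unfold phi
  rw [mul_zero, kap_zero]
  simp

lemma zz_simple {s : ℂ} (h : s.re = 1 / 2) : zz s = (s.im : ℂ) := by
  apply Complex.ext
  · rw [zz_re, Complex.ofReal_re]
  · rw [zz_im, Complex.ofReal_im, h]; ring

include hF hU in
theorem trace_zeros (Λ : ℝ) (Y : ℝ → ℝ → ℝ)
    (hY : ∀ v : ℝ → ℂ, ∑ x ∈ SF F U1 U2, ∑ y ∈ SF F U1 U2, Y x y * (conj (v x) * v y).re
      ≤ ∑ x ∈ SF F U1 U2, ‖v x‖ ^ 2) :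
    2 * (NN F U1 U2 : ℝ) - QQ F Λ U1 U2 + YT Λ (SF F U1 U2) Y ≤ Ns F U1 U2 ∧
    3 * (NN F U1 U2 : ℝ) - QQ F Λ U1 U2 + YT Λ (SF F U1 U2) Y ≤ 2 * Nd F U1 U2 := by
  classical
  obtain ⟨E, iE1, iE2, k, hk⟩ := gram_exists Λ
  set W := Zf F U1 U2 with hW
  have hinj : Set.InjOn zz (W : Set ℂ) := fun s _ s' _ h => zz_inj h
  set Z : Finset ℂ := W.image zz with hZ
  set m : ℂ → ℕ := fun z => mult F (1 / 2 + I * z) with hm
  have hback : ∀ s : ℂ, (1 / 2 + I * zz s) = s := by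
    intro s
    have := zz_spec s
    linear_combination -this
  have hmz : ∀ s : ℂ, m (zz s) = mult F s := by
    intro s; simp only [hm]; rw [hback]
  have hWm : ∀ s ∈ W, s ∈ zset F U1 U2 := fun s hs => (mem_Zf hF hU).mp hs
  have hWpos : ∀ s ∈ W, 1 ≤ mult F s := by
    intro s hs
    have := hWm s hs
    exact Loc.mult_pos' hF (by linarith [this.2.2.1]) this.2.2.2.2
  -- the filtered sets
  have hf1 : Z.filter (fun z => z.im = 0 ∧ m z = 1) =
      (W.filter (fun s => s.re = 1 / 2 ∧ mult F s = 1)).image zz := by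
    ext z
    simp only [Finset.mem_filter, Finset.mem_image, hZ]
    constructor
    · rintro ⟨⟨s, hs, rfl⟩, h1, h2⟩
      rw [hmz] at h2
      rw [zz_im] at h1
      exact ⟨s, ⟨hs, by linarith, h2⟩, rfl⟩
    · rintro ⟨s, ⟨hs, h1, h2⟩, rfl⟩
      refine ⟨⟨s, hs, rfl⟩, ?_, ?_⟩
      · rw [zz_im, h1]; ring
      · rw [hmz, h2]
  have hsum1 : ∀ {M : Type} [AddCommMonoid M] (f : ℂ → M),
      ∑ z ∈ Z.filter (fun z => z.im = 0 ∧ m z = 1), f z = ∑ x ∈ SF F U1 U2, f (x : ℂ) := by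
    intro M _ f
    rw [hf1, Finset.sum_image (fun s _ s' _ h => zz_inj h), sum_SF]
    refine Finset.sum_congr rfl fun s hs => ?_
    rw [zz_simple (Finset.mem_filter.mp hs).2.1]
  have hcard1 : ((Z.filter (fun z => z.im = 0 ∧ m z = 1)).card : ℝ) = Ns F U1 U2 := by
    rw [Ns_card hF hU, Finset.card_eq_sum_ones, hsum1, ← Finset.card_eq_sum_ones]
  have hsumZ : ∀ {M : Type} [AddCommMonoid M] (f : ℂ → M),
      ∑ z ∈ Z, f z = ∑ s ∈ W, f (zz s) := by
    intro M _ f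
    rw [hZ, Finset.sum_image (fun s _ s' _ h => zz_inj h)]
  have hN : ∑ z ∈ Z, (m z : ℝ) = NN F U1 U2 := by
    rw [NN_eq hF hU, hsumZ]
    simp only [hmz]
    push_cast; rfl
  have hZc : ∀ z ∈ Z, conj z ∈ Z := by
    intro z hz
    rw [hZ, Finset.mem_image] at hz
    obtain ⟨s, hs, rfl⟩ := hz
    rw [← zz_refl]
    exact Finset.mem_image_of_mem _ ((mem_Zf hF hU).mpr (zset_refl hF hU (hWm s hs)))
  have hmp : ∀ z ∈ Z, 1 ≤ m z := by
    intro z hz
    rw [hZ, Finset.mem_image] at hz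
    obtain ⟨s, hs, rfl⟩ := hz
    rw [hmz]
    exact hWpos s hs
  have hT := trace_ineq (phi Λ) k hk (phi_even Λ) (phi_zero Λ) Z hZc m hmp ?_
    (fun z w => Y z.re w.re) ?_
  · -- main
    simp only [hsum1, hcard1, hN] at hT
    have hB : (Z.filter (fun z => z.im < 0)).card = (Z.filter (fun z => 0 < z.im)).card := by
      refine Finset.card_bij' (fun z _ => conj z) (fun z _ => conj z) ?_ ?_ ?_ ?_
      · intro z hz
        rw [Finset.mem_filter] at hz ⊢
        exact ⟨hZc z hz.1, by rw [Complex.conj_im]; linarith [hz.2]⟩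
      · intro z hz
        rw [Finset.mem_filter] at hz ⊢
        exact ⟨hZc z hz.1, by rw [Complex.conj_im]; linarith [hz.2]⟩
      · intro z _; simp
      · intro z _; simp
    set A : ℝ := ((Z.filter (fun z => z.im = 0 ∧ 2 ≤ m z)).card : ℝ) with hA
    set B : ℝ := ((Z.filter (fun z => 0 < z.im)).card : ℝ) with hBdef
    have hb1 : ∑ z ∈ Z, (if z.im = 0 ∧ m z = 1 then (1 : ℝ) else 0) = Ns F U1 U2 := by
      rw [Finset.sum_boole, hcard1]
    have hb2 : ∑ z ∈ Z, (if z.im = 0 ∧ 2 ≤ m z then (1 : ℝ) else 0) = A := by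
      rw [Finset.sum_boole]
    have hb3 : ∑ z ∈ Z, (if 0 < z.im then (1 : ℝ) else 0) = B := by
      rw [Finset.sum_boole]
    have hb4 : ∑ z ∈ Z, (if z.im < 0 then (1 : ℝ) else 0) = B := by
      rw [Finset.sum_boole, hB]
    have hNN : (Ns F U1 U2 : ℝ) + 2 * A + 2 * B ≤ NN F U1 U2 := by
      have : ∑ z ∈ Z, ((if z.im = 0 ∧ m z = 1 then (1 : ℝ) else 0) +
          2 * (if z.im = 0 ∧ 2 ≤ m z then (1 : ℝ) else 0) + (if 0 < z.im then (1 : ℝ) else 0) +
          (if z.im < 0 then (1 : ℝ) else 0)) ≤ ∑ z ∈ Z, (m z : ℝ) := by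
        refine Finset.sum_le_sum fun z hz => ?_
        have h1 : (1 : ℝ) ≤ m z := by exact_mod_cast hmp z hz
        rcases lt_trichotomy z.im 0 with h | h | h
        · have h' : ¬ (0 < z.im) := by linarith
          simp [h, h.ne, h', h1]
        · by_cases h2 : m z = 1
          · simp [h, h2]
          · have h3 : 2 ≤ m z := by have := hmp z hz; omega
            have h4 : (2 : ℝ) ≤ m z := by exact_mod_cast h3
            simp [h, h2, h3, h4]
        · have h' : ¬ (z.im < 0) := by linarith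
          simp [h, h.ne', h', h1]
      rw [Finset.sum_add_distrib, Finset.sum_add_distrib, Finset.sum_add_distrib,
        ← Finset.mul_sum, hb1, hb2, hb3, hb4, hN] at this
      linarith
    have hND : (Ns F U1 U2 : ℝ) + A + 2 * B ≤ Nd F U1 U2 := by
      have hcz : (Nd F U1 U2 : ℝ) = ∑ z ∈ Z, (1 : ℝ) := by
        rw [Nd_card hF hU, hsumZ, ← hW]; simp
      rw [hcz, ← hb1, ← hb2]
      have e : 2 * B = B + B := by ring
      rw [e]
      nth_rewrite 1 [← hb3]
      rw [← hb4, ← Finset.sum_add_distrib, ← Finset.sum_add_distrib, ← Finset.sum_add_distrib]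
      refine Finset.sum_le_sum fun z hz => ?_
      rcases lt_trichotomy z.im 0 with h | h | h
      · have h' : ¬ (0 < z.im) := by linarith
        simp [h, h.ne, h']
      · by_cases h2 : m z = 1
        · simp [h, h2]
        · have h3 : 2 ≤ m z := by have := hmp z hz; omega
          simp [h, h2, h3]
      · have h' : ¬ (z.im < 0) := by linarith
        simp [h, h.ne', h']
    have hQ : (∑ z ∈ Z, ∑ w ∈ Z, (m z : ℂ) * (m w : ℂ) * (phi Λ (z - w)) ^ 2).re
        = QQ F Λ U1 U2 := by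
      rw [QQ_eq hF hU, hsumZ]
      simp only [hsumZ, hmz, ← hW]
    rw [hQ] at hT
    have hYT : YT Λ (SF F U1 U2) Y = 2 * ∑ x ∈ SF F U1 U2, ∑ y ∈ SF F U1 U2,
        Y (x : ℂ).re (y : ℂ).re * ((phi Λ ((x : ℂ) - y)).re - if (x : ℂ) = (y : ℂ) then 1 else 0)
        - ∑ x ∈ SF F U1 U2, ∑ y ∈ SF F U1 U2, (Y (x : ℂ).re (y : ℂ).re) ^ 2 := by
      unfold YT
      simp only [Complex.ofReal_re, Complex.ofReal_inj]
    rw [← hYT] at hT
    have hBnn : 0 ≤ B := Nat.cast_nonneg _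
    constructor
    · linarith
    · linarith
  · intro z hz
    rw [hZ, Finset.mem_image] at hz
    obtain ⟨s, hs, rfl⟩ := hz
    have := hWm s hs
    rw [← zz_refl, hmz, hmz, mult_refl hF this.1 this.2.1 (by linarith [this.2.2.1])]
  · intro v
    simp only [hsum1, Complex.ofReal_re]
    exact hY (fun x => v x)

end

end H370
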