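import Pool.Agent.H370R2.Kdef

open Finset MeasureTheory

namespace H370

theorem nt_sqrt2_lt : Real.sqrt 2 < Real.pi / 2 := by
  have h1 : Real.sqrt 2 < 1.5 := by
    rw [Real.sqrt_lt' (by norm_num)]
    norm_num
  have := Real.pi_gt_three
  linarith

/-- numerator of `Rf` -/
noncomputable def ntN (a : ℝ) : ℝ :=
  (1 - a) * Real.cos (Real.sqrt 2 * a) + Real.sin (Real.sqrt 2 * (1 - a)) / Real.sqrt 2

theorem nt_Rf_eq (α : ℝ) :
    Rf α = ntN (min |α| 1) / (2 * (Real.sqrt 2 * Real.sin (1 / Real.sqrt 2)) ^ 2) := by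
  unfold Rf ntN
  split_ifs with h
  · rw [min_eq_left h]
  · rw [min_eq_right (not_le.1 h).le]
    simp

theorem nt_N_nonneg {a : ℝ} (h0 : 0 ≤ a) (h1 : a ≤ 1) : 0 ≤ ntN a := by
  have hs := nt_sqrt2_lt
  have hs0 : 0 ≤ Real.sqrt 2 := Real.sqrt_nonneg 2
  have hp := Real.pi_pos
  unfold ntN
  have h2 : Real.sqrt 2 * a ≤ Real.sqrt 2 := by nlinarith
  have h3 : Real.sqrt 2 * (1 - a) ≤ Real.sqrt 2 := by nlinarith
  have h2' : 0 ≤ Real.sqrt 2 * a := by positivity
  have h3' : 0 ≤ Real.sqrt 2 * (1 - a) := mul_nonneg hs0 (by linarith)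
  have h4 : 0 ≤ Real.cos (Real.sqrt 2 * a) :=
    Real.cos_nonneg_of_neg_pi_div_two_le_of_le (by linarith) (by linarith)
  have h5 : 0 ≤ Real.sin (Real.sqrt 2 * (1 - a)) :=
    Real.sin_nonneg_of_nonneg_of_le_pi h3' (by linarith)
  have h6 : 0 ≤ (1 - a) := by linarith
  positivity

theorem nt_N_anti {a b : ℝ} (h0 : 0 ≤ a) (hab : a ≤ b) (h1 : b ≤ 1) : ntN b ≤ ntN a := by
  have hs := nt_sqrt2_lt
  have hs0 : 0 < Real.sqrt 2 := Real.sqrt_pos.2 (by norm_num)
  have hp := Real.pi_pos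
  unfold ntN
  have h2 : Real.sqrt 2 * a ≤ Real.sqrt 2 * b := by nlinarith
  have h2b : Real.sqrt 2 * b ≤ Real.sqrt 2 := by nlinarith
  have h2a : 0 ≤ Real.sqrt 2 * a := by positivity
  have h3 : Real.sqrt 2 * (1 - b) ≤ Real.sqrt 2 * (1 - a) := by nlinarith
  have h3b : 0 ≤ Real.sqrt 2 * (1 - b) := mul_nonneg hs0.le (by linarith)
  have h3a : Real.sqrt 2 * (1 - a) ≤ Real.sqrt 2 := by nlinarith
  have h4 : Real.cos (Real.sqrt 2 * b) ≤ Real.cos (Real.sqrt 2 * a) :=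
    Real.cos_le_cos_of_nonneg_of_le_pi h2a (by linarith) h2
  have h5 : 0 ≤ Real.cos (Real.sqrt 2 * b) :=
    Real.cos_nonneg_of_neg_pi_div_two_le_of_le (by linarith) (by linarith)
  have h6 : Real.sin (Real.sqrt 2 * (1 - b)) ≤ Real.sin (Real.sqrt 2 * (1 - a)) :=
    Real.sin_le_sin_of_le_of_le_pi_div_two (by linarith) (by linarith) h3
  have h7 : (1 - b) * Real.cos (Real.sqrt 2 * b) ≤ (1 - a) * Real.cos (Real.sqrt 2 * a) :=
    mul_le_mul (by linarith) h4 h5 (by linarith)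
  have h8 := div_le_div_of_nonneg_right h6 hs0.le
  linarith

theorem nt_N_lip {a b : ℝ} (h0 : 0 ≤ a) (h1 : a ≤ 1) (h0' : 0 ≤ b) (h1' : b ≤ 1) :
    |ntN a - ntN b| ≤ 4 * |a - b| := by
  have hs0 : 0 < Real.sqrt 2 := Real.sqrt_pos.2 (by norm_num)
  have hs2 : Real.sqrt 2 ≤ 2 := by
    rw [Real.sqrt_le_left (by norm_num)]; norm_num
  have e1 : ntN a - ntN b = (1 - a) * (Real.cos (Real.sqrt 2 * a) - Real.cos (Real.sqrt 2 * b))
      + (b - a) * Real.cos (Real.sqrt 2 * b)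
      + (Real.sin (Real.sqrt 2 * (1 - a)) - Real.sin (Real.sqrt 2 * (1 - b))) / Real.sqrt 2 := by
    unfold ntN; ring
  have c1 : |Real.cos (Real.sqrt 2 * a) - Real.cos (Real.sqrt 2 * b)| ≤ 2 * |a - b| := by
    have h := Real.abs_cos_sub_cos_le (Real.sqrt 2 * a) (Real.sqrt 2 * b)
    rw [← mul_sub, abs_mul, abs_of_pos hs0] at h
    nlinarith [abs_nonneg (a - b)]
  have c2 : |Real.sin (Real.sqrt 2 * (1 - a)) - Real.sin (Real.sqrt 2 * (1 - b))| ≤
      Real.sqrt 2 * |a - b| := by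
    have h := Real.abs_sin_sub_sin_le (Real.sqrt 2 * (1 - a)) (Real.sqrt 2 * (1 - b))
    rw [← mul_sub, abs_mul, abs_of_pos hs0] at h
    have : |1 - a - (1 - b)| = |a - b| := by
      rw [show 1 - a - (1 - b) = -(a - b) by ring, abs_neg]
    rwa [this] at h
  rw [e1]
  have t1 := abs_add_le ((1 - a) * (Real.cos (Real.sqrt 2 * a) - Real.cos (Real.sqrt 2 * b))
      + (b - a) * Real.cos (Real.sqrt 2 * b))
      ((Real.sin (Real.sqrt 2 * (1 - a)) - Real.sin (Real.sqrt 2 * (1 - b))) / Real.sqrt 2)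
  have t2 := abs_add_le ((1 - a) * (Real.cos (Real.sqrt 2 * a) - Real.cos (Real.sqrt 2 * b)))
    ((b - a) * Real.cos (Real.sqrt 2 * b))
  have u1 : |(1 - a) * (Real.cos (Real.sqrt 2 * a) - Real.cos (Real.sqrt 2 * b))| ≤
      2 * |a - b| := by
    rw [abs_mul, abs_of_nonneg (by linarith : (0 : ℝ) ≤ 1 - a)]
    nlinarith [abs_nonneg (Real.cos (Real.sqrt 2 * a) - Real.cos (Real.sqrt 2 * b))]
  have u2 : |(b - a) * Real.cos (Real.sqrt 2 * b)| ≤ |a - b| := by
    rw [abs_mul, abs_sub_comm]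
    have := Real.abs_cos_le_one (Real.sqrt 2 * b)
    nlinarith [abs_nonneg (a - b)]
  have u3 : |(Real.sin (Real.sqrt 2 * (1 - a)) - Real.sin (Real.sqrt 2 * (1 - b))) / Real.sqrt 2|
      ≤ |a - b| := by
    rw [abs_div, abs_of_pos hs0, div_le_iff₀ hs0]
    linarith
  linarith

theorem nt_Rf_nonneg (α : ℝ) : 0 ≤ Rf α := by
  rw [nt_Rf_eq]
  have : 0 ≤ ntN (min |α| 1) := nt_N_nonneg (le_min (abs_nonneg _) zero_le_one) (min_le_right _ _)
  positivity

theorem nt_Rf_antitone : AntitoneOn Rf (Set.Ici 0) := by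
  intro x hx y hy hxy
  rw [nt_Rf_eq, nt_Rf_eq]
  have hx : (0 : ℝ) ≤ x := hx
  have hy : (0 : ℝ) ≤ y := hy
  apply div_le_div_of_nonneg_right _ (by positivity)
  apply nt_N_anti (le_min (abs_nonneg _) zero_le_one) _ (min_le_right _ _)
  rw [abs_of_nonneg hx, abs_of_nonneg hy]
  exact min_le_min_right 1 hxy

theorem nt_Rf_lip : ∃ K : ℝ, 0 < K ∧ ∀ x y, |Rf x - Rf y| ≤ K * |x - y| := by
  have hD : 0 ≤ 2 * (Real.sqrt 2 * Real.sin (1 / Real.sqrt 2)) ^ 2 := by positivity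
  set D := 2 * (Real.sqrt 2 * Real.sin (1 / Real.sqrt 2)) ^ 2 with hDd
  refine ⟨4 / D + 1, by positivity, fun x y => ?_⟩
  rw [nt_Rf_eq, nt_Rf_eq, ← hDd, ← sub_div, abs_div, abs_of_nonneg hD]
  have h1 := nt_N_lip (le_min (abs_nonneg x) zero_le_one) (min_le_right _ _)
    (le_min (abs_nonneg y) zero_le_one) (min_le_right _ _)
  have h2 : |min |x| 1 - min |y| 1| ≤ |x - y| :=
    (abs_min_sub_min_le_max _ _ _ _).trans (by simpa using abs_abs_sub_abs_le x y)
  calc |ntN (min |x| 1) - ntN (min |y| 1)| / D ≤ (4 * |x - y|) / D := by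
        apply div_le_div_of_nonneg_right _ hD
        linarith
    _ = (4 / D) * |x - y| := by ring
    _ ≤ (4 / D + 1) * |x - y| := by
        have := abs_nonneg (x - y)
        nlinarith

open ArithmeticFunction in
theorem nt_log_factorial (N : ℕ) :
    Real.log (N.factorial : ℝ) = ∑ d ∈ Finset.Icc 1 N, vonMangoldt d * ((N / d : ℕ) : ℝ) := by
  have h1 : Real.log (N.factorial : ℝ) = ∑ n ∈ Finset.Ioc 0 N, Real.log n := by
    induction N with
    | zero => simp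
    | succ N ih =>
      rw [Nat.factorial_succ, Finset.sum_Ioc_succ_top (Nat.zero_le _), ← ih]
      push_cast
      rw [Real.log_mul (by positivity) (by exact_mod_cast N.factorial_ne_zero), add_comm]
  have h2 := sum_Ioc_mul_zeta_eq_sum (R := ℝ) vonMangoldt N
  rw [vonMangoldt_mul_zeta] at h2
  rw [h1, show Finset.Icc 1 N = Finset.Ioc 0 N from rfl]
  simpa using h2

theorem nt_mertens_lower (N : ℕ) (hN : 1 ≤ N) :
    Real.log N - 1 ≤ ∑ d ∈ Finset.Icc 1 N, ArithmeticFunction.vonMangoldt d / d := by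
  have hN' : (0 : ℝ) < N := by exact_mod_cast hN
  have hN1 : (1 : ℝ) ≤ N := by exact_mod_cast hN
  have hlo : N * Real.log N - N ≤ Real.log (N.factorial : ℝ) := by
    have h1 := Stirling.le_log_factorial_stirling (n := N) (by omega)
    have h2 : 0 ≤ Real.log N := Real.log_nonneg hN1
    have h3 : 0 ≤ Real.log (2 * Real.pi) := Real.log_nonneg (by linarith [Real.pi_gt_three])
    linarith
  have h2 : Real.log (N.factorial : ℝ) ≤
      N * ∑ d ∈ Finset.Icc 1 N, ArithmeticFunction.vonMangoldt d / d := by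
    rw [nt_log_factorial, Finset.mul_sum]
    refine Finset.sum_le_sum fun d hd => ?_
    have hd0 : (0 : ℝ) < d := by exact_mod_cast (Finset.mem_Icc.1 hd).1
    have h3 : ((N / d : ℕ) : ℝ) ≤ N / d := Nat.cast_div_le
    have h4 : 0 ≤ ArithmeticFunction.vonMangoldt d := ArithmeticFunction.vonMangoldt_nonneg
    calc ArithmeticFunction.vonMangoldt d * ((N / d : ℕ) : ℝ)
        ≤ ArithmeticFunction.vonMangoldt d * (N / d) := mul_le_mul_of_nonneg_left h3 h4
      _ = N * (ArithmeticFunction.vonMangoldt d / d) := by ring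
  have h3 : N * (Real.log N - 1) ≤
      N * ∑ d ∈ Finset.Icc 1 N, ArithmeticFunction.vonMangoldt d / d := by
    calc N * (Real.log N - 1) = N * Real.log N - N := by ring
      _ ≤ _ := hlo.trans h2
  exact le_of_mul_le_mul_left h3 hN'

theorem nt_mertens_upper (N : ℕ) (hN : 1 ≤ N) :
    ∑ d ∈ Finset.Icc 1 N, ArithmeticFunction.vonMangoldt d / d ≤ Real.log N + 6 := by
  have hN' : (0 : ℝ) < N := by exact_mod_cast hN
  have hN1 : (1 : ℝ) ≤ N := by exact_mod_cast hN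
  have hup : Real.log (N.factorial : ℝ) ≤ N * Real.log N := by
    rw [← Real.log_pow]
    apply Real.log_le_log
    · exact_mod_cast N.factorial_pos
    · exact_mod_cast N.factorial_le_pow
  have hpsi : ∑ d ∈ Finset.Icc 1 N, ArithmeticFunction.vonMangoldt d ≤ 6 * N := by
    have h := Chebyshev.psi_le_const_mul_self (x := (N : ℝ)) hN'.le
    rw [Chebyshev.psi, Nat.floor_natCast] at h
    have h3 : Real.log 4 ≤ 2 := by
      have : Real.log 4 = 2 * Real.log 2 := by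
        rw [show (4 : ℝ) = 2 ^ 2 by norm_num, Real.log_pow]; norm_num
      have := Real.log_two_lt_d9
      linarith
    have h4 : (Real.log 4 + 4) * N ≤ 6 * N := mul_le_mul_of_nonneg_right (by linarith) hN'.le
    exact le_trans (le_of_eq rfl) (h.trans h4)
  have h2 : N * ∑ d ∈ Finset.Icc 1 N, ArithmeticFunction.vonMangoldt d / d -
      ∑ d ∈ Finset.Icc 1 N, ArithmeticFunction.vonMangoldt d ≤ Real.log (N.factorial : ℝ) := by
    rw [nt_log_factorial, Finset.mul_sum, ← Finset.sum_sub_distrib]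
    refine Finset.sum_le_sum fun d hd => ?_
    have hd0 : (0 : ℝ) < d := by exact_mod_cast (Finset.mem_Icc.1 hd).1
    have h3 : (N : ℝ) / d - 1 ≤ ((N / d : ℕ) : ℝ) := by
      have h6 : (N : ℝ) / d < ((N / d : ℕ) : ℝ) + 1 := by
        rw [← Nat.floor_div_eq_div (K := ℝ)]
        exact Nat.lt_floor_add_one _
      linarith
    have h4 : 0 ≤ ArithmeticFunction.vonMangoldt d := ArithmeticFunction.vonMangoldt_nonneg
    calc N * (ArithmeticFunction.vonMangoldt d / d) - ArithmeticFunction.vonMangoldt d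
        = ArithmeticFunction.vonMangoldt d * (N / d - 1) := by ring
      _ ≤ ArithmeticFunction.vonMangoldt d * ((N / d : ℕ) : ℝ) := mul_le_mul_of_nonneg_left h3 h4
  have h3 : N * ∑ d ∈ Finset.Icc 1 N, ArithmeticFunction.vonMangoldt d / d ≤
      N * (Real.log N + 6) := by
    have : N * (Real.log N + 6) = N * Real.log N + 6 * N := by ring
    linarith
  exact le_of_mul_le_mul_left h3 hN'

theorem nt_abel (m : ℕ → ℝ) (g : ℕ → ℝ) (N : ℕ) (hN : 1 ≤ N) :
    ∑ n ∈ Finset.Icc 1 N, m n * g n =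
      (∑ n ∈ Finset.Icc 1 N, m n) * g N -
        ∑ n ∈ Finset.Ico 1 N, (∑ k ∈ Finset.Icc 1 n, m k) * (g (n + 1) - g n) := by
  induction N, hN using Nat.le_induction with
  | base => simp
  | succ N hN ih =>
    rw [Finset.sum_Icc_succ_top (by omega), ih, Finset.sum_Icc_succ_top (by omega),
      Finset.sum_Ico_succ_top hN]
    ring

theorem lam_sq_sum_nat (N : ℕ) (hN : 1 ≤ N) :
    ∑ n ∈ Finset.Icc 1 N, (ArithmeticFunction.vonMangoldt n) ^ 2 / n ≤
      (Real.log N) ^ 2 / 2 + 8 * (Real.log N + 1) := by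
  have hN1 : (1 : ℝ) ≤ N := by exact_mod_cast hN
  have hlogN : 0 ≤ Real.log N := Real.log_nonneg hN1
  have h1 : ∑ n ∈ Finset.Icc 1 N, (ArithmeticFunction.vonMangoldt n) ^ 2 / n ≤
      ∑ n ∈ Finset.Icc 1 N, (ArithmeticFunction.vonMangoldt n / n) * Real.log n := by
    refine Finset.sum_le_sum fun n hn => ?_
    have hn0 : (0 : ℝ) < n := by exact_mod_cast (Finset.mem_Icc.1 hn).1
    have h2 : ArithmeticFunction.vonMangoldt n ≤ Real.log n := ArithmeticFunction.vonMangoldt_le_log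
    have h3 : 0 ≤ ArithmeticFunction.vonMangoldt n := ArithmeticFunction.vonMangoldt_nonneg
    rw [div_mul_eq_mul_div, sq]
    gcongr
  refine h1.trans ?_
  rw [nt_abel (fun n => ArithmeticFunction.vonMangoldt n / n) (fun n => Real.log n) N hN]
  have hup := nt_mertens_upper N hN
  have h2 : (∑ n ∈ Finset.Icc 1 N, ArithmeticFunction.vonMangoldt n / n) * Real.log N ≤
      (Real.log N + 6) * Real.log N := mul_le_mul_of_nonneg_right hup hlogN
  have h3 : (Real.log N) ^ 2 / 2 - 3 / 2 * Real.log N ≤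
      ∑ n ∈ Finset.Ico 1 N, (∑ k ∈ Finset.Icc 1 n, ArithmeticFunction.vonMangoldt k / k) *
        (Real.log ((n + 1 : ℕ) : ℝ) - Real.log n) := by
    have key : ∀ n ∈ Finset.Ico 1 N, ((Real.log ((n + 1 : ℕ) : ℝ)) ^ 2 / 2 -
          3 / 2 * Real.log ((n + 1 : ℕ) : ℝ)) - ((Real.log (n : ℝ)) ^ 2 / 2 - 3 / 2 * Real.log n) ≤
        (∑ k ∈ Finset.Icc 1 n, ArithmeticFunction.vonMangoldt k / k) *
        (Real.log ((n + 1 : ℕ) : ℝ) - Real.log n) := by
      intro n hn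
      have hn1 : 1 ≤ n := (Finset.mem_Ico.1 hn).1
      have hn1' : (1 : ℝ) ≤ n := by exact_mod_cast hn1
      have hlow := nt_mertens_lower n hn1
      have hd0 : 0 ≤ Real.log ((n + 1 : ℕ) : ℝ) - Real.log n := by
        rw [sub_nonneg]; apply Real.log_le_log (by linarith); push_cast; linarith
      have hd1 : Real.log ((n + 1 : ℕ) : ℝ) - Real.log n ≤ 1 := by
        rw [← Real.log_div (by positivity) (by positivity)]
        have := Real.log_le_sub_one_of_pos (x := ((n + 1 : ℕ) : ℝ) / n) (by positivity)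
        have h5 : ((n + 1 : ℕ) : ℝ) / n - 1 = 1 / n := by push_cast; field_simp; ring
        have h6 : (1 : ℝ) / n ≤ 1 := by
          rw [div_le_one (by linarith)]; exact hn1'
        linarith
      have h7 := mul_le_mul_of_nonneg_right hlow hd0
      nlinarith
    have h4 := Finset.sum_le_sum key
    rw [Finset.sum_Ico_sub (fun n : ℕ => (Real.log (n : ℝ)) ^ 2 / 2 - 3 / 2 * Real.log n) hN] at h4
    simpa using h4
  have : (Real.log N + 6) * Real.log N - ((Real.log N) ^ 2 / 2 - 3 / 2 * Real.log N) ≤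
      (Real.log N) ^ 2 / 2 + 8 * (Real.log N + 1) := by nlinarith
  linarith

theorem lam_sq_sum : ∃ C : ℝ, 0 < C ∧ ∀ y : ℝ, 1 ≤ y →
    ∑ n ∈ Finset.Icc 1 ⌊y⌋₊, (ArithmeticFunction.vonMangoldt n) ^ 2 / n ≤
      (Real.log y) ^ 2 / 2 + C * (Real.log y + 1) := by
  refine ⟨8, by norm_num, fun y hy => ?_⟩
  have h1 : 1 ≤ ⌊y⌋₊ := (Nat.one_le_floor_iff y).2 hy
  have h2 := lam_sq_sum_nat ⌊y⌋₊ h1
  have h3 : Real.log (⌊y⌋₊ : ℝ) ≤ Real.log y :=
    Real.log_le_log (by exact_mod_cast h1) (Nat.floor_le (by linarith))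
  have h4 : 0 ≤ Real.log (⌊y⌋₊ : ℝ) := Real.log_nonneg (by exact_mod_cast h1)
  have h5 : (Real.log (⌊y⌋₊ : ℝ)) ^ 2 ≤ (Real.log y) ^ 2 := pow_le_pow_left₀ h4 h3 2
  linarith


theorem nt_summable : Summable (fun n : ℕ => (ArithmeticFunction.vonMangoldt n) ^ 2 / n *
    Real.exp (-(Real.log n) ^ 2 / 8)) := by
  have hs : Summable (fun n : ℕ => (16 * Real.exp 2) * (1 / (n : ℝ) ^ (3 / 2 : ℝ))) :=
    (Real.summable_one_div_nat_rpow.2 (by norm_num)).mul_left _
  refine Summable.of_nonneg_of_le (fun n => by positivity) (fun n => ?_) hs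
  rcases Nat.eq_zero_or_pos n with rfl | hn
  · simp
  have hn0 : (0 : ℝ) < n := by exact_mod_cast hn
  have hn1 : (1 : ℝ) ≤ n := by exact_mod_cast hn
  have hlog0 : 0 ≤ Real.log n := Real.log_nonneg hn1
  have h1 : ArithmeticFunction.vonMangoldt n ≤ Real.log n := ArithmeticFunction.vonMangoldt_le_log
  have h0 : 0 ≤ ArithmeticFunction.vonMangoldt n := ArithmeticFunction.vonMangoldt_nonneg
  have h2 : Real.log n ≤ 4 * (n : ℝ) ^ (1 / 4 : ℝ) := by
    have := Real.log_le_rpow_div hn0.le (ε := 1 / 4) (by norm_num)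
    linarith
  have h3 : (ArithmeticFunction.vonMangoldt n) ^ 2 ≤ 16 * (n : ℝ) ^ (1 / 2 : ℝ) := by
    calc (ArithmeticFunction.vonMangoldt n) ^ 2 ≤ (4 * (n : ℝ) ^ (1 / 4 : ℝ)) ^ 2 :=
          pow_le_pow_left₀ h0 (h1.trans h2) 2
      _ = 16 * ((n : ℝ) ^ (1 / 4 : ℝ)) ^ 2 := by ring
      _ = 16 * (n : ℝ) ^ (1 / 2 : ℝ) := by
          rw [← Real.rpow_natCast, ← Real.rpow_mul hn0.le]; norm_num
  have h4 : Real.exp (-(Real.log n) ^ 2 / 8) ≤ Real.exp 2 / n := by
    have h5 : -(Real.log n) ^ 2 / 8 ≤ 2 - Real.log n := by nlinarith [sq_nonneg (Real.log n - 4)]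
    calc Real.exp (-(Real.log n) ^ 2 / 8) ≤ Real.exp (2 - Real.log n) := Real.exp_le_exp.2 h5
      _ = Real.exp 2 / n := by rw [Real.exp_sub, Real.exp_log hn0]
  calc (ArithmeticFunction.vonMangoldt n) ^ 2 / n * Real.exp (-(Real.log n) ^ 2 / 8)
      ≤ (16 * (n : ℝ) ^ (1 / 2 : ℝ)) / n * (Real.exp 2 / n) := by gcongr
    _ = 16 * Real.exp 2 * (1 / (n : ℝ) ^ (3 / 2 : ℝ)) := by
        have h6 : (n : ℝ) ^ (3 / 2 : ℝ) * (n : ℝ) ^ (1 / 2 : ℝ) = n * n := by
          rw [← Real.rpow_add hn0]; norm_num; ring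
        have h7 : 0 < (n : ℝ) ^ (3 / 2 : ℝ) := by positivity
        field_simp
        rw [mul_comm, h6]; ring

theorem nt_abel_bound (w : ℕ → ℝ) (f : ℝ → ℝ) (C : ℝ) (hC : 0 ≤ C) (hf : AntitoneOn f (Set.Ici 0))
    (hfc : Continuous f) (hf0 : ∀ x, 0 ≤ f x)
    (hS : ∀ N : ℕ, 1 ≤ N → ∑ n ∈ Finset.Icc 1 N, w n ≤ (Real.log N) ^ 2 / 2 + C * (Real.log N + 1))
    (N : ℕ) (hN : 1 ≤ N) :
    ∑ n ∈ Finset.Icc 1 N, w n * f (Real.log n) ≤
      C * f 0 + ∫ s in (0 : ℝ)..(Real.log N), f s * (s + C) := by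
  have hint : ∀ a b : ℝ, IntervalIntegrable (fun s => f s * (s + C)) volume a b := fun a b =>
    (hfc.mul (continuous_id.add continuous_const)).intervalIntegrable a b
  rw [nt_abel w (fun n => f (Real.log n)) N hN]
  have hmono : ∀ n : ℕ, 1 ≤ n → f (Real.log ((n + 1 : ℕ) : ℝ)) ≤ f (Real.log n) := by
    intro n hn
    have hn1 : (1 : ℝ) ≤ n := by exact_mod_cast hn
    have h1 : Real.log n ≤ Real.log ((n + 1 : ℕ) : ℝ) := by
      apply Real.log_le_log (by linarith); push_cast; linarith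
    exact hf (Real.log_nonneg hn1) (le_trans (Real.log_nonneg hn1) h1) h1
  have step1 : (∑ n ∈ Finset.Icc 1 N, w n) * f (Real.log N) -
        ∑ n ∈ Finset.Ico 1 N, (∑ k ∈ Finset.Icc 1 n, w k) *
          (f (Real.log ((n + 1 : ℕ) : ℝ)) - f (Real.log n)) ≤
      ((Real.log N) ^ 2 / 2 + C * (Real.log N + 1)) * f (Real.log N) +
        ∑ n ∈ Finset.Ico 1 N, ((Real.log n) ^ 2 / 2 + C * (Real.log n + 1)) *
          (f (Real.log n) - f (Real.log ((n + 1 : ℕ) : ℝ))) := by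
    have h1 := mul_le_mul_of_nonneg_right (hS N hN) (hf0 (Real.log N))
    have h2 : ∑ n ∈ Finset.Ico 1 N, (∑ k ∈ Finset.Icc 1 n, w k) *
          (f (Real.log n) - f (Real.log ((n + 1 : ℕ) : ℝ))) ≤
        ∑ n ∈ Finset.Ico 1 N, ((Real.log n) ^ 2 / 2 + C * (Real.log n + 1)) *
          (f (Real.log n) - f (Real.log ((n + 1 : ℕ) : ℝ))) := by
      refine Finset.sum_le_sum fun n hn => ?_
      have hn1 := (Finset.mem_Ico.1 hn).1
      exact mul_le_mul_of_nonneg_right (hS n hn1) (sub_nonneg.2 (hmono n hn1))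
    have h3 : ∑ n ∈ Finset.Ico 1 N, (∑ k ∈ Finset.Icc 1 n, w k) *
          (f (Real.log n) - f (Real.log ((n + 1 : ℕ) : ℝ))) =
        - ∑ n ∈ Finset.Ico 1 N, (∑ k ∈ Finset.Icc 1 n, w k) *
          (f (Real.log ((n + 1 : ℕ) : ℝ)) - f (Real.log n)) := by
      rw [← Finset.sum_neg_distrib]
      exact Finset.sum_congr rfl fun n _ => by ring
    linarith
  refine step1.trans ?_
  clear step1
  induction N, hN using Nat.le_induction with
  | base => simp
  | succ N hN ih =>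
    have hN1 : (1 : ℝ) ≤ N := by exact_mod_cast hN
    have hl0 : 0 ≤ Real.log N := Real.log_nonneg hN1
    have hl1 : Real.log N ≤ Real.log ((N + 1 : ℕ) : ℝ) := by
      apply Real.log_le_log (by linarith); push_cast; linarith
    rw [Finset.sum_Ico_succ_top hN,
      ← intervalIntegral.integral_add_adjacent_intervals (hint 0 (Real.log N))
        (hint (Real.log N) (Real.log ((N + 1 : ℕ) : ℝ)))]
    have h4 : ∫ s in (Real.log N)..(Real.log ((N + 1 : ℕ) : ℝ)),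
        f (Real.log ((N + 1 : ℕ) : ℝ)) * (s + C) ≤
        ∫ s in (Real.log N)..(Real.log ((N + 1 : ℕ) : ℝ)), f s * (s + C) := by
      apply intervalIntegral.integral_mono_on hl1
      · exact (continuous_const.mul (continuous_id.add continuous_const)).intervalIntegrable _ _
      · exact hint _ _
      · intro s hs
        apply mul_le_mul_of_nonneg_right _ (by linarith [hs.1])
        exact hf (le_trans hl0 hs.1) (le_trans hl0 hl1) hs.2
    have h5 : ∫ s in (Real.log N)..(Real.log ((N + 1 : ℕ) : ℝ)),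
        f (Real.log ((N + 1 : ℕ) : ℝ)) * (s + C) = f (Real.log ((N + 1 : ℕ) : ℝ)) *
        (((Real.log ((N + 1 : ℕ) : ℝ)) ^ 2 / 2 + C * (Real.log ((N + 1 : ℕ) : ℝ) + 1)) -
          ((Real.log N) ^ 2 / 2 + C * (Real.log N + 1))) := by
      rw [intervalIntegral.integral_const_mul, intervalIntegral.integral_add
        (f := fun s : ℝ => s) (g := fun _ : ℝ => C)
        (continuous_id.intervalIntegrable _ _) (continuous_const.intervalIntegrable _ _),
        integral_id, intervalIntegral.integral_const, smul_eq_mul]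
      ring
    rw [h5] at h4
    linarith

theorem nt_Rf_cont : Continuous Rf := by
  obtain ⟨K, hK, h⟩ := nt_Rf_lip
  exact (LipschitzWith.of_dist_le_mul (K := ⟨K, hK.le⟩) (fun x y => by
    rw [Real.dist_eq, Real.dist_eq]; exact h x y)).continuous

theorem nt_Rf_zero (α : ℝ) (h : 1 < α) : Rf α = 0 := by
  unfold Rf
  rw [if_neg (not_le.2 (h.trans_le (le_abs_self α)))]

theorem nt_Rf_le (α : ℝ) (h : 0 ≤ α) : Rf α ≤ Rf 0 :=
  nt_Rf_antitone (Set.mem_Ici.2 le_rfl) (Set.mem_Ici.2 h) h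

/-- first absolute moment of the Gaussian -/
noncomputable def ntG : ℝ := ∫ v : ℝ, |v| * Real.exp (-v ^ 2)

theorem nt_int0 : Integrable (fun v : ℝ => Real.exp (-v ^ 2)) := by
  have := integrable_exp_neg_mul_sq (b := 1) one_pos
  simpa using this

theorem nt_int1 : Integrable (fun v : ℝ => |v| * Real.exp (-v ^ 2)) := by
  have := (integrable_mul_exp_neg_mul_sq (b := 1) one_pos).abs
  simpa [abs_mul] using this

theorem nt_gauss : ∫ v : ℝ, Real.exp (-v ^ 2) = Real.sqrt Real.pi := by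
  have := integral_gaussian 1
  simpa using this

theorem nt_G_nonneg : 0 ≤ ntG := integral_nonneg fun v => by positivity

theorem nt_In_bound (K : ℝ) (hK : 0 < K) (hlip : ∀ x y, |Rf x - Rf y| ≤ K * |x - y|)
    (Λ ℓ : ℝ) (hΛ : 0 < Λ) :
    ∫ u in (0 : ℝ)..Λ, Rf (u / Λ) * Real.exp (-(u - ℓ) ^ 2) ≤
      Real.sqrt Real.pi * Rf (ℓ / Λ) + K / Λ * ntG := by
  have hi0 : Integrable (fun u : ℝ => Real.exp (-(u - ℓ) ^ 2)) := nt_int0.comp_sub_right ℓ
  have hi1 : Integrable (fun u : ℝ => |u - ℓ| * Real.exp (-(u - ℓ) ^ 2)) :=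
    nt_int1.comp_sub_right ℓ
  have hi : Integrable (fun u : ℝ => Rf (ℓ / Λ) * Real.exp (-(u - ℓ) ^ 2) +
      K / Λ * (|u - ℓ| * Real.exp (-(u - ℓ) ^ 2))) := (hi0.const_mul _).add (hi1.const_mul _)
  have hcont : Continuous (fun u : ℝ => Rf (u / Λ) * Real.exp (-(u - ℓ) ^ 2)) :=
    (nt_Rf_cont.comp (continuous_id.div_const Λ)).mul (by fun_prop)
  calc ∫ u in (0 : ℝ)..Λ, Rf (u / Λ) * Real.exp (-(u - ℓ) ^ 2)
      ≤ ∫ u in (0 : ℝ)..Λ, (Rf (ℓ / Λ) * Real.exp (-(u - ℓ) ^ 2) +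
          K / Λ * (|u - ℓ| * Real.exp (-(u - ℓ) ^ 2))) := by
        apply intervalIntegral.integral_mono_on hΛ.le (hcont.intervalIntegrable _ _)
          hi.intervalIntegrable
        intro u _
        have h1 := (le_abs_self _).trans (hlip (u / Λ) (ℓ / Λ))
        have h2 : |u / Λ - ℓ / Λ| = |u - ℓ| / Λ := by
          rw [← sub_div, abs_div, abs_of_pos hΛ]
        rw [h2] at h1
        have h3 : Rf (u / Λ) ≤ Rf (ℓ / Λ) + K / Λ * |u - ℓ| := by
          have : K * (|u - ℓ| / Λ) = K / Λ * |u - ℓ| := by ring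
          linarith
        calc Rf (u / Λ) * Real.exp (-(u - ℓ) ^ 2)
            ≤ (Rf (ℓ / Λ) + K / Λ * |u - ℓ|) * Real.exp (-(u - ℓ) ^ 2) :=
              mul_le_mul_of_nonneg_right h3 (Real.exp_pos _).le
          _ = _ := by ring
    _ = ∫ u in Set.Ioc (0 : ℝ) Λ, (Rf (ℓ / Λ) * Real.exp (-(u - ℓ) ^ 2) +
          K / Λ * (|u - ℓ| * Real.exp (-(u - ℓ) ^ 2))) := intervalIntegral.integral_of_le hΛ.le
    _ ≤ ∫ u : ℝ, (Rf (ℓ / Λ) * Real.exp (-(u - ℓ) ^ 2) +
          K / Λ * (|u - ℓ| * Real.exp (-(u - ℓ) ^ 2))) := by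
        apply setIntegral_le_integral hi
        refine Filter.Eventually.of_forall fun u => ?_
        have := nt_Rf_nonneg (ℓ / Λ)
        positivity
    _ = Rf (ℓ / Λ) * (∫ u : ℝ, Real.exp (-(u - ℓ) ^ 2)) +
          K / Λ * ∫ u : ℝ, |u - ℓ| * Real.exp (-(u - ℓ) ^ 2) := by
        rw [integral_add (hi0.const_mul _) (hi1.const_mul _), integral_const_mul,
          integral_const_mul]
    _ = Real.sqrt Real.pi * Rf (ℓ / Λ) + K / Λ * ntG := by
        rw [integral_sub_right_eq_self (fun v : ℝ => Real.exp (-v ^ 2)) ℓ,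
          integral_sub_right_eq_self (fun v : ℝ => |v| * Real.exp (-v ^ 2)) ℓ, nt_gauss, ntG]
        ring

theorem nt_In_tail (Λ ℓ : ℝ) (hΛ : 0 < Λ) (hℓ : 2 * Λ ≤ ℓ) :
    ∫ u in (0 : ℝ)..Λ, Rf (u / Λ) * Real.exp (-(u - ℓ) ^ 2) ≤
      Rf 0 * Λ * Real.exp (-ℓ ^ 2 / 8) := by
  have hcont : Continuous (fun u : ℝ => Rf (u / Λ) * Real.exp (-(u - ℓ) ^ 2)) :=
    (nt_Rf_cont.comp (continuous_id.div_const Λ)).mul (by fun_prop)
  calc ∫ u in (0 : ℝ)..Λ, Rf (u / Λ) * Real.exp (-(u - ℓ) ^ 2)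
      ≤ ∫ u in (0 : ℝ)..Λ, Rf 0 * Real.exp (-ℓ ^ 2 / 8) := by
        apply intervalIntegral.integral_mono_on hΛ.le (hcont.intervalIntegrable _ _)
          (continuous_const.intervalIntegrable _ _)
        intro u hu
        have h1 : Rf (u / Λ) ≤ Rf 0 := nt_Rf_le _ (div_nonneg hu.1 hΛ.le)
        have h2 : Real.exp (-(u - ℓ) ^ 2) ≤ Real.exp (-ℓ ^ 2 / 8) := by
          apply Real.exp_le_exp.2
          have h3 : u ≤ ℓ / 2 := by linarith [hu.2]
          have h4 : ℓ / 2 ≤ ℓ - u := by linarith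
          have h5 : 0 ≤ ℓ / 2 := by linarith
          have h6 := mul_self_le_mul_self h5 h4
          nlinarith
        exact mul_le_mul h1 h2 (Real.exp_pos _).le (nt_Rf_nonneg 0)
    _ = Rf 0 * Λ * Real.exp (-ℓ ^ 2 / 8) := by
        rw [intervalIntegral.integral_const, smul_eq_mul]; ring

theorem nt_exp_le (Λ u ℓ : ℝ) (hu0 : 0 ≤ u) (hu : u ≤ Λ) :
    Real.exp (-(u - ℓ) ^ 2) ≤ Real.exp (Λ ^ 2) * Real.exp (-ℓ ^ 2 / 8) := by
  rw [← Real.exp_add]
  apply Real.exp_le_exp.2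
  nlinarith [sq_nonneg (2 * u - ℓ), sq_nonneg ℓ]

theorem nt_int_bound (Λ : ℝ) (hΛ : 0 < Λ) (C : ℝ) (N : ℕ) (hN : 1 ≤ N)
    (hN2 : Real.log N ≤ 2 * Λ) (hC : 0 ≤ C) :
    ∫ s in (0 : ℝ)..(Real.log N), Rf (s / Λ) * (s + C) ≤
      Λ ^ 2 * (∫ α in (0 : ℝ)..1, α * Rf α) + C * Λ * Rf 0 := by
  have hcont : Continuous (fun s : ℝ => Rf (s / Λ) * (s + C)) :=
    (nt_Rf_cont.comp (continuous_id.div_const Λ)).mul (by fun_prop)
  have hlog0 : 0 ≤ Real.log N := Real.log_nonneg (by exact_mod_cast hN)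
  have h1 : ∫ s in (0 : ℝ)..(Real.log N), Rf (s / Λ) * (s + C) ≤
      ∫ s in (0 : ℝ)..(2 * Λ), Rf (s / Λ) * (s + C) := by
    rw [← intervalIntegral.integral_add_adjacent_intervals
      (hcont.intervalIntegrable 0 (Real.log N)) (hcont.intervalIntegrable (Real.log N) (2 * Λ))]
    have : 0 ≤ ∫ s in (Real.log N)..(2 * Λ), Rf (s / Λ) * (s + C) := by
      apply intervalIntegral.integral_nonneg hN2
      intro s hs
      exact mul_nonneg (nt_Rf_nonneg _) (by linarith [hs.1])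
    linarith
  refine h1.trans ?_
  have h2 : ∫ s in (0 : ℝ)..(2 * Λ), Rf (s / Λ) * (s + C) =
      Λ * ∫ α in (0 : ℝ)..2, Rf α * (Λ * α + C) := by
    have h3 := intervalIntegral.integral_comp_div (a := 0) (b := 2 * Λ)
      (fun α : ℝ => Rf α * (Λ * α + C)) hΛ.ne'
    rw [zero_div, mul_div_assoc, div_self hΛ.ne', mul_one, smul_eq_mul] at h3
    rw [← h3]
    refine intervalIntegral.integral_congr fun s _ => ?_
    show Rf (s / Λ) * (s + C) = Rf (s / Λ) * (Λ * (s / Λ) + C)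
    rw [mul_div_cancel₀ _ hΛ.ne']
  rw [h2]
  have hc2 : Continuous (fun α : ℝ => Rf α * (Λ * α + C)) := nt_Rf_cont.mul (by fun_prop)
  have h4 : ∫ α in (1 : ℝ)..2, Rf α * (Λ * α + C) = 0 := by
    rw [intervalIntegral.integral_of_le (by norm_num)]
    rw [setIntegral_congr_fun (g := fun _ => (0 : ℝ)) measurableSet_Ioc]
    · simp
    · intro α hα
      simp only
      rw [nt_Rf_zero α hα.1, zero_mul]
  have h5 : ∫ α in (0 : ℝ)..2, Rf α * (Λ * α + C) = ∫ α in (0 : ℝ)..1, Rf α * (Λ * α + C) := by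
    rw [← intervalIntegral.integral_add_adjacent_intervals
      (hc2.intervalIntegrable 0 1) (hc2.intervalIntegrable 1 2), h4, add_zero]
  have hca : Continuous (fun α : ℝ => α * Rf α) := continuous_id.mul nt_Rf_cont
  have hc3 : Continuous (fun α : ℝ => Λ * (α * Rf α)) := continuous_const.mul hca
  have hc4 : Continuous (fun α : ℝ => Λ * (α * Rf α) + C * Rf 0) := hc3.add continuous_const
  have h6 : ∫ α in (0 : ℝ)..1, Rf α * (Λ * α + C) ≤
      ∫ α in (0 : ℝ)..1, (Λ * (α * Rf α) + C * Rf 0) := by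
    apply intervalIntegral.integral_mono_on (by norm_num) (hc2.intervalIntegrable _ _)
      (hc4.intervalIntegrable _ _)
    intro α hα
    have := mul_le_mul_of_nonneg_left (nt_Rf_le α hα.1) hC
    nlinarith
  have h7 : ∫ α in (0 : ℝ)..1, (Λ * (α * Rf α) + C * Rf 0) =
      Λ * (∫ α in (0 : ℝ)..1, α * Rf α) + C * Rf 0 := by
    rw [intervalIntegral.integral_add (f := fun α : ℝ => Λ * (α * Rf α))
      (g := fun _ : ℝ => C * Rf 0) (hc3.intervalIntegrable _ _)
      (continuous_const.intervalIntegrable _ _), intervalIntegral.integral_const_mul,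
      intervalIntegral.integral_const]
    simp
  rw [h5]
  rw [h7] at h6
  calc Λ * ∫ α in (0 : ℝ)..1, Rf α * (Λ * α + C)
      ≤ Λ * (Λ * (∫ α in (0 : ℝ)..1, α * Rf α) + C * Rf 0) := mul_le_mul_of_nonneg_left h6 hΛ.le
    _ = _ := by ring

/-- smoothed version against `Rf(u/Λ)` -/
theorem lam_sq_smooth : ∃ C : ℝ, 0 < C ∧ ∀ Λ : ℝ, 1 ≤ Λ →
    ∫ u in (0 : ℝ)..Λ, Rf (u / Λ) * ∑' n : ℕ, (ArithmeticFunction.vonMangoldt n) ^ 2 / n *
        Real.exp (-(u - Real.log n) ^ 2) ≤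
      Real.sqrt Real.pi * Λ ^ 2 * (∫ α in (0 : ℝ)..1, α * Rf α) + C * Λ := by
  obtain ⟨K, hK, hlip⟩ := nt_Rf_lip
  set w : ℕ → ℝ := fun n => (ArithmeticFunction.vonMangoldt n) ^ 2 / n with hw
  have hw0 : ∀ n, 0 ≤ w n := fun n => by simp only [hw]; positivity
  have hsm : Summable (fun n : ℕ => w n * Real.exp (-(Real.log n) ^ 2 / 8)) := nt_summable
  set C2 : ℝ := ∑' n : ℕ, w n * Real.exp (-(Real.log n) ^ 2 / 8) with hC2
  have hC20 : 0 ≤ C2 := tsum_nonneg fun n => mul_nonneg (hw0 n) (Real.exp_pos _).le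
  have hR0 : 0 ≤ Rf 0 := nt_Rf_nonneg 0
  have hG0 := nt_G_nonneg
  have hpi0 : 0 ≤ Real.sqrt Real.pi := Real.sqrt_nonneg _
  refine ⟨16 * Real.sqrt Real.pi * Rf 0 + 26 * K * ntG + Rf 0 * C2 + 1, by positivity,
    fun Λ hΛ => ?_⟩
  have hΛ0 : 0 < Λ := by linarith
  -- interchange
  have hsum : HasSum (fun n : ℕ => ∫ u in (0 : ℝ)..Λ, Rf (u / Λ) *
      (w n * Real.exp (-(u - Real.log n) ^ 2)))
      (∫ u in (0 : ℝ)..Λ, Rf (u / Λ) * ∑' n : ℕ, w n * Real.exp (-(u - Real.log n) ^ 2)) := by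
    apply intervalIntegral.hasSum_integral_of_dominated_convergence
      (bound := fun n _ => Rf 0 * Real.exp (Λ ^ 2) * (w n * Real.exp (-(Real.log n) ^ 2 / 8)))
    · intro n
      apply Continuous.aestronglyMeasurable
      exact (nt_Rf_cont.comp (continuous_id.div_const Λ)).mul (by fun_prop)
    · intro n
      refine Filter.Eventually.of_forall fun u hu => ?_
      rw [Set.uIoc_of_le hΛ0.le] at hu
      have h1 : Rf (u / Λ) ≤ Rf 0 := nt_Rf_le _ (div_nonneg hu.1.le hΛ0.le)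
      have h2 := nt_exp_le Λ u (Real.log n) hu.1.le hu.2
      rw [Real.norm_of_nonneg (mul_nonneg (nt_Rf_nonneg _) (mul_nonneg (hw0 n) (Real.exp_pos _).le))]
      calc Rf (u / Λ) * (w n * Real.exp (-(u - Real.log n) ^ 2))
          ≤ Rf 0 * (w n * (Real.exp (Λ ^ 2) * Real.exp (-(Real.log n) ^ 2 / 8))) := by
            apply mul_le_mul h1 (mul_le_mul_of_nonneg_left h2 (hw0 n))
              (mul_nonneg (hw0 n) (Real.exp_pos _).le) hR0
        _ = _ := by ring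
    · exact Filter.Eventually.of_forall fun u _ => hsm.mul_left _
    · exact continuous_const.intervalIntegrable _ _
    · refine Filter.Eventually.of_forall fun u hu => ?_
      rw [Set.uIoc_of_le hΛ0.le] at hu
      apply HasSum.mul_left
      apply Summable.hasSum
      refine Summable.of_nonneg_of_le (fun n => mul_nonneg (hw0 n) (Real.exp_pos _).le)
        (fun n => ?_) (hsm.mul_left (Real.exp (Λ ^ 2)))
      have h2 := nt_exp_le Λ u (Real.log n) hu.1.le hu.2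
      calc w n * Real.exp (-(u - Real.log n) ^ 2)
          ≤ w n * (Real.exp (Λ ^ 2) * Real.exp (-(Real.log n) ^ 2 / 8)) :=
            mul_le_mul_of_nonneg_left h2 (hw0 n)
        _ = _ := by ring
  set N : ℕ := ⌊Real.exp (2 * Λ)⌋₊ with hNdef
  have hN : 1 ≤ N := by
    rw [hNdef, Nat.one_le_floor_iff]
    exact Real.one_le_exp (by linarith)
  have hNlog : Real.log N ≤ 2 * Λ := by
    rw [Real.log_le_iff_le_exp (by exact_mod_cast hN)]
    exact Nat.floor_le (Real.exp_pos _).le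
  -- termwise bound
  have hterm : ∀ n : ℕ, ∫ u in (0 : ℝ)..Λ, Rf (u / Λ) *
      (w n * Real.exp (-(u - Real.log n) ^ 2)) ≤
      (if n ∈ Finset.Icc 1 N then
        w n * (Real.sqrt Real.pi * Rf (Real.log n / Λ) + K / Λ * ntG) else 0) +
      Rf 0 * Λ * (w n * Real.exp (-(Real.log n) ^ 2 / 8)) := by
    intro n
    have h1 : ∫ u in (0 : ℝ)..Λ, Rf (u / Λ) * (w n * Real.exp (-(u - Real.log n) ^ 2)) =
        w n * ∫ u in (0 : ℝ)..Λ, Rf (u / Λ) * Real.exp (-(u - Real.log n) ^ 2) := by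
      rw [← intervalIntegral.integral_const_mul]
      exact intervalIntegral.integral_congr fun u _ => by ring
    rw [h1]
    have hB : 0 ≤ Rf 0 * Λ * (w n * Real.exp (-(Real.log n) ^ 2 / 8)) :=
      mul_nonneg (mul_nonneg hR0 hΛ0.le) (mul_nonneg (hw0 n) (Real.exp_pos _).le)
    split_ifs with hn
    · have h2 := mul_le_mul_of_nonneg_left (nt_In_bound K hK hlip Λ (Real.log n) hΛ0) (hw0 n)
      linarith
    · rcases Nat.eq_zero_or_pos n with rfl | hn0
      · have : w 0 = 0 := by simp [hw]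
        rw [this]; simp
      · have hnN : N < n := by
          by_contra hc
          exact hn (Finset.mem_Icc.2 ⟨hn0, not_lt.1 hc⟩)
        have h3 : Real.exp (2 * Λ) < n := Nat.lt_of_floor_lt hnN
        have h4 : 2 * Λ ≤ Real.log n := by
          rw [Real.le_log_iff_exp_le (by exact_mod_cast hn0)]
          exact h3.le
        have h2 := mul_le_mul_of_nonneg_left (nt_In_tail Λ (Real.log n) hΛ0 h4) (hw0 n)
        rw [zero_add]
        calc _ ≤ _ := h2
          _ = _ := by ring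
  have hA : HasSum (fun n : ℕ => if n ∈ Finset.Icc 1 N then
        w n * (Real.sqrt Real.pi * Rf (Real.log n / Λ) + K / Λ * ntG) else 0)
      (∑ n ∈ Finset.Icc 1 N, w n * (Real.sqrt Real.pi * Rf (Real.log n / Λ) + K / Λ * ntG)) := by
    have h : HasSum (fun n : ℕ => if n ∈ Finset.Icc 1 N then
        w n * (Real.sqrt Real.pi * Rf (Real.log n / Λ) + K / Λ * ntG) else 0)
        (∑ n ∈ Finset.Icc 1 N, if n ∈ Finset.Icc 1 N then
        w n * (Real.sqrt Real.pi * Rf (Real.log n / Λ) + K / Λ * ntG) else 0) :=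
      hasSum_sum_of_ne_finset_zero (fun n hn => if_neg hn)
    rw [Finset.sum_congr rfl (fun n hn => if_pos hn)] at h
    exact h
  have hB : HasSum (fun n : ℕ => Rf 0 * Λ * (w n * Real.exp (-(Real.log n) ^ 2 / 8)))
      (Rf 0 * Λ * C2) := hsm.hasSum.mul_left _
  have hle := hasSum_le hterm hsum (hA.add hB)
  refine hle.trans ?_
  -- main term
  have hsplit : ∑ n ∈ Finset.Icc 1 N, w n * (Real.sqrt Real.pi * Rf (Real.log n / Λ) +
      K / Λ * ntG) = Real.sqrt Real.pi * ∑ n ∈ Finset.Icc 1 N, w n * Rf (Real.log n / Λ) +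
      K / Λ * ntG * ∑ n ∈ Finset.Icc 1 N, w n := by
    rw [Finset.mul_sum, Finset.mul_sum, ← Finset.sum_add_distrib]
    exact Finset.sum_congr rfl fun n _ => by ring
  have habel := nt_abel_bound w (fun s => Rf (s / Λ)) 8 (by norm_num)
    (fun x hx y hy hxy => nt_Rf_antitone (Set.mem_Ici.2 (div_nonneg hx hΛ0.le))
      (Set.mem_Ici.2 (div_nonneg hy hΛ0.le)) (div_le_div_of_nonneg_right hxy hΛ0.le))
    (nt_Rf_cont.comp (continuous_id.div_const Λ)) (fun x => nt_Rf_nonneg _)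
    (fun M hM => lam_sq_sum_nat M hM) N hN
  simp only [zero_div] at habel
  have hint := nt_int_bound Λ hΛ0 8 N hN hNlog (by norm_num)
  have hS : ∑ n ∈ Finset.Icc 1 N, w n ≤ 26 * Λ ^ 2 := by
    have h1 := lam_sq_sum_nat N hN
    have h2 : 0 ≤ Real.log N := Real.log_nonneg (by exact_mod_cast hN)
    have h3 : (Real.log N) ^ 2 ≤ (2 * Λ) ^ 2 := pow_le_pow_left₀ h2 hNlog 2
    simp only [hw]
    nlinarith
  have hKL : K / Λ * ntG * ∑ n ∈ Finset.Icc 1 N, w n ≤ 26 * K * ntG * Λ := by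
    calc K / Λ * ntG * ∑ n ∈ Finset.Icc 1 N, w n ≤ K / Λ * ntG * (26 * Λ ^ 2) :=
          mul_le_mul_of_nonneg_left hS (by positivity)
      _ = 26 * K * ntG * Λ := by field_simp
  have hmain : Real.sqrt Real.pi * ∑ n ∈ Finset.Icc 1 N, w n * Rf (Real.log n / Λ) ≤
      Real.sqrt Real.pi * (8 * Rf 0 + (Λ ^ 2 * (∫ α in (0 : ℝ)..1, α * Rf α) + 8 * Λ * Rf 0)) :=
    mul_le_mul_of_nonneg_left (by linarith) hpi0
  rw [hsplit]
  have h8 : Real.sqrt Real.pi * (8 * Rf 0) ≤ Real.sqrt Real.pi * (8 * Rf 0) * Λ :=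
    le_mul_of_one_le_right (by positivity) hΛ
  nlinarith

end H370
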