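import Pool.Agent.H370R2.Dyadic

open Complex Filter Topology Set MeasureTheory
open scoped BigOperators ComplexConjugate

namespace H370

lemma cMTinv_gt_one : 1 < cMTinv := by
  unfold cMTinv
  have hs := GramAux.sin_half_pos
  have hc := GramAux.cos_half_pos
  have hx : (1 / Real.sqrt 2) ^ 2 = 1 / 2 := by
    rw [div_pow, Real.sq_sqrt (by norm_num)]; norm_num
  have h1 := Real.one_sub_sq_div_two_le_cos (x := 1 / Real.sqrt 2)
  have h2 := Real.sin_le GramAux.half_pos.le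
  rw [hx] at h1
  have h0 := GramAux.half_pos
  rw [Real.cot_eq_cos_div_sin]
  have h3 : 1 / 2 < Real.cos (1 / Real.sqrt 2) / Real.sin (1 / Real.sqrt 2) / Real.sqrt 2 := by
    have e : Real.cos (1 / Real.sqrt 2) / Real.sin (1 / Real.sqrt 2) / Real.sqrt 2 =
      (1 / Real.sqrt 2) * Real.cos (1 / Real.sqrt 2) / Real.sin (1 / Real.sqrt 2) := by ring
    rw [e, lt_div_iff₀ hs]
    nlinarith
  linarith

/-- number of zeros to the right of the critical line, with multiplicity -/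
noncomputable def NR (F : ℂ → ℂ) (T1 T2 : ℝ) : ℕ :=
  ∑ᶠ s ∈ {s : ℂ | s ∈ zset F T1 T2 ∧ 1 / 2 < s.re}, mult F s

lemma NR_eq {F : ℂ → ℂ} (hF : GoodL F) {a b : ℝ} (h : 1 ≤ a) :
    NR F a b = ∑ s ∈ Zf F a b, (if 1 / 2 < s.re then mult F s else 0) := by
  classical
  unfold NR
  have hset : {s : ℂ | s ∈ zset F a b ∧ 1 / 2 < s.re} =
      ((Zf F a b).filter (fun s => 1 / 2 < s.re) : Set ℂ) := by
    ext s
    simp only [Set.mem_ofPred_eq, Finset.coe_filter, mem_Zf hF h]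
  rw [hset, finsum_mem_coe_finset, Finset.sum_filter]

lemma NR_split {F : ℂ → ℂ} (hF : GoodL F) {a b : ℝ} (h : 1 ≤ a) :
    2 * NR F a b + Ns F a b ≤ NN F a b := by
  classical
  have h1 := NR_eq hF (b := b) h
  have h2 : NR F a b = ∑ s ∈ Zf F a b, (if s.re < 1 / 2 then mult F s else 0) := by
    rw [h1, ← sum_refl hF h (fun s => if 1 / 2 < s.re then mult F s else 0)]
    refine Finset.sum_congr rfl fun s hs => ?_
    have hs' := (mem_Zf hF h).mp hs
    have e1 : (1 - conj s).re = 1 - s.re := by simp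
    rw [e1, mult_refl hF hs'.1 hs'.2.1 (by linarith [hs'.2.2.1])]
    by_cases hh : s.re < 1 / 2
    · rw [if_pos hh, if_pos (by linarith)]
    · rw [if_neg hh, if_neg (by linarith)]
  have h3 : Ns F a b = ∑ s ∈ Zf F a b, (if s.re = 1 / 2 ∧ mult F s = 1 then 1 else 0) := by
    rw [Ns_card hF h, Finset.card_eq_sum_ones, sum_SF, Finset.sum_filter]
  rw [two_mul]
  nth_rewrite 1 [h1]
  rw [h2, h3, NN_eq hF h, ← Finset.sum_add_distrib, ← Finset.sum_add_distrib]
  refine Finset.sum_le_sum fun s _ => ?_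
  rcases lt_trichotomy s.re (1 / 2) with hh | hh | hh
  · rw [if_neg (by linarith), if_pos hh, if_neg (fun hx => hh.ne hx.1)]
    omega
  · rw [if_neg (by linarith), if_neg (by linarith)]
    by_cases hm : mult F s = 1
    · rw [if_pos ⟨hh, hm⟩, hm]
    · rw [if_neg (fun hx => hm hx.2)]; simp
  · rw [if_pos hh, if_neg (by linarith), if_neg (fun hx => hh.ne' hx.1)]
    omega

/-- the proportion of zeros to the right of the line -/
theorem right_zeros {F : ℂ → ℂ} (hF : GoodL F) (hfin : ∀ T : ℝ, (zset F 0 T).Finite)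
    (c c' T0 : ℝ) (hc : 0 ≤ c') (hcc : c' < c) (hc1 : c ≤ 1)
    (h : ∀ T : ℝ, T0 ≤ T → c * (NN F T (2 * T) : ℝ) ≤ (Ns F T (2 * T) : ℝ)) :
    ∃ X0 : ℝ, ∀ X : ℝ, X0 ≤ X → 2 * (NR F 0 X : ℝ) ≤ (1 - c') * (NN F 0 X : ℝ) := by
  obtain ⟨A, C, hA, hX⟩ := dyadic_gen hF (fun a b => Ns F a b)
    (fun a b c h1 h2 h3 => Ns_add hF h1 h2 h3) c T0 (hc.trans hcc.le) h
  have hset : ∀ X : ℝ, A ≤ X → zset F 0 X = zset F 0 A ∪ zset F A X := by
    intro X hAX
    ext s
    simp only [zset, Set.mem_ofPred_eq, Set.mem_union]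
    constructor
    · rintro ⟨a1, a2, a3, a4, a5⟩
      rcases le_or_gt s.im A with h1 | h1
      · exact Or.inl ⟨a1, a2, a3, h1, a5⟩
      · exact Or.inr ⟨a1, a2, h1, a4, a5⟩
    · rintro (⟨a1, a2, a3, a4, a5⟩ | ⟨a1, a2, a3, a4, a5⟩)
      · exact ⟨a1, a2, a3, a4.trans hAX, a5⟩
      · exact ⟨a1, a2, by linarith, a4, a5⟩
  have hdisj : ∀ X : ℝ, Disjoint (zset F 0 A) (zset F A X) := by
    intro X
    rw [Set.disjoint_left]
    rintro s ⟨a1, a2, a3, a4, a5⟩ ⟨b1, b2, b3, b4, b5⟩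
    linarith
  have hNNadd : ∀ X : ℝ, A ≤ X → NN F 0 X = NN F 0 A + NN F A X := by
    intro X hAX
    unfold NN
    rw [hset X hAX, finsum_mem_union (hdisj X) (hfin A) (zset_finite hF A X hA)]
  have hNRadd : ∀ X : ℝ, A ≤ X → NR F 0 X = NR F 0 A + NR F A X := by
    intro X hAX
    unfold NR
    have e : {s : ℂ | s ∈ zset F 0 X ∧ 1 / 2 < s.re} =
        {s : ℂ | s ∈ zset F 0 A ∧ 1 / 2 < s.re} ∪ {s : ℂ | s ∈ zset F A X ∧ 1 / 2 < s.re} := by
      rw [hset X hAX]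
      ext s
      simp only [Set.mem_ofPred_eq, Set.mem_union]
      tauto
    rw [e, finsum_mem_union]
    · exact (hdisj X).mono (fun s hs => hs.1) (fun s hs => hs.1)
    · exact (hfin A).subset fun s hs => hs.1
    · exact (zset_finite hF A X hA).subset fun s hs => hs.1
  have htend := NN_tendsto hF
  set B : ℝ := (C + 2 * (NR F 0 A : ℝ)) / (c - c') with hB
  have h1 : ∀ᶠ T : ℝ in atTop, B ≤ (NN F T (2 * T) : ℝ) := htend.eventually_ge_atTop B
  obtain ⟨T1, hT1⟩ := h1.exists_forall_of_atTop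
  refine ⟨2 * max A T1, fun X hXX => ?_⟩
  have hAX : A ≤ X / 2 := by linarith [le_max_left A T1]
  have hTX : T1 ≤ X / 2 := by linarith [le_max_right A T1]
  have h2 := hT1 (X / 2) hTX
  rw [show 2 * (X / 2) = X by ring] at h2
  have h3 : NN F (X / 2) X ≤ NN F A X := NN_mono hF hA hAX le_rfl
  have h4 : (NN F (X / 2) X : ℝ) ≤ NN F A X := by exact_mod_cast h3
  have h5 := hX X (by linarith)
  have h6 : (2 : ℝ) * NR F A X + Ns F A X ≤ NN F A X := by
    exact_mod_cast NR_split hF hA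
  rw [hNNadd X (by linarith), hNRadd X (by linarith)]
  push_cast
  have hBp : B ≤ (NN F A X : ℝ) := h2.trans h4
  rw [hB, div_le_iff₀ (by linarith)] at hBp
  have h7 : (0 : ℝ) ≤ NN F 0 A := Nat.cast_nonneg _
  have h8 : 0 ≤ (1 - c') * (NN F 0 A : ℝ) := mul_nonneg (by linarith) h7
  nlinarith

end H370
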