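import Pool.Agent.H370R2.Fin4

open Complex Filter Topology Set MeasureTheory

namespace H370

/-- the main theorem, with a gain `δ` that does not depend on the L-function -/
theorem main_uniform : ∃ δ : ℝ, 0 < δ ∧ ∀ F : ℂ → ℂ, GoodL F → ∃ T0 : ℝ, ∀ T : ℝ, T0 ≤ T →
      (2 - cMTinv + δ) * (NN F T (2 * T) : ℝ) ≤ (Ns F T (2 * T) : ℝ) ∧
      ((3 - cMTinv) / 2 + δ) * (NN F T (2 * T) : ℝ) ≤ (Nd F T (2 * T) : ℝ) := by
  obtain ⟨κ, h1, h2, h3⟩ := yhyp_triples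
  refine ⟨κ / 4, by linarith, fun F hF => ?_⟩
  obtain ⟨T0, hT0⟩ := main_of_Y hF (1 / 2) κ (κ / 2) h2 (by linarith) (by linarith)
    (by linarith [cMTinv_lt]) h3
  refine ⟨T0, fun T hT => ?_⟩
  obtain ⟨a, b⟩ := hT0 T hT
  have hNN : (0 : ℝ) ≤ NN F T (2 * T) := Nat.cast_nonneg _
  constructor
  · nlinarith
  · refine le_trans (le_of_eq ?_) b
    ring

/-- finiteness of the zeros in a compact part of the open upper half plane -/
theorem zset_finite' {F : ℂ → ℂ} (hF : GoodL F) (T1 T2 : ℝ) (h : 0 < T1) :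
    (zset F T1 T2).Finite := by
  by_contra hinf
  have hinf : (zset F T1 T2).Infinite := hinf
  have hcomp : IsCompact (Icc (0 : ℝ) 1 ×ℂ Icc T1 T2) := isCompact_Icc.reProdIm isCompact_Icc
  have hsub : zset F T1 T2 ⊆ Icc (0 : ℝ) 1 ×ℂ Icc T1 T2 := by
    rintro s ⟨h1, h2, h3, h4, -⟩
    exact ⟨⟨h1.le, h2.le⟩, ⟨h3.le, h4⟩⟩
  obtain ⟨x, hx, hacc⟩ := hinf.exists_accPt_of_subset_isCompact hcomp hsub
  have hU : IsPreconnected {s : ℂ | 0 < s.im} := (convex_halfSpace_im_gt 0).isPreconnected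
  have hxU : x ∈ {s : ℂ | 0 < s.im} := by
    have : T1 ≤ x.im := hx.2.1
    simp only [Set.mem_ofPred_eq]; linarith
  have hfreq : ∃ᶠ z in 𝓝[≠] x, F z = 0 := by
    rw [accPt_iff_frequently_nhdsNE] at hacc
    exact hacc.mono fun z hz => hz.2.2.2.2
  have hz := AnalyticOnNhd.eqOn_zero_of_preconnected_of_frequently_eq_zero
    (f := F) (U := {s : ℂ | 0 < s.im}) (fun s hs => hF.an s hs) hU hxU hfreq
  have h2 : F ⟨2, 1⟩ = 0 := hz (by simp only [Set.mem_ofPred_eq]; norm_num)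
  obtain ⟨c, hc, hl⟩ := hF.lower
  have h3 := hl 1 le_rfl
  rw [h2, norm_zero] at h3
  linarith

/-- from a bound for all large `T` to the form with `o(T)` for all `T > 0` -/
theorem exists_small_o (c : ℝ) (A B : ℝ → ℝ) (hA : ∀ T, 0 ≤ A T)
    (h : ∃ T0 : ℝ, ∀ T : ℝ, T0 ≤ T → c * B T ≤ A T) :
    ∃ o : ℝ → ℝ, Tendsto o atTop (𝓝 0) ∧ ∀ T : ℝ, 0 < T → (c - o T) * B T ≤ A T := by
  obtain ⟨T0, hT0⟩ := h
  refine ⟨fun T => if T0 ≤ T then 0 else c, ?_, ?_⟩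
  · refine tendsto_const_nhds.congr' ?_
    filter_upwards [eventually_ge_atTop T0] with T hT
    rw [if_pos hT]
  · intro T _
    by_cases hT : T0 ≤ T
    · simp only [if_pos hT, sub_zero]
      exact hT0 T hT
    · simp only [if_neg hT, sub_self, zero_mul]
      exact hA T

theorem cMTinv_eq : (Real.sqrt 2 * Real.tan (1 / Real.sqrt 2) /
    (1 + Real.tan (1 / Real.sqrt 2) / Real.sqrt 2))⁻¹ = cMTinv := by
  have h2 : (0 : ℝ) < Real.sqrt 2 := by positivity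
  have h1 : 0 < Real.tan (1 / Real.sqrt 2) :=
    Real.tan_pos_of_pos_of_lt_pi_div_two GramAux.half_pos GramAux.half_lt
  have hc : Real.cot (1 / Real.sqrt 2) = (Real.tan (1 / Real.sqrt 2))⁻¹ := by
    rw [Real.cot_eq_cos_div_sin, Real.tan_eq_sin_div_cos, inv_div]
  unfold cMTinv
  rw [hc]
  set t := Real.tan (1 / Real.sqrt 2)
  have hs : Real.sqrt 2 ^ 2 = 2 := Real.sq_sqrt (by norm_num)
  field_simp
  linear_combination (-t) * hs

end H370
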