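import Pool.Agent.H370R2.Final
import Pool.Agent.H370R2.DirGood

open Complex Filter Topology Set MeasureTheory

namespace H370

/-- finiteness of the zeros of `F` in a compact set when the only possible singularity is `1` -/
theorem finite_zeros_compact {F : ℂ → ℂ} (hF : ∀ s : ℂ, s ≠ 1 → AnalyticAt ℂ F s)
    (h2 : F 2 ≠ 0) (h1 : ∀ᶠ s in 𝓝[≠] (1 : ℂ), F s ≠ 0) {K : Set ℂ} (hK : IsCompact K) :
    {s : ℂ | s ∈ K ∧ F s = 0}.Finite := by
  by_contra hinf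
  have hinf : {s : ℂ | s ∈ K ∧ F s = 0}.Infinite := hinf
  obtain ⟨x, hx, hacc⟩ := hinf.exists_accPt_of_subset_isCompact hK (fun s hs => hs.1)
  have hfreq : ∃ᶠ z in 𝓝[≠] x, F z = 0 := by
    rw [accPt_iff_frequently_nhdsNE] at hacc
    exact hacc.mono fun z hz => hz.2
  by_cases hx1 : x = 1
  · subst hx1
    exact hfreq h1
  · have hU : IsPreconnected ({1}ᶜ : Set ℂ) :=
      (isConnected_compl_singleton_of_one_lt_rank (by simp) (1 : ℂ)).isPreconnected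
    have hz := AnalyticOnNhd.eqOn_zero_of_preconnected_of_frequently_eq_zero
      (f := F) (U := ({1}ᶜ : Set ℂ)) (fun s hs => hF s hs) hU hx1 hfreq
    exact h2 (hz (by simp))

theorem zset_zero_finite {F : ℂ → ℂ} (hF : ∀ s : ℂ, s ≠ 1 → AnalyticAt ℂ F s)
    (h2 : F 2 ≠ 0) (h1 : ∀ᶠ s in 𝓝[≠] (1 : ℂ), F s ≠ 0) (T : ℝ) : (zset F 0 T).Finite := by
  have hcomp : IsCompact (Icc (0 : ℝ) 1 ×ℂ Icc 0 T) := isCompact_Icc.reProdIm isCompact_Icc
  refine (finite_zeros_compact hF h2 h1 hcomp).subset ?_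
  rintro s ⟨a1, a2, a3, a4, a5⟩
  exact ⟨⟨⟨a1.le, a2.le⟩, ⟨a3.le, a4⟩⟩, a5⟩

theorem zeta_zeros_finite (T : ℝ) : (zset riemannZeta 0 T).Finite := by
  refine zset_zero_finite (fun s hs => ?_) (riemannZeta_ne_zero_of_one_le_re (by simp)) ?_ T
  · have : DifferentiableOn ℂ riemannZeta ({1}ᶜ : Set ℂ) := fun z hz =>
      (differentiableAt_riemannZeta hz).differentiableWithinAt
    exact this.analyticAt (isOpen_compl_singleton.mem_nhds hs)
  · have h := riemannZeta_residue_one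
    have h3 := h.eventually_ne (one_ne_zero : (1 : ℂ) ≠ 0)
    filter_upwards [h3] with s hs h0
    rw [h0, mul_zero] at hs
    exact hs rfl

theorem Ns_add {F : ℂ → ℂ} (hF : GoodL F) {a b c : ℝ} (h : 1 ≤ a) (hab : a ≤ b)
    (hbc : b ≤ c) : Ns F a c = Ns F a b + Ns F b c := by
  unfold Ns
  rw [← Set.ncard_union_eq ?_ ((zset_finite hF a b h).subset fun s hs => hs.1)
    ((zset_finite hF b c (h.trans hab)).subset fun s hs => hs.1)]
  · congr 1
    ext s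
    simp only [zset, Set.mem_ofPred_eq, Set.mem_union]
    constructor
    · rintro ⟨⟨a1, a2, a3, a4, a5⟩, a6, a7⟩
      rcases le_or_gt s.im b with h1 | h1
      · exact Or.inl ⟨⟨a1, a2, a3, h1, a5⟩, a6, a7⟩
      · exact Or.inr ⟨⟨a1, a2, h1, a4, a5⟩, a6, a7⟩
    · rintro (⟨⟨a1, a2, a3, a4, a5⟩, a6, a7⟩ | ⟨⟨a1, a2, a3, a4, a5⟩, a6, a7⟩)
      · exact ⟨⟨a1, a2, a3, a4.trans hbc, a5⟩, a6, a7⟩
      · exact ⟨⟨a1, a2, hab.trans_lt a3, a4, a5⟩, a6, a7⟩
  · rw [Set.disjoint_left]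
    rintro s ⟨⟨a1, a2, a3, a4, a5⟩, a6, a7⟩ ⟨⟨b1, b2, b3, b4, b5⟩, b6, b7⟩
    linarith

theorem Nd_add {F : ℂ → ℂ} (hF : GoodL F) {a b c : ℝ} (h : 1 ≤ a) (hab : a ≤ b)
    (hbc : b ≤ c) : Nd F a c = Nd F a b + Nd F b c := by
  unfold Nd
  rw [← Set.ncard_union_eq ?_ (zset_finite hF a b h) (zset_finite hF b c (h.trans hab))]
  · congr 1
    ext s
    simp only [zset, Set.mem_ofPred_eq, Set.mem_union]
    constructor
    · rintro ⟨a1, a2, a3, a4, a5⟩
      rcases le_or_gt s.im b with h1 | h1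
      · exact Or.inl ⟨a1, a2, a3, h1, a5⟩
      · exact Or.inr ⟨a1, a2, h1, a4, a5⟩
    · rintro (⟨a1, a2, a3, a4, a5⟩ | ⟨a1, a2, a3, a4, a5⟩)
      · exact ⟨a1, a2, a3, a4.trans hbc, a5⟩
      · exact ⟨a1, a2, hab.trans_lt a3, a4, a5⟩
  · rw [Set.disjoint_left]
    rintro s ⟨a1, a2, a3, a4, a5⟩ ⟨b1, b2, b3, b4, b5⟩
    linarith

/-- dyadic summation -/
theorem dyadic_gen {F : ℂ → ℂ} (hF : GoodL F) (P : ℝ → ℝ → ℕ)
    (hadd : ∀ a b c : ℝ, 1 ≤ a → a ≤ b → b ≤ c → P a c = P a b + P b c)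
    (c T0 : ℝ) (hc : 0 ≤ c)
    (h : ∀ T : ℝ, T0 ≤ T → c * (NN F T (2 * T) : ℝ) ≤ (P T (2 * T) : ℝ)) :
    ∃ A C : ℝ, 1 ≤ A ∧ ∀ X : ℝ, A ≤ X → c * (NN F A X : ℝ) - C ≤ (P A X : ℝ) := by
  set A : ℝ := max T0 10 with hA
  have hA10 : 10 ≤ A := le_max_right _ _
  have hAT : T0 ≤ A := le_max_left _ _
  have key : ∀ k : ℕ, ∀ T : ℝ, A ≤ T → c * (NN F T (2 ^ k * T) : ℝ) ≤ (P T (2 ^ k * T) : ℝ) := by
    intro k
    induction k with
    | zero =>
      intro T hT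
      have h1 : NN F T (2 ^ 0 * T) = 0 := by
        have h2 : NN F T T = NN F T T + NN F T T :=
          NN_add hF (by linarith) le_rfl le_rfl
        rw [pow_zero, one_mul]; omega
      rw [h1]
      simp
    | succ k ih =>
      intro T hT
      have hT0 : 0 ≤ T := by linarith
      have hle : T ≤ 2 ^ k * T := by
        have : (1 : ℝ) ≤ 2 ^ k := one_le_pow₀ (by norm_num)
        nlinarith
      have e : (2 : ℝ) ^ (k + 1) * T = 2 * (2 ^ k * T) := by ring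
      have h3 := NN_add hF (show (1 : ℝ) ≤ T by linarith) hle
        (show 2 ^ k * T ≤ 2 * (2 ^ k * T) by linarith)
      have h4 := hadd T (2 ^ k * T) (2 * (2 ^ k * T)) (by linarith) hle (by linarith)
      rw [e, h3, h4]
      push_cast
      have h5 := ih T hT
      have h6 := h (2 ^ k * T) (by linarith)
      linarith
  refine ⟨A, c * (NN F A (2 * A) : ℝ), by linarith, fun X hX => ?_⟩
  -- choose k with 2^k A ≤ X < 2^(k+1) A
  have hApos : 0 < A := by linarith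
  obtain ⟨k, hk1, hk2⟩ := exists_nat_pow_near (x := X / A) (y := 2)
    (by rw [le_div_iff₀ hApos]; linarith) (by norm_num)
  have hp : (0 : ℝ) < 2 ^ k := by positivity
  set T : ℝ := X / 2 ^ k with hT
  have hXT : X = 2 ^ k * T := by rw [hT]; field_simp
  have hAT1 : A ≤ T := by
    rw [hT, le_div_iff₀ hp, mul_comm]
    rwa [le_div_iff₀ hApos] at hk1
  have hT2A : T ≤ 2 * A := by
    rw [hT, div_le_iff₀ hp]
    rw [div_lt_iff₀ hApos, pow_succ] at hk2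
    nlinarith
  have hTX : T ≤ X := by
    rw [hXT]
    have : (1 : ℝ) ≤ 2 ^ k := one_le_pow₀ (by norm_num)
    nlinarith
  have h7 := key k T hAT1
  rw [← hXT] at h7
  have h8 := NN_add hF (show (1 : ℝ) ≤ A by linarith) hAT1 hTX
  have h9 := hadd A T X (by linarith) hAT1 hTX
  have h10 : NN F A T ≤ NN F A (2 * A) := NN_mono hF (by linarith) le_rfl hT2A
  have h11 : (NN F A T : ℝ) ≤ NN F A (2 * A) := by exact_mod_cast h10
  rw [h8, h9]
  push_cast
  have h12 : c * (NN F A T : ℝ) ≤ c * (NN F A (2 * A) : ℝ) := mul_le_mul_of_nonneg_left h11 hc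
  have h13 : (0 : ℝ) ≤ P A T := Nat.cast_nonneg _
  linarith

theorem NN_tendsto {F : ℂ → ℂ} (hF : GoodL F) :
    Tendsto (fun T : ℝ => (NN F T (2 * T) : ℝ)) atTop atTop := by
  obtain ⟨C, T0, hC, hT0, h⟩ := nn_asymp hF
  have h1 : ∀ᶠ T : ℝ in atTop, T ≤ (NN F T (2 * T) : ℝ) := by
    have h2 : ∀ᶠ T : ℝ in atTop, (C + 1) * (2 * Real.pi) ≤ Real.log T :=
      Real.tendsto_log_atTop.eventually_ge_atTop _
    filter_upwards [h2, eventually_ge_atTop T0] with T hT hTT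
    have h3 := h T hTT T (2 * T) le_rfl (by linarith) (by linarith) le_rfl
    have h4 := (abs_le.mp h3).1
    have hTp : 0 < T := by linarith
    have h5 : (C + 1) * T ≤ T * Real.log T / (2 * Real.pi) := by
      rw [le_div_iff₀ (by positivity)]
      nlinarith
    linarith
  exact tendsto_atTop_mono' atTop h1 tendsto_id

/-- the counting function from `0` -/
theorem dyadic_zero {F : ℂ → ℂ} (hF : GoodL F) (hfin : ∀ T : ℝ, (zset F 0 T).Finite)
    (P : ℝ → ℝ → ℕ)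
    (hadd : ∀ a b c : ℝ, 1 ≤ a → a ≤ b → b ≤ c → P a c = P a b + P b c)
    (hmono : ∀ a X : ℝ, 0 ≤ a → P a X ≤ P 0 X)
    (c c' T0 : ℝ) (hc : 0 ≤ c') (hcc : c' < c)
    (h : ∀ T : ℝ, T0 ≤ T → c * (NN F T (2 * T) : ℝ) ≤ (P T (2 * T) : ℝ)) :
    ∃ X0 : ℝ, ∀ X : ℝ, X0 ≤ X → c' * (NN F 0 X : ℝ) ≤ (P 0 X : ℝ) := by
  obtain ⟨A, C, hA, hX⟩ := dyadic_gen hF P hadd c T0 (hc.trans hcc.le) h
  -- additivity of `NN F 0`
  have hNNadd : ∀ X : ℝ, A ≤ X → NN F 0 X = NN F 0 A + NN F A X := by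
    intro X hAX
    unfold NN
    rw [← finsum_mem_union]
    · have hset : zset F 0 X = zset F 0 A ∪ zset F A X := by
        ext s
        simp only [zset, Set.mem_ofPred_eq, Set.mem_union]
        constructor
        · rintro ⟨a1, a2, a3, a4, a5⟩
          rcases le_or_gt s.im A with h1 | h1
          · exact Or.inl ⟨a1, a2, a3, h1, a5⟩
          · exact Or.inr ⟨a1, a2, h1, a4, a5⟩
        · rintro (⟨a1, a2, a3, a4, a5⟩ | ⟨a1, a2, a3, a4, a5⟩)
          · exact ⟨a1, a2, a3, a4.trans hAX, a5⟩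
          · exact ⟨a1, a2, by linarith, a4, a5⟩
      rw [hset]
    · rw [Set.disjoint_left]
      rintro s ⟨a1, a2, a3, a4, a5⟩ ⟨b1, b2, b3, b4, b5⟩
      linarith
    · exact hfin A
    · exact zset_finite hF A X hA
  have htend := NN_tendsto hF
  set B : ℝ := (C + c * (NN F 0 A : ℝ)) / (c - c') with hB
  have h1 : ∀ᶠ T : ℝ in atTop, B ≤ (NN F T (2 * T) : ℝ) := htend.eventually_ge_atTop B
  obtain ⟨T1, hT1⟩ := h1.exists_forall_of_atTop
  refine ⟨2 * max A T1, fun X hXX => ?_⟩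
  have hAX : A ≤ X / 2 := by linarith [le_max_left A T1]
  have hTX : T1 ≤ X / 2 := by linarith [le_max_right A T1]
  have h2 := hT1 (X / 2) hTX
  rw [show 2 * (X / 2) = X by ring] at h2
  have h3 : NN F (X / 2) X ≤ NN F A X := NN_mono hF hA hAX le_rfl
  have h4 : (NN F (X / 2) X : ℝ) ≤ NN F A X := by exact_mod_cast h3
  have h5 := hX X (by linarith)
  have h6 : (P A X : ℝ) ≤ P 0 X := by exact_mod_cast hmono A X (by linarith)
  rw [hNNadd X (by linarith)]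
  push_cast
  have hBp : B ≤ (NN F A X : ℝ) := h2.trans h4
  rw [hB, div_le_iff₀ (by linarith)] at hBp
  have h7 : (0 : ℝ) ≤ NN F 0 A := Nat.cast_nonneg _
  nlinarith

end H370
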