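import Pool.Agent.H370R2.Kdef

open Complex Filter Topology Set MeasureTheory

namespace H370

namespace GramAux

lemma half_lt : (1 / Real.sqrt 2 : ℝ) < Real.pi / 2 := by
  have h1 : (1 : ℝ) < Real.sqrt 2 := by
    have := Real.one_lt_sqrt_two
    exact this
  have h2 : (1 / Real.sqrt 2 : ℝ) < 1 := by
    rw [div_lt_one (by positivity)]; exact h1
  have h3 := Real.pi_gt_three
  linarith

lemma half_pos : (0 : ℝ) < 1 / Real.sqrt 2 := by positivity

lemma half_eq : Real.sqrt 2 * (1 / 2) = 1 / Real.sqrt 2 := by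
  have : Real.sqrt 2 * Real.sqrt 2 = 2 := Real.mul_self_sqrt (by norm_num)
  field_simp
  nlinarith

lemma sin_half_pos : 0 < Real.sin (1 / Real.sqrt 2) :=
  Real.sin_pos_of_pos_of_lt_pi half_pos (by have := half_lt; have := Real.pi_pos; linarith)

lemma cos_half_pos : 0 < Real.cos (1 / Real.sqrt 2) :=
  Real.cos_pos_of_mem_Ioo ⟨by have := half_pos; have := Real.pi_pos; linarith, half_lt⟩

lemma den_pos : 0 < Real.sqrt 2 * Real.sin (1 / Real.sqrt 2) :=
  mul_pos (by positivity) sin_half_pos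

lemma g0_nonneg {x : ℝ} (h1 : -1 / 2 ≤ x) (h2 : x ≤ 1 / 2) : 0 ≤ g0 x := by
  unfold g0
  refine div_nonneg (Real.cos_nonneg_of_mem_Icc ⟨?_, ?_⟩) den_pos.le
  · have h3 : -(1 / Real.sqrt 2) ≤ Real.sqrt 2 * x := by
      rw [← half_eq]
      have := Real.sqrt_nonneg 2
      nlinarith
    have := half_lt
    linarith
  · have h3 : Real.sqrt 2 * x ≤ 1 / Real.sqrt 2 := by
      rw [← half_eq]
      have := Real.sqrt_nonneg 2
      nlinarith
    have := half_lt
    linarith

lemma g0_cont : Continuous g0 := by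
  unfold g0
  fun_prop

lemma kap_cont : Continuous kap := by
  unfold kap
  apply intervalIntegral.continuous_parametric_intervalIntegral_of_continuous'
  have := g0_cont
  simp only [Function.uncurry_def]
  fun_prop

lemma kap_re (x : ℝ) : (kap x).re =
    ∫ t in (-1 / 2 : ℝ)..(1 / 2), g0 t * Real.cos (x * t) := by
  unfold kap
  have h := ContinuousLinearMap.intervalIntegral_comp_comm (μ := volume) Complex.reCLM
    (f := fun t : ℝ => (g0 t : ℂ) * cexp (I * (x : ℂ) * t)) (a := (-1 / 2 : ℝ)) (b := 1 / 2)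
    (by
      apply Continuous.intervalIntegrable
      have := g0_cont
      fun_prop)
  simp only [Complex.reCLM_apply] at h
  rw [← h]
  apply intervalIntegral.integral_congr
  intro t _
  simp only
  rw [Complex.re_ofReal_mul]
  congr 1
  rw [Complex.exp_re]
  have h1 : (I * (x : ℂ) * t).re = 0 := by simp
  have h2 : (I * (x : ℂ) * t).im = x * t := by simp
  rw [h1, h2]
  simp

/-- key identity -/
lemma kap_ident (x : ℝ) : (2 - x ^ 2) * (∫ t in (-1 / 2 : ℝ)..(1 / 2),
      Real.cos (Real.sqrt 2 * t) * Real.cos (x * t)) =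
    2 * (Real.sqrt 2 * Real.sin (1 / Real.sqrt 2) * Real.cos (x * (1 / 2)) -
      x * Real.cos (1 / Real.sqrt 2) * Real.sin (x * (1 / 2))) := by
  have hs : Real.sqrt 2 * Real.sqrt 2 = 2 := Real.mul_self_sqrt (by norm_num)
  set s := Real.sqrt 2 with hsdef
  have hd : ∀ t : ℝ, HasDerivAt (fun t => s * Real.sin (s * t) * Real.cos (x * t) -
      x * Real.cos (s * t) * Real.sin (x * t))
      ((2 - x ^ 2) * (Real.cos (s * t) * Real.cos (x * t))) t := by
    intro t
    have h1 : HasDerivAt (fun t : ℝ => s * t) s t := by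
      simpa using (hasDerivAt_id t).const_mul s
    have h2 : HasDerivAt (fun t : ℝ => x * t) x t := by
      simpa using (hasDerivAt_id t).const_mul x
    have h3 := ((h1.sin.const_mul s).mul h2.cos).sub ((h1.cos.const_mul x).mul h2.sin)
    refine h3.congr_deriv ?_
    have : x ^ 2 = x * x := sq x
    linear_combination (Real.cos (s * t) * Real.cos (x * t)) * hs
  have hint := intervalIntegral.integral_eq_sub_of_hasDerivAt
    (a := (-1 / 2 : ℝ)) (b := 1 / 2) (fun t _ => hd t)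
    (by apply Continuous.intervalIntegrable; fun_prop)
  rw [intervalIntegral.integral_const_mul] at hint
  rw [hint]
  have e1 : s * (1 / 2) = 1 / s := half_eq
  have e2 : s * (-1 / 2) = -(1 / s) := by rw [← e1]; ring
  have e3 : x * (-1 / 2) = -(x * (1 / 2)) := by ring
  rw [e1, e2, e3]
  simp only [Real.sin_neg, Real.cos_neg]
  ring

lemma kap_re_mul (x : ℝ) : (Real.sqrt 2 * Real.sin (1 / Real.sqrt 2)) * (kap x).re =
    ∫ t in (-1 / 2 : ℝ)..(1 / 2), Real.cos (Real.sqrt 2 * t) * Real.cos (x * t) := by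
  rw [kap_re, ← intervalIntegral.integral_const_mul]
  apply intervalIntegral.integral_congr
  intro t _
  simp only [g0]
  have := den_pos.ne'
  rw [← mul_assoc, mul_div_cancel₀ _ this]

lemma zero_eq {x : ℝ} (h : (kap x).re = 0) :
    Real.sqrt 2 * Real.sin (1 / Real.sqrt 2) * Real.cos (x * (1 / 2)) =
      Real.cos (1 / Real.sqrt 2) * (x * Real.sin (x * (1 / 2))) := by
  have h1 := kap_ident x
  rw [← kap_re_mul, h] at h1
  linarith

lemma not_all_zero (a b : ℝ) (ha : (kap a).re = 0) (hb : (kap b).re = 0)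
    (hab : (kap ((a + b : ℝ) : ℂ)).re = 0) : False := by
  have h1 := zero_eq ha
  have h2 := zero_eq hb
  have h3 := zero_eq hab
  have hp := den_pos
  have hC := cos_half_pos
  set p := Real.sqrt 2 * Real.sin (1 / Real.sqrt 2) with hpdef
  set C := Real.cos (1 / Real.sqrt 2) with hCdef
  rw [add_mul, Real.cos_add, Real.sin_add] at h3
  have q1 := Real.sin_sq_add_cos_sq (a * (1 / 2))
  have q2 := Real.sin_sq_add_cos_sq (b * (1 / 2))
  set A := Real.sin (a * (1 / 2))
  set B := Real.sin (b * (1 / 2))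
  set ca := Real.cos (a * (1 / 2))
  set cb := Real.cos (b * (1 / 2))
  have hA : A ≠ 0 := by
    intro h
    rw [h] at h1 q1
    have : ca = 0 := by
      have : p * ca = 0 := by rw [h1]; ring
      rcases mul_eq_zero.mp this with h | h
      · exact absurd h hp.ne'
      · exact h
    rw [this] at q1
    norm_num at q1
  have hB : B ≠ 0 := by
    intro h
    rw [h] at h2 q2
    have : cb = 0 := by
      have : p * cb = 0 := by rw [h2]; ring
      rcases mul_eq_zero.mp this with h | h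
      · exact absurd h hp.ne'
      · exact h
    rw [this] at q2
    norm_num at q2
  have key : A * B * (C ^ 2 * (a * b) - p ^ 2 - (a + b) ^ 2 * C ^ 2) = 0 := by
    have e1 : p * (p * (ca * cb - A * B)) =
        (p * ca) * (p * cb) - p ^ 2 * (A * B) := by ring
    have e2 : p * (C * ((a + b) * (A * cb + ca * B))) =
        C * (a + b) * (A * (p * cb) + (p * ca) * B) := by ring
    have e3 : p * (p * (ca * cb - A * B)) = p * (C * ((a + b) * (A * cb + ca * B))) := by
      rw [h3]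
    rw [e1, e2, h1, h2] at e3
    linear_combination e3
  have hAB : A * B ≠ 0 := mul_ne_zero hA hB
  have k2 : C ^ 2 * (a * b) - p ^ 2 - (a + b) ^ 2 * C ^ 2 = 0 := by
    rcases mul_eq_zero.mp key with h | h
    · exact absurd h hAB
    · exact h
  have : 0 < p ^ 2 := by positivity
  have hq : 0 ≤ C ^ 2 * (a ^ 2 + a * b + b ^ 2) := by
    apply mul_nonneg (by positivity)
    nlinarith [sq_nonneg (a + b), sq_nonneg a, sq_nonneg b]
  nlinarith

end GramAux

open GramAux

namespace GramAux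

noncomputable def ff (q : ℝ × ℝ) : ℝ :=
  (kap q.1).re ^ 2 + (kap q.2).re ^ 2 + (kap ((q.1 + q.2 : ℝ) : ℂ)).re ^ 2

lemma ff_cont : Continuous ff := by
  unfold ff
  have hk := kap_cont
  have h1 : Continuous fun q : ℝ × ℝ => (kap (q.1 : ℂ)).re :=
    Complex.continuous_re.comp (hk.comp (Complex.continuous_ofReal.comp continuous_fst))
  have h2 : Continuous fun q : ℝ × ℝ => (kap (q.2 : ℂ)).re :=
    Complex.continuous_re.comp (hk.comp (Complex.continuous_ofReal.comp continuous_snd))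
  have h3 : Continuous fun q : ℝ × ℝ => (kap ((q.1 + q.2 : ℝ) : ℂ)).re :=
    Complex.continuous_re.comp (hk.comp (Complex.continuous_ofReal.comp
      (continuous_fst.add continuous_snd)))
  exact ((h1.pow 2).add (h2.pow 2)).add (h3.pow 2)

lemma ff_pos (q : ℝ × ℝ) : 0 < ff q := by
  have hne : ¬ ((kap q.1).re = 0 ∧ (kap q.2).re = 0 ∧ (kap ((q.1 + q.2 : ℝ) : ℂ)).re = 0) :=
    fun h => not_all_zero _ _ h.1 h.2.1 h.2.2
  unfold ff
  generalize (kap q.1).re = x at *
  generalize (kap q.2).re = y at *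
  generalize (kap ((q.1 + q.2 : ℝ) : ℂ)).re = z at *
  by_cases hx : x = 0
  · by_cases hy : y = 0
    · have hz : z ≠ 0 := fun h => hne ⟨hx, hy, h⟩
      positivity
    · positivity
  · positivity

end GramAux

theorem kap_gap (G : ℝ) (hG : 0 < G) : ∃ c : ℝ, 0 < c ∧ ∀ a b : ℝ, 0 ≤ a → 0 ≤ b → a ≤ G → b ≤ G →
    c ≤ (kap a).re ^ 2 + (kap b).re ^ 2 + (kap ((a + b : ℝ) : ℂ)).re ^ 2 := by
  have hK : IsCompact (Set.Icc (0 : ℝ) G ×ˢ Set.Icc (0 : ℝ) G) := isCompact_Icc.prod isCompact_Icc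
  have hne : (Set.Icc (0 : ℝ) G ×ˢ Set.Icc (0 : ℝ) G).Nonempty :=
    ⟨(0, 0), ⟨⟨le_refl _, hG.le⟩, ⟨le_refl _, hG.le⟩⟩⟩
  obtain ⟨q, hq, hmin⟩ := hK.exists_isMinOn hne ff_cont.continuousOn
  refine ⟨ff q, ff_pos q, fun a b ha hb haG hbG => ?_⟩
  have hmem : ((a, b) : ℝ × ℝ) ∈ Set.Icc (0 : ℝ) G ×ˢ Set.Icc (0 : ℝ) G := ⟨⟨ha, haG⟩, ⟨hb, hbG⟩⟩
  have := isMinOn_iff.mp hmin _ hmem
  exact this

namespace GramAux

open ProbabilityTheory

/-- the measure -/
noncomputable def mu2 : Measure (ℝ × ℝ) :=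
  (volume.restrict (Set.Ioc (-1 / 2 : ℝ) (1 / 2))).prod (gaussianReal 0 (1 / 4))

noncomputable def kf (Λ : ℝ) (z : ℂ) (p : ℝ × ℝ) : ℂ :=
  (Real.sqrt (g0 p.1) : ℂ) * cexp (I * z * (Λ * p.1 + p.2))

lemma kf_cont (Λ : ℝ) (z : ℂ) : Continuous (kf Λ z) := by
  unfold kf
  have := g0_cont
  fun_prop

lemma kf_memLp (Λ : ℝ) (z : ℂ) : MemLp (kf Λ z) 2 mu2 := by
  rw [memLp_two_iff_integrable_sq_norm (kf_cont Λ z).aestronglyMeasurable]
  have h1 : Integrable (fun x : ℝ => (Real.sqrt (g0 x)) ^ 2 * Real.exp (-2 * z.im * Λ * x))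
      (volume.restrict (Set.Ioc (-1 / 2 : ℝ) (1 / 2))) := by
    have hc : Continuous (fun x : ℝ => (Real.sqrt (g0 x)) ^ 2 * Real.exp (-2 * z.im * Λ * x)) := by
      have := g0_cont
      fun_prop
    exact hc.integrableOn_Ioc
  have h2 : Integrable (fun x : ℝ => Real.exp ((-2 * z.im) * x)) (gaussianReal 0 (1 / 4)) :=
    integrable_exp_mul_gaussianReal _
  have h3 := h1.mul_prod h2
  refine h3.congr ?_
  refine Filter.Eventually.of_forall (fun p => ?_)
  simp only [kf]
  rw [norm_mul, mul_pow, Complex.norm_exp, Complex.norm_real, Real.norm_eq_abs, sq_abs, mul_assoc,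
    ← Real.exp_add, ← Real.exp_nat_mul]
  congr 2
  have : (I * z * (Λ * p.1 + p.2)).re = -z.im * (Λ * p.1 + p.2) := by
    simp [Complex.mul_re, Complex.mul_im]
  rw [this]
  push_cast
  ring

lemma kf_inner (Λ : ℝ) (z w : ℂ) :
    ∫ p, (starRingEnd ℂ) (kf Λ z p) * kf Λ w p ∂mu2 = phi Λ (w - (starRingEnd ℂ) z) := by
  set ζ := w - (starRingEnd ℂ) z with hζ
  have h1 : ∀ᵐ p ∂mu2, (starRingEnd ℂ) (kf Λ z p) * kf Λ w p =
      ((Real.sqrt (g0 p.1) : ℂ) ^ 2 * cexp (I * (Λ * ζ) * p.1)) * cexp ((I * ζ) * p.2) := by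
    refine Filter.Eventually.of_forall (fun p => ?_)
    simp only [kf, map_mul, Complex.conj_ofReal, ← Complex.exp_conj, map_add, Complex.conj_I]
    have e : cexp (-I * (starRingEnd ℂ) z * (Λ * p.1 + p.2)) * cexp (I * w * (Λ * p.1 + p.2)) =
        cexp (I * (Λ * ζ) * p.1) * cexp ((I * ζ) * p.2) := by
      rw [← Complex.exp_add, ← Complex.exp_add]
      congr 1
      rw [hζ]
      ring
    linear_combination ((Real.sqrt (g0 p.1) : ℂ) ^ 2) * e
  rw [integral_congr_ae h1]
  unfold mu2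
  rw [integral_prod_mul (fun x : ℝ => (Real.sqrt (g0 x) : ℂ) ^ 2 * cexp (I * (Λ * ζ) * x))
    (fun y : ℝ => cexp ((I * ζ) * y))]
  unfold phi
  congr 1
  · unfold kap
    rw [intervalIntegral.integral_of_le (by norm_num)]
    apply setIntegral_congr_fun measurableSet_Ioc
    intro x hx
    simp only
    congr 1
    have := g0_nonneg hx.1.le hx.2
    rw [← Complex.ofReal_pow, Real.sq_sqrt this]
  · have := complexMGF_id_gaussianReal (μ := 0) (v := 1 / 4) (I * ζ)
    unfold complexMGF at this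
    simp only [id] at this
    rw [this]
    congr 1
    push_cast
    rw [mul_pow, Complex.I_sq]
    ring

end GramAux

theorem gram_exists (Λ : ℝ) : ∃ (E : Type) (_ : NormedAddCommGroup E) (_ : InnerProductSpace ℂ E)
    (k : ℂ → E), ∀ z w, inner ℂ (k z) (k w) = phi Λ (w - (starRingEnd ℂ) z) := by
  refine ⟨Lp ℂ 2 mu2, inferInstance, inferInstance, fun z => (kf_memLp Λ z).toLp _, fun z w => ?_⟩
  rw [L2.inner_def, ← kf_inner]
  apply integral_congr_ae
  filter_upwards [(kf_memLp Λ z).coeFn_toLp, (kf_memLp Λ w).coeFn_toLp] with p h1 h2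
  rw [h1, h2, RCLike.inner_apply, mul_comm]

end H370
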