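import Mathlib

open Complex Filter Topology Set MeasureTheory

namespace H370

/-- the Montgomery-Taylor window `cos(√2 x)/(√2 sin(1/√2))` on `[-1/2,1/2]` -/
noncomputable def g0 (x : ℝ) : ℝ :=
  Real.cos (Real.sqrt 2 * x) / (Real.sqrt 2 * Real.sin (1 / Real.sqrt 2))

/-- its Fourier-Laplace transform -/
noncomputable def kap (z : ℂ) : ℂ :=
  ∫ x in (-1 / 2 : ℝ)..(1 / 2), (g0 x : ℂ) * cexp (I * z * x)

/-- the self-convolution of the window -/
noncomputable def Rf (α : ℝ) : ℝ :=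
  if |α| ≤ 1 then
    ((1 - |α|) * Real.cos (Real.sqrt 2 * |α|) + Real.sin (Real.sqrt 2 * (1 - |α|)) / Real.sqrt 2)
      / (2 * (Real.sqrt 2 * Real.sin (1 / Real.sqrt 2)) ^ 2)
  else 0

/-- the kernel at scale `Λ` with Gaussian damping -/
noncomputable def phi (Λ : ℝ) (z : ℂ) : ℂ := kap (Λ * z) * cexp (-z ^ 2 / 8)

end H370
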