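import Pool.Agent.H370R2.Defs
import Pool.Agent.H370R2.Kdef
import Pool.Agent.H370R2.NT
import Pool.Agent.H370R2.Gram

open Complex Filter Topology Set MeasureTheory

namespace H370

theorem kap_even (z : ℂ) : kap (-z) = kap z := by
  unfold kap
  have h := intervalIntegral.integral_comp_neg (a := (-1 / 2 : ℝ)) (b := 1 / 2)
    (fun x : ℝ => (g0 x : ℂ) * cexp (I * z * x))
  have e1 : (-(1 / 2) : ℝ) = -1 / 2 := by norm_num
  have e2 : (-(-1 / 2) : ℝ) = 1 / 2 := by norm_num
  rw [e1, e2] at h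
  rw [← h]
  apply intervalIntegral.integral_congr
  intro x _
  simp only
  have h1 : g0 (-x) = g0 x := by
    unfold g0
    rw [mul_neg, Real.cos_neg]
  rw [h1]
  congr 2
  push_cast
  ring

theorem int_cos_mul (c a b : ℝ) (hc : c ≠ 0) :
    ∫ x in a..b, Real.cos (c * x) = Real.sin (c * b) / c - Real.sin (c * a) / c := by
  rw [intervalIntegral.integral_comp_mul_left (fun x => Real.cos x) hc, integral_cos, smul_eq_mul]
  ring

theorem kap_zero : kap 0 = 1 := by
  unfold kap
  have h0 : ∀ x : ℝ, (g0 x : ℂ) * cexp (I * 0 * x) = ((g0 x : ℝ) : ℂ) := by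
    intro x; simp
  simp_rw [h0]
  rw [intervalIntegral.integral_ofReal]
  have hden := GramAux.den_pos
  have h1 : ∫ x in (-1 / 2 : ℝ)..(1 / 2), g0 x = 1 := by
    unfold g0
    rw [intervalIntegral.integral_div, int_cos_mul _ _ _ (by positivity)]
    have e1 : Real.sqrt 2 * (-1 / 2) = -(1 / Real.sqrt 2) := by
      rw [← GramAux.half_eq]; ring
    rw [e1, GramAux.half_eq, Real.sin_neg]
    have hs := GramAux.sin_half_pos
    have h2 : Real.sqrt 2 * Real.sqrt 2 = 2 := Real.mul_self_sqrt (by norm_num)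
    field_simp
    nlinarith
  rw [h1]; simp

theorem Rf_even (α : ℝ) : Rf (-α) = Rf α := by
  unfold Rf
  rw [abs_neg]

theorem Rf_nonneg (α : ℝ) : 0 ≤ Rf α := nt_Rf_nonneg α
theorem Rf_antitone : AntitoneOn Rf (Set.Ici 0) := nt_Rf_antitone
theorem Rf_lip : ∃ K : ℝ, 0 < K ∧ ∀ x y, |Rf x - Rf y| ≤ K * |x - y| := nt_Rf_lip

theorem cMTinv_lt : cMTinv < 3 / 2 := by
  unfold cMTinv
  have h1 := Real.lt_tan GramAux.half_pos GramAux.half_lt
  have hs := GramAux.sin_half_pos
  have hc := GramAux.cos_half_pos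
  rw [Real.tan_eq_sin_div_cos, lt_div_iff₀ hc, one_div, inv_mul_lt_iff₀ (by positivity)] at h1
  rw [Real.cot_eq_cos_div_sin]
  have h3 : Real.cos (1 / Real.sqrt 2) / Real.sin (1 / Real.sqrt 2) / Real.sqrt 2 < 1 := by
    rw [div_div, div_lt_one (by positivity)]
    rw [one_div] at *
    linarith
  linarith

theorem Rf_const_aux (s : ℝ) (hs : s ≠ 0) :
    ∫ α in (0 : ℝ)..1, α * ((1 - α) * Real.cos (s * α) + Real.sin (s * (1 - α)) / s) =
      (-Real.cos s / s ^ 2 + 2 * Real.sin s / s ^ 3 - 1 / s ^ 2) + (1 / s ^ 2 - Real.sin s / s ^ 3) := by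
  have hd : ∀ x ∈ Set.uIcc (0 : ℝ) 1, HasDerivAt
      (fun x : ℝ => (x - x ^ 2) * Real.sin (s * x) / s + (1 - 2 * x) * Real.cos (s * x) / s ^ 2
        + 2 * Real.sin (s * x) / s ^ 3 + (x * Real.cos (s * (1 - x)) / s ^ 2
        + Real.sin (s * (1 - x)) / s ^ 3))
      (x * ((1 - x) * Real.cos (s * x) + Real.sin (s * (1 - x)) / s)) x := by
    intro x _
    have hx : HasDerivAt (fun x : ℝ => x) 1 x := hasDerivAt_id x
    have h1 : HasDerivAt (fun x : ℝ => s * x) s x := by simpa using hx.const_mul s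
    have h2 : HasDerivAt (fun x : ℝ => s * (1 - x)) (-s) x := by
      simpa using (hx.const_sub 1).const_mul s
    have hsin := h1.sin
    have hcos := h1.cos
    have hsin2 := h2.sin
    have hcos2 := h2.cos
    have hp : HasDerivAt (fun x : ℝ => x - x ^ 2) (1 - 2 * x) x := by
      have h := hx.fun_sub (hx.fun_pow 2)
      refine h.congr_deriv ?_
      simp
    have hq : HasDerivAt (fun x : ℝ => 1 - 2 * x) (-2) x := by
      simpa using (hx.const_mul 2).const_sub 1
    have := (((hp.mul hsin).div_const s).add ((hq.mul hcos).div_const (s ^ 2))).add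
      ((hsin.const_mul 2).div_const (s ^ 3))
    have h4 := ((hx.mul hcos2).div_const (s ^ 2)).add (hsin2.div_const (s ^ 3))
    have h5 := this.add h4
    refine h5.congr_deriv ?_
    field_simp
    ring
  rw [intervalIntegral.integral_eq_sub_of_hasDerivAt hd]
  · simp
    field_simp
    ring
  · apply Continuous.intervalIntegrable
    fun_prop

theorem Rf_const : Rf 0 + 2 * ∫ α in (0 : ℝ)..1, α * Rf α = cMTinv := by
  have hs2 : Real.sqrt 2 * Real.sqrt 2 = 2 := Real.mul_self_sqrt (by norm_num)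
  have hs : Real.sqrt 2 ≠ 0 := by positivity
  have hsin := GramAux.sin_half_pos
  set D := 2 * (Real.sqrt 2 * Real.sin (1 / Real.sqrt 2)) ^ 2 with hD
  have hDpos : 0 < D := by positivity
  have h1 : ∫ α in (0 : ℝ)..1, α * Rf α = (∫ α in (0 : ℝ)..1, α * ((1 - α) * Real.cos (Real.sqrt 2 * α) +
      Real.sin (Real.sqrt 2 * (1 - α)) / Real.sqrt 2)) / D := by
    rw [← intervalIntegral.integral_div]
    apply intervalIntegral.integral_congr
    intro x hx
    rw [Set.uIcc_of_le zero_le_one] at hx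
    simp only
    unfold Rf
    rw [abs_of_nonneg hx.1, if_pos hx.2]
    ring
  have h0 : Rf 0 = (1 + Real.sin (Real.sqrt 2) / Real.sqrt 2) / D := by
    unfold Rf
    simp [hD]
  rw [h1, Rf_const_aux _ hs, h0]
  unfold cMTinv
  rw [Real.cot_eq_cos_div_sin]
  have e : Real.sqrt 2 = 2 * (1 / Real.sqrt 2) := by
    field_simp
    linarith
  have e1 : Real.sin (Real.sqrt 2) = 2 * Real.sin (1 / Real.sqrt 2) * Real.cos (1 / Real.sqrt 2) := by
    conv_lhs => rw [e]
    rw [Real.sin_two_mul]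
  have e2 : Real.cos (Real.sqrt 2) = 1 - 2 * Real.sin (1 / Real.sqrt 2) ^ 2 := by
    conv_lhs => rw [e]
    rw [Real.cos_two_mul, Real.cos_sq']
    ring
  rw [e1, e2]
  have hs3 : Real.sqrt 2 ^ 3 = 2 * Real.sqrt 2 := by
    rw [pow_succ, pow_two, hs2]
  have hs22 : Real.sqrt 2 ^ 2 = 2 := by rw [pow_two, hs2]
  rw [hs3, hs22, hD, mul_pow, hs22]
  set S := Real.sin (1 / Real.sqrt 2)
  set C := Real.cos (1 / Real.sqrt 2)
  have hS : S ≠ 0 := hsin.ne'
  field_simp
  ring

theorem kap_set (z : ℂ) : kap z = ∫ x : ℝ, (Set.Icc (-1 / 2 : ℝ) (1 / 2)).indicator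
    (fun x : ℝ => (g0 x : ℂ) * cexp (I * z * x)) x := by
  unfold kap
  rw [integral_indicator measurableSet_Icc, intervalIntegral.integral_of_le (by norm_num),
    integral_Icc_eq_integral_Ioc]

theorem conv_eval (a : ℝ) : ∫ x in (Set.Icc (-1 / 2 : ℝ) (1 / 2) ∩ Set.Icc (a - 1 / 2) (a + 1 / 2)),
    g0 x * g0 (a - x) = Rf a := by
  by_cases ha : |a| ≤ 1
  · have hset : Set.Icc (-1 / 2 : ℝ) (1 / 2) ∩ Set.Icc (a - 1 / 2) (a + 1 / 2) =
        Set.Icc ((a - (1 - |a|)) / 2) ((a + (1 - |a|)) / 2) := by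
      rw [Set.Icc_inter_Icc]
      rcases abs_cases a with ⟨h1, h2⟩ | ⟨h1, h2⟩
      · rw [h1]
        have e1 : (-1 / 2 : ℝ) ⊔ (a - 1 / 2) = (a - (1 - a)) / 2 := by
          rw [sup_eq_right.2 (by linarith)]; ring
        have e2 : (1 / 2 : ℝ) ⊓ (a + 1 / 2) = (a + (1 - a)) / 2 := by
          rw [inf_eq_left.2 (by linarith)]; ring
        rw [e1, e2]
      · rw [h1]
        have e1 : (-1 / 2 : ℝ) ⊔ (a - 1 / 2) = (a - (1 - -a)) / 2 := by
          rw [sup_eq_left.2 (by linarith)]; ring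
        have e2 : (1 / 2 : ℝ) ⊓ (a + 1 / 2) = (a + (1 - -a)) / 2 := by
          rw [inf_eq_right.2 (by linarith)]; ring
        rw [e1, e2]
    rw [hset, integral_Icc_eq_integral_Ioc, ← intervalIntegral.integral_of_le (by linarith)]
    have hs : Real.sqrt 2 ≠ 0 := by positivity
    have hs2 : Real.sqrt 2 * Real.sqrt 2 = 2 := Real.mul_self_sqrt (by norm_num)
    have hsin := GramAux.sin_half_pos
    set D := (Real.sqrt 2 * Real.sin (1 / Real.sqrt 2)) with hD
    have hDpos : 0 < D := by positivity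
    have hd : ∀ x ∈ Set.uIcc ((a - (1 - |a|)) / 2) ((a + (1 - |a|)) / 2), HasDerivAt
      (fun x : ℝ => (x * Real.cos (Real.sqrt 2 * a) + Real.sin (Real.sqrt 2 * (2 * x - a)) /
        (2 * Real.sqrt 2)) / (2 * D ^ 2)) (g0 x * g0 (a - x)) x := by
      intro x _
      have hx : HasDerivAt (fun x : ℝ => x) 1 x := hasDerivAt_id x
      have h1 : HasDerivAt (fun x : ℝ => Real.sqrt 2 * (2 * x - a)) (Real.sqrt 2 * 2) x := by
        simpa using ((hx.const_mul 2).sub_const a).const_mul (Real.sqrt 2)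
      have h2 := ((hx.mul_const (Real.cos (Real.sqrt 2 * a))).add
        (h1.sin.div_const (2 * Real.sqrt 2))).div_const (2 * D ^ 2)
      refine h2.congr_deriv ?_
      unfold g0
      rw [← hD]
      have e1 : Real.cos (Real.sqrt 2 * a) = Real.cos (Real.sqrt 2 * x + Real.sqrt 2 * (a - x)) := by
        congr 1; ring
      have e2 : Real.cos (Real.sqrt 2 * (2 * x - a)) =
          Real.cos (Real.sqrt 2 * x - Real.sqrt 2 * (a - x)) := by
        congr 1; ring
      rw [e1, e2, Real.cos_add, Real.cos_sub]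
      field_simp
      ring
    rw [intervalIntegral.integral_eq_sub_of_hasDerivAt hd]
    · unfold Rf
      rw [if_pos ha, ← hD]
      have e1 : Real.sqrt 2 * (2 * ((a + (1 - |a|)) / 2) - a) = Real.sqrt 2 * (1 - |a|) := by ring
      have e2 : Real.sqrt 2 * (2 * ((a - (1 - |a|)) / 2) - a) = -(Real.sqrt 2 * (1 - |a|)) := by ring
      have e3 : Real.cos (Real.sqrt 2 * a) = Real.cos (Real.sqrt 2 * |a|) := by
        rw [← Real.cos_abs, abs_mul, abs_of_pos (by positivity : 0 < Real.sqrt 2)]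
      rw [e1, e2, Real.sin_neg, e3]
      field_simp
      ring
    · apply Continuous.intervalIntegrable
      have := GramAux.g0_cont
      fun_prop
  · have hset : Set.Icc (-1 / 2 : ℝ) (1 / 2) ∩ Set.Icc (a - 1 / 2) (a + 1 / 2) = ∅ := by
      rw [Set.Icc_inter_Icc]
      apply Set.Icc_eq_empty
      intro h
      apply ha
      simp only [sup_le_iff, le_inf_iff] at h
      rw [abs_le]
      constructor <;> linarith [h.1.1, h.1.2, h.2.1, h.2.2]
    rw [hset]
    unfold Rf
    rw [if_neg ha]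
    simp

theorem kap_sq (z : ℂ) : kap z ^ 2 = ∫ α in (-1 : ℝ)..1, (Rf α : ℂ) * cexp (I * z * α) := by
  set f : ℝ → ℂ := (Set.Icc (-1 / 2 : ℝ) (1 / 2)).indicator
    (fun x : ℝ => (g0 x : ℂ) * cexp (I * z * x)) with hf
  have hcont : Continuous (fun x : ℝ => (g0 x : ℂ) * cexp (I * z * x)) := by
    have := GramAux.g0_cont
    fun_prop
  have hfi : Integrable f := by
    rw [hf, integrable_indicator_iff measurableSet_Icc]
    exact hcont.continuousOn.integrableOn_Icc
  have h1 := integral_convolution (ContinuousLinearMap.mul ℝ ℂ) (μ := volume) (ν := volume) hfi hfi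
  rw [kap_set, ← hf, pow_two]
  rw [ContinuousLinearMap.mul_apply'] at h1
  rw [← h1]
  have h2 : ∀ a : ℝ, (convolution f f (ContinuousLinearMap.mul ℝ ℂ) volume) a =
      (Rf a : ℂ) * cexp (I * z * a) := by
    intro a
    rw [convolution_def]
    rw [← conv_eval a]
    have h3 : ∀ t : ℝ, (ContinuousLinearMap.mul ℝ ℂ) (f t) (f (a - t)) =
        (Set.Icc (-1 / 2 : ℝ) (1 / 2) ∩ Set.Icc (a - 1 / 2) (a + 1 / 2)).indicator
          (fun t : ℝ => ((g0 t * g0 (a - t) : ℝ) : ℂ) * cexp (I * z * a)) t := by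
      intro t
      rw [ContinuousLinearMap.mul_apply', hf]
      by_cases ht : t ∈ Set.Icc (-1 / 2 : ℝ) (1 / 2)
      · by_cases ht2 : a - t ∈ Set.Icc (-1 / 2 : ℝ) (1 / 2)
        · have ht3 : t ∈ Set.Icc (-1 / 2 : ℝ) (1 / 2) ∩ Set.Icc (a - 1 / 2) (a + 1 / 2) := by
            refine ⟨ht, ?_, ?_⟩
            · have := ht2.2; linarith
            · have := ht2.1; linarith
          rw [Set.indicator_of_mem ht, Set.indicator_of_mem ht2, Set.indicator_of_mem ht3]
          have e : cexp (I * z * a) = cexp (I * z * t) * cexp (I * z * ((a - t : ℝ) : ℂ)) := by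
            rw [← Complex.exp_add]
            congr 1
            push_cast
            ring
          rw [e]
          push_cast
          ring
        · have ht3 : t ∉ Set.Icc (-1 / 2 : ℝ) (1 / 2) ∩ Set.Icc (a - 1 / 2) (a + 1 / 2) := by
            rintro ⟨_, h5, h6⟩
            apply ht2
            constructor <;> linarith
          rw [Set.indicator_of_notMem ht2, Set.indicator_of_notMem ht3, mul_zero]
      · have ht3 : t ∉ Set.Icc (-1 / 2 : ℝ) (1 / 2) ∩ Set.Icc (a - 1 / 2) (a + 1 / 2) :=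
          fun h => ht h.1
        rw [Set.indicator_of_notMem ht, Set.indicator_of_notMem ht3, zero_mul]
    simp_rw [h3]
    rw [integral_indicator (measurableSet_Icc.inter measurableSet_Icc), integral_mul_const,
      integral_complex_ofReal]
  simp_rw [h2]
  rw [intervalIntegral.integral_of_le (by norm_num), ← integral_Icc_eq_integral_Ioc,
    ← integral_indicator measurableSet_Icc]
  congr 1
  ext a
  by_cases ha : a ∈ Set.Icc (-1 : ℝ) 1
  · rw [Set.indicator_of_mem ha]
  · rw [Set.indicator_of_notMem ha]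
    have : ¬ |a| ≤ 1 := by
      rw [abs_le]; exact ha
    unfold Rf
    rw [if_neg this]
    simp

end H370
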