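import Pool.Agent.H370R2.Gram
import Pool.Agent.H370R2.Kern

open Complex Filter Topology Set MeasureTheory
open scoped BigOperators

namespace H370.Expl

open GramAux

/-- `√2 tan (1/√2)` -/
noncomputable def qq : ℝ :=
  Real.sqrt 2 * Real.sin (1 / Real.sqrt 2) / Real.cos (1 / Real.sqrt 2)

/-- the real kernel -/
noncomputable def KK (x : ℝ) : ℝ := (kap x).re

noncomputable def PPx (x : ℝ) : ℝ := x * Real.sin (x / 2) - qq * Real.cos (x / 2)

lemma qq_pos : 0 < qq := div_pos den_pos cos_half_pos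

lemma KK_eq (x : ℝ) : qq * (x ^ 2 - 2) * KK x = 2 * PPx x := by
  have h1 := kap_ident x
  rw [← kap_re_mul] at h1
  have hc := cos_half_pos.ne'
  unfold PPx KK qq
  rw [show x * (1 / 2) = x / 2 by ring] at h1
  field_simp
  linear_combination (-1 : ℝ) * h1

/-! numerics -/

lemma exp_num : |Real.cos (1 / Real.sqrt 2) - (1 - 1 / 4 + 1 / 96 - 1 / 5760)| ≤ 2 / 10 ^ 6 ∧
    |Real.sqrt 2 * Real.sin (1 / Real.sqrt 2) - (1 - 1 / 12 + 1 / 480 - 1 / 40320)| ≤
      3 / 10 ^ 6 := by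
  set β : ℝ := 1 / Real.sqrt 2 with hβ
  have hs2 : Real.sqrt 2 ^ 2 = 2 := Real.sq_sqrt (by norm_num)
  have hs0 : 0 < Real.sqrt 2 := by positivity
  have hβ0 : 0 < β := by positivity
  have hβ2 : β ^ 2 = 1 / 2 := by rw [hβ, div_pow, hs2]; norm_num
  have hβs : Real.sqrt 2 * β = 1 := by rw [hβ]; field_simp
  have hs3 : Real.sqrt 2 ≤ 1.5 := by
    rw [Real.sqrt_le_left (by norm_num)]; norm_num
  have hn : ‖(β : ℂ) * I‖ = β := by
    rw [norm_mul, Complex.norm_I, mul_one, Complex.norm_real, Real.norm_of_nonneg hβ0.le]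
  have hβ1 : β ≤ 1 := by nlinarith
  have h := Complex.exp_bound (x := (β : ℂ) * I) (by rw [hn]; exact hβ1) (n := 8) (by norm_num)
  rw [hn] at h
  have hb : β ^ 8 * ((Nat.succ 8 : ℝ) * ((Nat.factorial 8 : ℝ) * (8 : ℕ))⁻¹) ≤ 1.75 / 10 ^ 6 := by
    have : β ^ 8 = 1 / 16 := by
      calc β ^ 8 = (β ^ 2) ^ 4 := by ring
        _ = 1 / 16 := by rw [hβ2]; norm_num
    rw [this]
    norm_num [Nat.factorial]
  have h2 := h.trans hb
  have hsum : ∑ m ∈ Finset.range 8, ((β : ℂ) * I) ^ m / (m.factorial : ℂ) =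
      (((1 - 1 / 4 + 1 / 96 - 1 / 5760 : ℝ)) : ℂ) +
        ((β * (1 - 1 / 12 + 1 / 480 - 1 / 40320) : ℝ) : ℂ) * I := by
    have e2 : (β : ℂ) ^ 2 = 1 / 2 := by
      have := congrArg (fun r : ℝ => (r : ℂ)) hβ2
      push_cast at this
      exact this
    have e3 : (β : ℂ) ^ 3 = (β : ℂ) / 2 := by rw [pow_succ, e2]; ring
    have e4 : (β : ℂ) ^ 4 = 1 / 4 := by
      rw [show (β : ℂ) ^ 4 = ((β : ℂ) ^ 2) ^ 2 by ring, e2]; norm_num
    have e5 : (β : ℂ) ^ 5 = (β : ℂ) / 4 := by rw [pow_succ, e4]; ring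
    have e6 : (β : ℂ) ^ 6 = 1 / 8 := by
      rw [show (β : ℂ) ^ 6 = ((β : ℂ) ^ 2) ^ 3 by ring, e2]; norm_num
    have e7 : (β : ℂ) ^ 7 = (β : ℂ) / 8 := by rw [pow_succ, e6]; ring
    have i3 : I ^ 3 = -I := Complex.I_pow_three
    have i4 : I ^ 4 = 1 := Complex.I_pow_four
    have i5 : I ^ 5 = I := by rw [pow_succ, i4, one_mul]
    have i6 : I ^ 6 = -1 := by rw [show (6 : ℕ) = 4 + 2 from rfl, pow_add, i4, I_sq, one_mul]
    have i7 : I ^ 7 = -I := by rw [show (7 : ℕ) = 4 + 3 from rfl, pow_add, i4, i3, one_mul]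
    simp only [Finset.sum_range_succ, Finset.sum_range_zero, mul_pow, pow_zero, pow_one,
      e2, e3, e4, e5, e6, e7, i3, i4, i5, i6, i7, I_sq, Nat.factorial]
    push_cast
    ring
  rw [hsum, Complex.exp_mul_I, ← Complex.ofReal_cos, ← Complex.ofReal_sin] at h2
  have h3 : ((Real.cos β : ℂ) + (Real.sin β : ℂ) * I) - (((1 - 1 / 4 + 1 / 96 - 1 / 5760 : ℝ) : ℂ) +
        ((β * (1 - 1 / 12 + 1 / 480 - 1 / 40320) : ℝ) : ℂ) * I) =
      ((Real.cos β - (1 - 1 / 4 + 1 / 96 - 1 / 5760) : ℝ) : ℂ) +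
      ((Real.sin β - β * (1 - 1 / 12 + 1 / 480 - 1 / 40320) : ℝ) : ℂ) * I := by
    push_cast; ring
  rw [h3] at h2
  constructor
  · have h4 := (Complex.abs_re_le_norm _).trans h2
    simp only [Complex.add_re, Complex.ofReal_re, Complex.mul_re, Complex.ofReal_im, Complex.I_re,
      Complex.I_im, mul_zero, zero_mul, sub_zero, add_zero] at h4
    refine h4.trans (by norm_num)
  · have h4 := (Complex.abs_im_le_norm _).trans h2
    simp only [Complex.add_im, Complex.ofReal_re, Complex.mul_im, Complex.ofReal_im, Complex.I_re,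
      Complex.I_im, mul_zero, mul_one, zero_mul, zero_add, add_zero] at h4
    have h5 : Real.sqrt 2 * Real.sin β - (1 - 1 / 12 + 1 / 480 - 1 / 40320) =
        Real.sqrt 2 * (Real.sin β - β * (1 - 1 / 12 + 1 / 480 - 1 / 40320)) := by
      have : Real.sqrt 2 * (β * (1 - 1 / 12 + 1 / 480 - 1 / 40320)) =
        (Real.sqrt 2 * β) * (1 - 1 / 12 + 1 / 480 - 1 / 40320) := by ring
      rw [mul_sub, this, hβs, one_mul]
    rw [h5, abs_mul, abs_of_pos hs0]
    calc Real.sqrt 2 * |Real.sin β - β * (1 - 1 / 12 + 1 / 480 - 1 / 40320)| ≤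
        1.5 * (1.75 / 10 ^ 6) := mul_le_mul hs3 h4 (abs_nonneg _) (by norm_num)
      _ ≤ 3 / 10 ^ 6 := by norm_num

lemma qq_lt : qq ≤ 1.21 := by
  obtain ⟨h1, h2⟩ := exp_num
  rw [abs_le] at h1 h2
  have hc := cos_half_pos
  unfold qq
  rw [div_le_iff₀ hc]
  nlinarith [h1.1, h1.2, h2.1, h2.2]

lemma cMTinv_num : cMTinv ≤ 1.327503 := by
  obtain ⟨h1, h2⟩ := exp_num
  rw [abs_le] at h1 h2
  have hc := cos_half_pos
  have hs := sin_half_pos
  have hd := den_pos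
  unfold cMTinv
  rw [Real.cot_eq_cos_div_sin, div_div, mul_comm (Real.sin _) (Real.sqrt 2)]
  have : Real.cos (1 / Real.sqrt 2) / (Real.sqrt 2 * Real.sin (1 / Real.sqrt 2)) ≤ 0.827503 := by
    rw [div_le_iff₀ hd]
    nlinarith [h1.1, h1.2, h2.1, h2.2]
  linarith

/-! the kernel on `[0, 2π]` -/

lemma KK_ge_of_pi {x : ℝ} (h1 : Real.pi ≤ x) (h2 : x ≤ 2 * Real.pi) :
    2 / (x ^ 2 - 2) ≤ KK x := by
  have hpi := Real.pi_gt_three
  have hq := qq_pos
  have hq1 := qq_lt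
  have hs : 0 ≤ Real.sin (x / 2) := Real.sin_nonneg_of_nonneg_of_le_pi (by linarith) (by linarith)
  have hc : Real.cos (x / 2) ≤ 0 :=
    Real.cos_nonpos_of_pi_div_two_le_of_le (by linarith) (by linarith)
  have hsc := Real.sin_sq_add_cos_sq (x / 2)
  have hs1 := Real.sin_le_one (x / 2)
  have hc1 := Real.neg_one_le_cos (x / 2)
  have h3 : 1 ≤ Real.sin (x / 2) - Real.cos (x / 2) := by nlinarith
  have hP : qq ≤ PPx x := by
    unfold PPx
    have : qq * Real.sin (x / 2) ≤ x * Real.sin (x / 2) :=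
      mul_le_mul_of_nonneg_right (by linarith) hs
    nlinarith
  have hx2 : 0 < x ^ 2 - 2 := by nlinarith
  have h4 := KK_eq x
  rw [div_le_iff₀ hx2]
  have h5 : qq * 2 ≤ qq * (KK x * (x ^ 2 - 2)) := by
    calc qq * 2 ≤ 2 * PPx x := by linarith
      _ = qq * (x ^ 2 - 2) * KK x := h4.symm
      _ = _ := by ring
  exact le_of_mul_le_mul_left h5 hq

lemma KK_large {x : ℝ} (h0 : 0 ≤ x) (h2 : x ≤ 2 * Real.pi) : 1 / 19 ≤ KK x := by
  have hpi := Real.pi_gt_three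
  have hpi2 := Real.pi_lt_d4
  rcases le_or_gt Real.pi x with h1 | h1
  · refine le_trans ?_ (KK_ge_of_pi h1 h2)
    have hx2 : 0 < x ^ 2 - 2 := by nlinarith
    rw [div_le_div_iff₀ (by norm_num) hx2]
    nlinarith
  · have hmono : KK Real.pi ≤ KK x := by
      unfold KK
      rw [kap_re, kap_re]
      refine intervalIntegral.integral_mono_on (by norm_num) ?_ ?_ ?_
      · apply Continuous.intervalIntegrable
        have := g0_cont
        fun_prop
      · apply Continuous.intervalIntegrable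
        have := g0_cont
        fun_prop
      · intro t ht
        refine mul_le_mul_of_nonneg_left ?_ (g0_nonneg ht.1 ht.2)
        rw [← Real.cos_abs (Real.pi * t), ← Real.cos_abs (x * t), abs_mul, abs_mul,
          abs_of_pos Real.pi_pos, abs_of_nonneg h0]
        have ht1 : |t| ≤ 1 / 2 := abs_le.mpr ⟨by linarith [ht.1], ht.2⟩
        have ht0 := abs_nonneg t
        apply Real.cos_le_cos_of_nonneg_of_le_pi (by positivity)
        · nlinarith
        · exact mul_le_mul_of_nonneg_right h1.le ht0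
    refine le_trans ?_ hmono
    refine le_trans ?_ (KK_ge_of_pi le_rfl (by linarith))
    have hx2 : 0 < Real.pi ^ 2 - 2 := by nlinarith
    rw [div_le_div_iff₀ (by norm_num) hx2]
    nlinarith

/-- bound for the sine when the kernel is small -/
lemma sin_small {a u : ℝ} (ha : 2 * Real.pi ≤ a) (hu : a + 2 * Real.pi ≤ u)
    (hk : u ^ 2 * |KK a| ≤ 4.4722) :
    |PPx a| ≤ qq / 2 * (a / u) ^ 2 * (u ^ 2 * |KK a|) ∧ |Real.sin (a / 2)| ≤ 0.3003 := by
  have hpi := Real.pi_gt_d4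
  have hpi0 := Real.pi_pos
  have hq := qq_pos
  have hq1 := qq_lt
  have hu0 : 0 < u := by linarith
  have ha0 : 0 < a := by linarith
  have hP : |PPx a| ≤ qq / 2 * (a / u) ^ 2 * (u ^ 2 * |KK a|) := by
    have h1 := KK_eq a
    have h2 : PPx a = qq / 2 * (a ^ 2 - 2) * KK a := by linarith
    rw [h2, abs_mul, abs_mul, abs_of_pos (by positivity : 0 < qq / 2),
      abs_of_pos (by nlinarith : 0 < a ^ 2 - 2)]
    have h3 : qq / 2 * (a / u) ^ 2 * (u ^ 2 * |KK a|) = qq / 2 * a ^ 2 * |KK a| := by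
      field_simp
    rw [h3]
    apply mul_le_mul_of_nonneg_right _ (abs_nonneg _)
    apply mul_le_mul_of_nonneg_left _ (by positivity)
    linarith
  refine ⟨hP, ?_⟩
  have h4 : a * Real.sin (a / 2) = PPx a + qq * Real.cos (a / 2) := by unfold PPx; ring
  have h5 : a * |Real.sin (a / 2)| ≤ |PPx a| + qq := by
    calc a * |Real.sin (a / 2)| = |a * Real.sin (a / 2)| := by
          rw [abs_mul, abs_of_pos ha0]
      _ = |PPx a + qq * Real.cos (a / 2)| := by rw [h4]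
      _ ≤ |PPx a| + |qq * Real.cos (a / 2)| := abs_add_le _ _
      _ ≤ |PPx a| + qq := by
          rw [abs_mul, abs_of_pos hq]
          have := Real.abs_cos_le_one (a / 2)
          nlinarith
  have h6 : (a / u) ^ 2 ≤ a / (8 * Real.pi) := by
    rw [div_pow, div_le_div_iff₀ (by positivity) (by positivity)]
    have h7 : 8 * Real.pi * a ≤ u ^ 2 := by
      have h8 : (a + 2 * Real.pi) ^ 2 ≤ u ^ 2 := by
        apply pow_le_pow_left₀ (by linarith) hu
      nlinarith [sq_nonneg (a - 2 * Real.pi)]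
    nlinarith
  have h7 : a / (8 * Real.pi) ≤ 0.0398 * a := by
    rw [div_le_iff₀ (by positivity)]
    nlinarith
  have h8 : |PPx a| ≤ 0.605 * (0.0398 * a) * 4.4722 := by
    refine hP.trans ?_
    apply mul_le_mul _ hk (by positivity) (by positivity)
    apply mul_le_mul (by linarith) (h6.trans h7) (by positivity) (by norm_num)
  have h9 : a * |Real.sin (a / 2)| ≤ a * 0.3003 := by
    refine h5.trans ?_
    nlinarith
  exact le_of_mul_le_mul_left h9 ha0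

lemma cs_core {α β ka kb ku : ℝ} :
    (ku + α * ka + β * kb) ^ 2 ≤
      (ka ^ 2 / 2 + kb ^ 2 / 2 + ku ^ 2) * (1 + 2 * α ^ 2 + 2 * β ^ 2) := by
  have : (ka ^ 2 / 2 + kb ^ 2 / 2 + ku ^ 2) * (1 + 2 * α ^ 2 + 2 * β ^ 2) -
      (ku + α * ka + β * kb) ^ 2 = (ka - 2 * α * ku) ^ 2 / 2 + (kb - 2 * β * ku) ^ 2 / 2 +
      (β * ka - α * kb) ^ 2 := by ring
  have h1 := sq_nonneg (ka - 2 * α * ku)
  have h2 := sq_nonneg (kb - 2 * β * ku)
  have h3 := sq_nonneg (β * ka - α * kb)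
  linarith

/-- polynomial contradiction -/
lemma poly_final {α β ka kb ku w : ℝ} (hα : 0 < α) (hβ : 0 < β) (hαβ : α + β = 1)
    (ha0 : 0 ≤ ka) (hb0 : 0 ≤ kb) (hu0 : 0 ≤ ku) (ha1 : ka ≤ 4.4722) (hb1 : kb ≤ 4.4722)
    (hE : ka ^ 2 / 2 + kb ^ 2 / 2 + ku ^ 2 < 10) (hw0 : 0 ≤ w) (hw : w ≤ 0.00928)
    (hab : ka * kb ≤ 10)
    (h : 1.8196 * (1 - α * β) ≤ α * β * (ku + α * ka + β * kb) +
      w * (α ^ 2 * ka + β ^ 2 * kb) + w / 2 * (α * β) ^ 2 * (ka * kb)) : False := by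
  set p := α * β with hp
  have hp0 : 0 < p := by positivity
  have hp1 : p ≤ 1 / 4 := by
    have := sq_nonneg (α - β)
    have e : (α + β) ^ 2 = 1 := by rw [hαβ]; norm_num
    rw [hp]; linarith
  have hsq : α ^ 2 + β ^ 2 = 1 - 2 * p := by
    have e : (α + β) ^ 2 = 1 := by rw [hαβ]; norm_num
    rw [hp]; linarith
  have h1 : α ^ 2 * ka + β ^ 2 * kb ≤ 4.4722 * (1 - 2 * p) := by
    rw [← hsq]
    have i1 : α ^ 2 * ka ≤ α ^ 2 * 4.4722 := mul_le_mul_of_nonneg_left ha1 (by positivity)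
    have i2 : β ^ 2 * kb ≤ β ^ 2 * 4.4722 := mul_le_mul_of_nonneg_left hb1 (by positivity)
    linarith
  have h1' : 0 ≤ α ^ 2 * ka + β ^ 2 * kb := by positivity
  have h2 : w * (α ^ 2 * ka + β ^ 2 * kb) ≤ 0.00928 * (4.4722 * (1 - 2 * p)) :=
    mul_le_mul hw h1 h1' (by norm_num)
  have h3 : w / 2 * p ^ 2 * (ka * kb) ≤ 0.0464 * p ^ 2 := by
    have j1 : w / 2 * p ^ 2 * (ka * kb) ≤ w / 2 * p ^ 2 * 10 :=
      mul_le_mul_of_nonneg_left hab (by positivity)
    have j2 : w * p ^ 2 ≤ 0.00928 * p ^ 2 := mul_le_mul_of_nonneg_right hw (by positivity)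
    linarith
  set X := ku + α * ka + β * kb with hX
  have hX2 : X ^ 2 ≤ 10 * (3 - 4 * p) := by
    refine (cs_core (α := α) (β := β) (ka := ka) (kb := kb) (ku := ku)).trans ?_
    have e : 1 + 2 * α ^ 2 + 2 * β ^ 2 = 3 - 4 * p := by linarith
    rw [e]
    exact mul_le_mul_of_nonneg_right hE.le (by linarith)
  have h4 : 1.34 ≤ p * X := by
    have hpp : p ^ 2 ≤ 1 / 16 := by nlinarith
    have : 1.8196 * (1 - p) - 0.00928 * (4.4722 * (1 - 2 * p)) - 0.0464 * p ^ 2 ≤ p * X := by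
      linarith
    linarith
  have h5 : (p * X) ^ 2 ≤ 1.25 := by
    have e : (p * X) ^ 2 = p ^ 2 * X ^ 2 := by ring
    rw [e]
    have k1 : p ^ 2 * X ^ 2 ≤ p ^ 2 * (10 * (3 - 4 * p)) :=
      mul_le_mul_of_nonneg_left hX2 (by positivity)
    have k2 : p ^ 2 * (3 - 4 * p) ≤ 1 / 8 := by
      have : 1 / 8 - p ^ 2 * (3 - 4 * p) = (1 / 4 - p) * (1 / 2 + 2 * p - 4 * p ^ 2) := by ring
      have k3 : 0 ≤ (1 / 4 - p) * (1 / 2 + 2 * p - 4 * p ^ 2) := by
        apply mul_nonneg (by linarith)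
        nlinarith
      linarith
    linarith
  have h6 : (1.34 : ℝ) ^ 2 ≤ (p * X) ^ 2 := pow_le_pow_left₀ (by norm_num) h4 2
  norm_num at h6
  linarith

/-- triangle inequality for the trigonometric identity -/
lemma tri_core {q a b u Pa Pb Pu ca cb : ℝ} (hq : 0 < q) (ha : 0 < a) (hb : 0 < b)
    (hu : 0 < u) (hub : 0 < u ^ 2 - a * b)
    (key : q * (ca * cb) * (u ^ 2 - a * b + q ^ 2) = a * b * Pu -
      cb * Pa * (u * b + q ^ 2) - ca * Pb * (u * a + q ^ 2) - q * (Pa * Pb))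
    (hca1 : |ca| ≤ 1) (hcb1 : |cb| ≤ 1) (hcc : 0.9098 ≤ |ca * cb|) :
    q * 0.9098 * (u ^ 2 - a * b) ≤ a * b * |Pu| + |Pa| * (u * b + q ^ 2) +
      |Pb| * (u * a + q ^ 2) + q * (|Pa| * |Pb|) := by
  have h1 : q * 0.9098 * (u ^ 2 - a * b) ≤ |q * (ca * cb) * (u ^ 2 - a * b + q ^ 2)| := by
    rw [abs_mul, abs_mul, abs_of_pos hq, abs_of_pos (by positivity : 0 < u ^ 2 - a * b + q ^ 2)]
    apply mul_le_mul
    · exact mul_le_mul_of_nonneg_left hcc hq.le
    · have := sq_nonneg q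
      linarith
    · exact hub.le
    · positivity
  refine h1.trans ?_
  rw [key]
  have t1 : |cb * Pa * (u * b + q ^ 2)| ≤ |Pa| * (u * b + q ^ 2) := by
    rw [abs_mul, abs_mul, abs_of_pos (by positivity : 0 < u * b + q ^ 2)]
    apply mul_le_mul_of_nonneg_right _ (by positivity)
    exact mul_le_of_le_one_left (abs_nonneg _) hcb1
  have t2 : |ca * Pb * (u * a + q ^ 2)| ≤ |Pb| * (u * a + q ^ 2) := by
    rw [abs_mul, abs_mul, abs_of_pos (by positivity : 0 < u * a + q ^ 2)]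
    apply mul_le_mul_of_nonneg_right _ (by positivity)
    exact mul_le_of_le_one_left (abs_nonneg _) hca1
  have t3 : |q * (Pa * Pb)| = q * (|Pa| * |Pb|) := by
    rw [abs_mul, abs_mul, abs_of_pos hq]
  have t4 : |a * b * Pu| = a * b * |Pu| := by
    rw [abs_mul, abs_of_pos (mul_pos ha hb)]
  have s1 := abs_sub (a * b * Pu - cb * Pa * (u * b + q ^ 2) - ca * Pb * (u * a + q ^ 2))
    (q * (Pa * Pb))
  have s2 := abs_sub (a * b * Pu - cb * Pa * (u * b + q ^ 2)) (ca * Pb * (u * a + q ^ 2))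
  have s3 := abs_sub (a * b * Pu) (cb * Pa * (u * b + q ^ 2))
  rw [t3] at s1
  rw [t4] at s3
  linarith

/-- the identity -/
lemma key_id {q a b Pa Pb Pu sa ca sb cb : ℝ}
    (eU : Pu = (a + b) * (sa * cb + ca * sb) - q * (ca * cb - sa * sb))
    (eA : a * sa = Pa + q * ca) (eB : b * sb = Pb + q * cb) :
    q * (ca * cb) * ((a + b) ^ 2 - a * b + q ^ 2) = a * b * Pu -
      cb * Pa * ((a + b) * b + q ^ 2) - ca * Pb * ((a + b) * a + q ^ 2) - q * (Pa * Pb) := by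
  have e1 : a * b * Pu = (a + b) * ((a * sa) * (b * cb) + (a * ca) * (b * sb)) -
      q * (a * b * (ca * cb) - (a * sa) * (b * sb)) := by rw [eU]; ring
  rw [e1, eA, eB]; ring

lemma cos_prod {sa ca sb cb : ℝ} (h1 : sa ^ 2 + ca ^ 2 = 1) (h2 : sb ^ 2 + cb ^ 2 = 1)
    (hsa : |sa| ≤ 0.3003) (hsb : |sb| ≤ 0.3003) : 0.9098 ≤ |ca * cb| := by
  have hca : 0.9098 ≤ ca ^ 2 := by
    have : sa ^ 2 ≤ 0.3003 ^ 2 := by
      rw [← sq_abs]; exact pow_le_pow_left₀ (abs_nonneg _) hsa 2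
    norm_num at this
    linarith
  have hcb : 0.9098 ≤ cb ^ 2 := by
    have : sb ^ 2 ≤ 0.3003 ^ 2 := by
      rw [← sq_abs]; exact pow_le_pow_left₀ (abs_nonneg _) hsb 2
    norm_num at this
    linarith
  have h3 : (0.9098 : ℝ) ^ 2 ≤ |ca * cb| ^ 2 := by
    rw [sq_abs, mul_pow, sq (0.9098 : ℝ)]
    exact mul_le_mul hca hcb (by norm_num) (by positivity)
  exact (pow_le_pow_iff_left₀ (by norm_num) (abs_nonneg _) (by norm_num)).mp h3

lemma norm_step {q u α β ka kb ku Pa Pb Pu : ℝ} (hq : 0 < q) (hu : 0 < u) (hα : 0 < α)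
    (hβ : 0 < β) (ha0 : 0 ≤ ka) (hb0 : 0 ≤ kb)
    (hPa : |Pa| ≤ q / 2 * α ^ 2 * ka) (hPb : |Pb| ≤ q / 2 * β ^ 2 * kb)
    (hPu : |Pu| ≤ q / 2 * ku)
    (step : q * 0.9098 * (u ^ 2 - (α * u) * (β * u)) ≤ (α * u) * (β * u) * |Pu| +
      |Pa| * (u * (β * u) + q ^ 2) + |Pb| * (u * (α * u) + q ^ 2) + q * (|Pa| * |Pb|)) :
    1.8196 * (1 - α * β) ≤ α * β * (ku + α * ka + β * kb) +
      q ^ 2 / u ^ 2 * (α ^ 2 * ka + β ^ 2 * kb) +
      q ^ 2 / u ^ 2 / 2 * (α * β) ^ 2 * (ka * kb) := by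
  have hqu : 0 < q / 2 * u ^ 2 := by positivity
  refine le_of_mul_le_mul_left ?_ hqu
  have b1 : (α * u) * (β * u) * |Pu| ≤ (α * u) * (β * u) * (q / 2 * ku) :=
    mul_le_mul_of_nonneg_left hPu (by positivity)
  have b2 : |Pa| * (u * (β * u) + q ^ 2) ≤ q / 2 * α ^ 2 * ka * (u * (β * u) + q ^ 2) :=
    mul_le_mul_of_nonneg_right hPa (by positivity)
  have b3 : |Pb| * (u * (α * u) + q ^ 2) ≤ q / 2 * β ^ 2 * kb * (u * (α * u) + q ^ 2) :=
    mul_le_mul_of_nonneg_right hPb (by positivity)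
  have b4 : q * (|Pa| * |Pb|) ≤ q * ((q / 2 * α ^ 2 * ka) * (q / 2 * β ^ 2 * kb)) :=
    mul_le_mul_of_nonneg_left (mul_le_mul hPa hPb (abs_nonneg _) (by positivity)) hq.le
  have e1 : q / 2 * u ^ 2 * (1.8196 * (1 - α * β)) =
      q * 0.9098 * (u ^ 2 - (α * u) * (β * u)) := by ring
  have e2 : q / 2 * u ^ 2 * (α * β * (ku + α * ka + β * kb) +
      q ^ 2 / u ^ 2 * (α ^ 2 * ka + β ^ 2 * kb) +
      q ^ 2 / u ^ 2 / 2 * (α * β) ^ 2 * (ka * kb)) =
      (α * u) * (β * u) * (q / 2 * ku) + q / 2 * α ^ 2 * ka * (u * (β * u) + q ^ 2) +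
      q / 2 * β ^ 2 * kb * (u * (α * u) + q ^ 2) +
      q * ((q / 2 * α ^ 2 * ka) * (q / 2 * β ^ 2 * kb)) := by
    field_simp
    ring
  rw [e1, e2]
  linarith

lemma E_scale {u A B C : ℝ} (hu : 0 < u) (h : A ^ 2 / 2 + B ^ 2 / 2 + C ^ 2 < 10 / u ^ 4) :
    (u ^ 2 * |A|) ^ 2 / 2 + (u ^ 2 * |B|) ^ 2 / 2 + (u ^ 2 * |C|) ^ 2 < 10 := by
  rw [lt_div_iff₀ (by positivity)] at h
  have : (u ^ 2 * |A|) ^ 2 / 2 + (u ^ 2 * |B|) ^ 2 / 2 + (u ^ 2 * |C|) ^ 2 =
      (A ^ 2 / 2 + B ^ 2 / 2 + C ^ 2) * u ^ 4 := by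
    rw [mul_pow, mul_pow, mul_pow, sq_abs, sq_abs, sq_abs]; ring
  rw [this]; exact h

lemma k_bounds {ka kb ku : ℝ} (ha0 : 0 ≤ ka) (hb0 : 0 ≤ kb)
    (hE : ka ^ 2 / 2 + kb ^ 2 / 2 + ku ^ 2 < 10) :
    ka ≤ 4.4722 ∧ kb ≤ 4.4722 ∧ ka * kb ≤ 10 := by
  have h0 := sq_nonneg ku
  have h1 := sq_nonneg ka
  have h2 := sq_nonneg kb
  refine ⟨?_, ?_, ?_⟩
  · apply le_of_sq_le_sq _ (by norm_num)
    norm_num; linarith
  · apply le_of_sq_le_sq _ (by norm_num)
    norm_num; linarith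
  · have := sq_nonneg (ka - kb)
    linarith

lemma PPx_bound (u : ℝ) (hu : 2 ≤ u) : |PPx u| ≤ qq / 2 * (u ^ 2 * |KK u|) := by
  have hq := qq_pos
  have h1 := KK_eq u
  have h2 : PPx u = qq / 2 * (u ^ 2 - 2) * KK u := by linarith
  have h3 : 0 < u ^ 2 - 2 := by nlinarith
  rw [h2, abs_mul, abs_mul, abs_of_pos (by positivity : 0 < qq / 2), abs_of_pos h3, ← mul_assoc]
  apply mul_le_mul_of_nonneg_right _ (abs_nonneg _)
  apply mul_le_mul_of_nonneg_left _ (by positivity)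
  linarith

lemma main_ineq {a b : ℝ} (ha : 2 * Real.pi ≤ a) (hb : 2 * Real.pi ≤ b) :
    10 / (a + b) ^ 4 ≤ KK a ^ 2 / 2 + KK b ^ 2 / 2 + KK (a + b) ^ 2 := by
  by_contra hcon
  have hcon := not_le.mp hcon
  have hpi := Real.pi_gt_d4
  have hq := qq_pos
  have hq1 := qq_lt
  have ha0 : 0 < a := by linarith
  have hb0 : 0 < b := by linarith
  have hu0 : 0 < a + b := by linarith
  have hE := E_scale hu0 hcon
  have hka0 : 0 ≤ (a + b) ^ 2 * |KK a| := by positivity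
  have hkb0 : 0 ≤ (a + b) ^ 2 * |KK b| := by positivity
  have hku0 : 0 ≤ (a + b) ^ 2 * |KK (a + b)| := by positivity
  obtain ⟨hka1, hkb1, hkab⟩ := k_bounds hka0 hkb0 hE
  obtain ⟨hPa, hsa⟩ := sin_small ha (by linarith) hka1
  obtain ⟨hPb, hsb⟩ := sin_small hb (by linarith) hkb1
  have hPu := PPx_bound (a + b) (by linarith)
  have hcc := cos_prod (Real.sin_sq_add_cos_sq (a / 2)) (Real.sin_sq_add_cos_sq (b / 2)) hsa hsb
  have eU : PPx (a + b) = (a + b) * (Real.sin (a / 2) * Real.cos (b / 2) +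
      Real.cos (a / 2) * Real.sin (b / 2)) - qq * (Real.cos (a / 2) * Real.cos (b / 2) -
      Real.sin (a / 2) * Real.sin (b / 2)) := by
    unfold PPx
    rw [show (a + b) / 2 = a / 2 + b / 2 by ring, Real.sin_add, Real.cos_add]
  have key := key_id eU (show a * Real.sin (a / 2) = PPx a + qq * Real.cos (a / 2) by
    unfold PPx; ring) (show b * Real.sin (b / 2) = PPx b + qq * Real.cos (b / 2) by
    unfold PPx; ring)
  have hub : 0 < (a + b) ^ 2 - a * b := by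
    have : (a + b) ^ 2 - a * b = a ^ 2 + a * b + b ^ 2 := by ring
    rw [this]; positivity
  have step := tri_core hq ha0 hb0 hu0 hub key (Real.abs_cos_le_one _) (Real.abs_cos_le_one _) hcc
  have eα : a / (a + b) * (a + b) = a := by field_simp
  have eβ : b / (a + b) * (a + b) = b := by field_simp
  have hαβ : a / (a + b) + b / (a + b) = 1 := by rw [← add_div, div_self hu0.ne']
  have hw : qq ^ 2 / (a + b) ^ 2 ≤ 0.00928 := by
    rw [div_le_iff₀ (by positivity)]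
    have h1 : qq ^ 2 ≤ 1.21 ^ 2 := pow_le_pow_left₀ hq.le hq1 2
    have h2 : (12.566 : ℝ) ^ 2 ≤ (a + b) ^ 2 := pow_le_pow_left₀ (by norm_num) (by linarith) 2
    norm_num at h1 h2
    linarith
  refine poly_final (div_pos ha0 hu0) (div_pos hb0 hu0) hαβ hka0 hkb0 hku0 hka1 hkb1 hE
    (by positivity) hw hkab
    (norm_step hq hu0 (div_pos ha0 hu0) (div_pos hb0 hu0) hka0 hkb0 hPa hPb hPu ?_)
  rw [eα, eβ]
  exact step

/-- truncated square -/
noncomputable def mm (x : ℝ) : ℝ := min (KK x ^ 2) (1 / 16)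

/-- the pointwise inequality for three consecutive points -/
theorem three_points {a b : ℝ} (ha : 0 ≤ a) (hb : 0 ≤ b) :
    0.000409 - 0.0000175 * (a + b) ≤ mm a / 2 + mm b / 2 + mm (a + b) := by
  have hpi := Real.pi_gt_d4
  have m0 : ∀ x, 0 ≤ mm x := fun x => le_min (sq_nonneg _) (by norm_num)
  have hsmall : ∀ x, 0 ≤ x → x ≤ 2 * Real.pi → 1 / 361 ≤ mm x := by
    intro x h0 h1
    have h2 := KK_large h0 h1
    refine le_min ?_ (by norm_num)
    have h3 : ((1 : ℝ) / 19) ^ 2 ≤ KK x ^ 2 := pow_le_pow_left₀ (by norm_num) h2 2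
    norm_num at h3 ⊢
    exact h3
  have ma := m0 a
  have mb := m0 b
  have mu := m0 (a + b)
  rcases le_or_gt a (2 * Real.pi) with h1 | h1
  · have := hsmall a ha h1
    norm_num at this ⊢
    linarith
  rcases le_or_gt b (2 * Real.pi) with h2 | h2
  · have := hsmall b hb h2
    norm_num at this ⊢
    linarith
  have h3 := main_ineq h1.le h2.le
  have hu : 0 < a + b := by linarith
  -- the line lies below `10 / u ^ 4`
  have hline : 0.000409 - 0.0000175 * (a + b) ≤ 10 / (a + b) ^ 4 := by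
    rw [le_div_iff₀ (by positivity)]
    generalize a + b = u at hu
    have e : 10 - (0.000409 - 0.0000175 * u) * u ^ 4 =
        0.000004375 * ((u - 3272 / 175) ^ 2 * (4 * u ^ 3 + 3 * (3272 / 175) * u ^ 2 +
          2 * (3272 / 175) ^ 2 * u + (3272 / 175) ^ 3)) +
        (10 - 0.000004375 * (3272 / 175) ^ 5) := by ring
    have h4 : 0 ≤ (u - 3272 / 175) ^ 2 * (4 * u ^ 3 + 3 * (3272 / 175) * u ^ 2 +
          2 * (3272 / 175) ^ 2 * u + (3272 / 175) ^ 3) := by positivity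
    have h5 : (0 : ℝ) ≤ 10 - 0.000004375 * (3272 / 175) ^ 5 := by norm_num
    linarith
  have hA : 0.000409 - 0.0000175 * (a + b) ≤ 1 / 32 := by
    norm_num; linarith
  unfold mm at *
  rcases le_total (KK a ^ 2) (1 / 16) with c1 | c1
  · rcases le_total (KK b ^ 2) (1 / 16) with c2 | c2
    · rcases le_total (KK (a + b) ^ 2) (1 / 16) with c3 | c3
      · rw [min_eq_left c1, min_eq_left c2, min_eq_left c3]
        linarith
      · rw [min_eq_right c3]
        linarith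
    · rw [min_eq_right c2]
      linarith
  · rw [min_eq_right c1]
    linarith

end H370.Expl
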