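import Pool.Agent.H370R2.Defs

open Complex Filter Topology Set MeasureTheory

namespace H370

theorem triples (S : Finset ℝ) (A w : ℝ) (K : ℕ) (hw : 0 < w)
    (hS : ∀ x ∈ S, A < x ∧ x ≤ A + K * w) :
    ∃ n : ℕ, (S.card : ℝ) ≤ 3 * n + 2 * K ∧ ∃ f : Fin n × Fin 3 → ℝ, Function.Injective f ∧
      (∀ i, f i ∈ S) ∧ ∀ i, f (i, 0) < f (i, 1) ∧ f (i, 1) < f (i, 2) ∧ f (i, 2) - f (i, 0) ≤ w := by
  classical
  induction' hc : S.card using Nat.strong_induction_on with c ih generalizing S
  by_cases hle : S.card ≤ 2 * K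
  · refine ⟨0, ?_, fun i => i.1.elim0, fun i => i.1.elim0, fun i => i.1.elim0, fun i => i.elim0⟩
    rw [← hc]
    have : (S.card : ℝ) ≤ ((2 * K : ℕ) : ℝ) := by exact_mod_cast hle
    push_cast at this ⊢
    linarith
  · push Not at hle
    have hmap : ∀ x ∈ S, ⌈(x - A) / w⌉₊ ∈ Finset.Icc 1 K := by
      intro x hx
      obtain ⟨h1, h2⟩ := hS x hx
      have h3 : 0 < (x - A) / w := div_pos (by linarith) hw
      have h4 : (x - A) / w ≤ K := by
        rw [div_le_iff₀ hw]; linarith
      rw [Finset.mem_Icc]
      exact ⟨Nat.one_le_iff_ne_zero.mpr (Nat.ceil_pos.mpr h3).ne', Nat.ceil_le.mpr h4⟩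
    obtain ⟨j, hj, hj3⟩ := Finset.exists_lt_card_fiber_of_mul_lt_card_of_maps_to
      (s := S) (t := Finset.Icc 1 K) (f := fun x => ⌈(x - A) / w⌉₊) (n := 2) hmap (by
        simpa [mul_comm] using hle)
    have hdiam : ∀ x ∈ S.filter (fun x => ⌈(x - A) / w⌉₊ = j),
        ∀ y ∈ S.filter (fun x => ⌈(x - A) / w⌉₊ = j), x - y ≤ w := by
      intro x hx y hy
      rw [Finset.mem_filter] at hx hy
      obtain ⟨hxS, hx1⟩ := hx
      obtain ⟨hyS, hy1⟩ := hy
      have hj1 : 1 ≤ j := (Finset.mem_Icc.mp hj).1
      have h1 : (x - A) / w ≤ j := by rw [← hx1]; exact Nat.le_ceil _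
      have h2 : ((j : ℝ) - 1) < (y - A) / w := by
        have := Nat.ceil_lt_add_one (div_pos (by linarith [(hS y hyS).1] : (0:ℝ) < y - A) hw).le
        rw [hy1] at this
        linarith
      rw [div_le_iff₀ hw] at h1
      rw [lt_div_iff₀ hw] at h2
      nlinarith
    obtain ⟨a, ha, b, hb, d, hd, hab, had, hbd⟩ := Finset.two_lt_card.mp hj3
    -- order the three points
    obtain ⟨p, hp0, hp1, hpm⟩ : ∃ p : Fin 3 → ℝ, p 0 < p 1 ∧ p 1 < p 2 ∧
        ∀ i, p i ∈ S.filter (fun x => ⌈(x - A) / w⌉₊ = j) := by
      have key : ∀ a b d : ℝ, a ∈ S.filter (fun x => ⌈(x - A) / w⌉₊ = j) →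
          b ∈ S.filter (fun x => ⌈(x - A) / w⌉₊ = j) →
          d ∈ S.filter (fun x => ⌈(x - A) / w⌉₊ = j) → a < b → b < d →
          ∃ p : Fin 3 → ℝ, p 0 < p 1 ∧ p 1 < p 2 ∧
            ∀ i, p i ∈ S.filter (fun x => ⌈(x - A) / w⌉₊ = j) := by
        intro a b d ha hb hd h1 h2
        refine ⟨![a, b, d], by simpa using h1, by simpa using h2, ?_⟩
        intro i
        fin_cases i
        · simpa using ha
        · simpa using hb
        · simpa using hd
      rcases lt_or_gt_of_ne hab with h1 | h1 <;> rcases lt_or_gt_of_ne had with h2 | h2 <;>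
        rcases lt_or_gt_of_ne hbd with h3 | h3
      · exact key a b d ha hb hd h1 h3
      · exact key a d b ha hd hb h2 h3
      · exact absurd (h1.trans h3) (not_lt.mpr h2.le)
      · exact key d a b hd ha hb h2 h1
      · exact key b a d hb ha hd h1 h2
      · exact absurd (h3.trans h1) (not_lt.mpr h2.le)
      · exact key b d a hb hd ha h3 h2
      · exact key d b a hd hb ha h3 h1
    have hpinj : Function.Injective p := by
      have hmono : StrictMono p := by
        rw [Fin.strictMono_iff_lt_succ]
        intro i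
        fin_cases i
        · exact hp0
        · exact hp1
      exact hmono.injective
    set P : Finset ℝ := Finset.univ.image p with hP
    have hPS : P ⊆ S := by
      intro x hx
      obtain ⟨i, -, rfl⟩ := Finset.mem_image.mp hx
      exact (Finset.mem_filter.mp (hpm i)).1
    have hPc : P.card = 3 := by
      rw [hP, Finset.card_image_of_injective _ hpinj]; simp
    have hcard : (S \ P).card + 3 = S.card := by
      have h2 := Finset.card_sdiff_add_card_eq_card hPS
      omega
    obtain ⟨n, hn, f, hf1, hf2, hf3⟩ := ih (S \ P).card (by omega) (S \ P)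
      (fun x hx => hS x (Finset.mem_sdiff.mp hx).1) rfl
    refine ⟨n + 1, ?_, fun i => Fin.cases (p i.2) (fun k => f (k, i.2)) i.1, ?_, ?_, ?_⟩
    · have : (c : ℝ) = ((S \ P).card : ℝ) + 3 := by
        rw [← hc, ← hcard]; push_cast; ring
      rw [this]; push_cast; linarith
    · rintro ⟨i, r⟩ ⟨k, s⟩ h
      induction i using Fin.cases with
      | zero =>
        induction k using Fin.cases with
        | zero =>
          simp only [Fin.cases_zero] at h
          rw [hpinj h]
        | succ k =>
          exfalso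
          simp only [Fin.cases_zero, Fin.cases_succ] at h
          have h1 := (Finset.mem_sdiff.mp (hf2 (k, s))).2
          exact h1 (h ▸ Finset.mem_image_of_mem p (Finset.mem_univ r))
      | succ i =>
        induction k using Fin.cases with
        | zero =>
          exfalso
          simp only [Fin.cases_zero, Fin.cases_succ] at h
          have h1 := (Finset.mem_sdiff.mp (hf2 (i, r))).2
          exact h1 (h ▸ Finset.mem_image_of_mem p (Finset.mem_univ s))
        | succ k =>
          simp only [Fin.cases_succ] at h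
          have := hf1 h
          simp only [Prod.mk.injEq] at this
          rw [this.1, this.2]
    · rintro ⟨i, r⟩
      induction i using Fin.cases with
      | zero => exact (Finset.mem_filter.mp (hpm r)).1
      | succ i => exact (Finset.mem_sdiff.mp (hf2 (i, r))).1
    · intro i
      induction i using Fin.cases with
      | zero => exact ⟨hp0, hp1, hdiam _ (hpm 2) _ (hpm 0)⟩
      | succ i => exact hf3 i

end H370
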