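import Pool.Agent.H370R2.Defs2
import Pool.Agent.H370R2.Kern
import Pool.Agent.H370R2.Gram
import Pool.Agent.H370R2.NT
import Pool.Agent.H370R2.MV
import Pool.Agent.H370R2.Local
import Pool.Agent.H370R2.EF
import Pool.Agent.H370R2.Count
import Pool.Agent.H370R2.Triples
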