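import Pool.Agent.H370R2.Defs
import Pool.Agent.H370R2.Kdef

open Complex Filter Topology Set MeasureTheory

namespace H370

/-- the Gaussian test function -/
noncomputable def hh (u t : ℝ) (s : ℂ) : ℂ :=
  cexp (u * (s - 1 / 2)) * cexp ((s - 1 / 2 - I * t) ^ 2 / 2)

/-- the prime side -/
noncomputable def PP (a : ℕ → ℂ) (u t : ℝ) : ℂ :=
  ∑' n : ℕ, a n * (Real.sqrt n : ℂ)⁻¹ * cexp (I * t * (u - Real.log n)) *
    Real.exp (-(u - Real.log n) ^ 2 / 2)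

/-- the zero side -/
noncomputable def AA (F : ℂ → ℂ) (U1 U2 u t : ℝ) : ℂ :=
  ∑ᶠ s ∈ zset F U1 U2, (mult F s : ℂ) * hh u t s

/-- the zero parameter `z` with `s = 1/2 + i z` -/
noncomputable def zz (s : ℂ) : ℂ := -I * (s - 1 / 2)

noncomputable def QQ (F : ℂ → ℂ) (Λ U1 U2 : ℝ) : ℝ :=
  (∑ᶠ s ∈ zset F U1 U2, ∑ᶠ s' ∈ zset F U1 U2,
    (mult F s : ℂ) * (mult F s' : ℂ) * (phi Λ (zz s - zz s')) ^ 2).re

end H370
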