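import Pool.Agent.H370R2.PC
import Pool.Agent.H370R2.Fin1

open Complex Filter Topology Set MeasureTheory
open scoped BigOperators ComplexConjugate

namespace H370

/-- A lower bound for the gain from test matrices, for every sufficiently dense set of ordinates -/
def YHyp (s1 κ : ℝ) : Prop :=
  ∃ θ : ℝ, 0 < θ ∧ ∃ T1 : ℝ, ∀ T : ℝ, T1 ≤ T → ∀ Λ : ℝ, (1 - θ) * Real.log T ≤ Λ →
    Λ ≤ Real.log T → ∀ S : Finset ℝ, (∀ x ∈ S, T < x ∧ x ≤ 2 * T) →
    s1 * (T * Real.log T / (2 * Real.pi)) ≤ (S.card : ℝ) →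
    ∃ Y : ℝ → ℝ → ℝ,
      (∀ v : ℝ → ℂ, ∑ x ∈ S, ∑ y ∈ S, Y x y * (conj (v x) * v y).re ≤ ∑ x ∈ S, ‖v x‖ ^ 2) ∧
      κ * (T * Real.log T / (2 * Real.pi)) ≤ YT Λ S Y

lemma YT_zero (Λ : ℝ) (S : Finset ℝ) : YT Λ S (fun _ _ => 0) = 0 := by
  unfold YT; simp

lemma Jint_nonneg : 0 ≤ ∫ α in (0 : ℝ)..1, α * Rf α := by
  apply intervalIntegral.integral_nonneg (by norm_num)
  intro u hu
  exact mul_nonneg hu.1 (Rf_nonneg u)

theorem main_of_Y {F : ℂ → ℂ} (hF : GoodL F) (s1 κ κ' : ℝ) (hκ1 : κ ≤ 1) (hκ0 : 0 ≤ κ')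
    (hκ : κ' < κ) (hs1 : s1 < 2 - cMTinv) (H : YHyp s1 κ) :
    ∃ T0 : ℝ, ∀ T : ℝ, T0 ≤ T →
      (2 - cMTinv + κ') * (NN F T (2 * T) : ℝ) ≤ (Ns F T (2 * T) : ℝ) ∧
      ((3 - cMTinv + κ') / 2) * (NN F T (2 * T) : ℝ) ≤ (Nd F T (2 * T) : ℝ) := by
  obtain ⟨θ, hθ, T1, H⟩ := H
  set J : ℝ := ∫ α in (0 : ℝ)..1, α * Rf α with hJ
  have hJ0 : 0 ≤ J := Jint_nonneg
  have hR0 : 0 ≤ Rf 0 := Rf_nonneg 0
  have hcM : Rf 0 + 2 * J = cMTinv := Rf_const
  have hcM2 := cMTinv_lt
  set e : ℝ := min (min (κ - κ') (2 - cMTinv - s1)) 1 with he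
  have he0 : 0 < e := lt_min (lt_min (by linarith) (by linarith)) one_pos
  have he1 : e ≤ κ - κ' := (min_le_left _ _).trans (min_le_left _ _)
  have he2 : e ≤ 2 - cMTinv - s1 := (min_le_left _ _).trans (min_le_right _ _)
  have he3 : e ≤ 1 := min_le_right _ _
  set η : ℝ := e / 80 with hη
  have hη0 : 0 < η := by positivity
  set ε : ℝ := min (min (1 / 4) θ) (e / (8 * (Rf 0 + 1))) with hε
  have hε0 : 0 < ε := lt_min (lt_min (by norm_num) hθ) (by positivity)
  have hε1 : ε ≤ 1 / 4 := (min_le_left _ _).trans (min_le_left _ _)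
  have hε2 : ε ≤ θ := (min_le_left _ _).trans (min_le_right _ _)
  have hε3 : ε * (8 * (Rf 0 + 1)) ≤ e := by
    have := min_le_right (min (1 / 4) θ) (e / (8 * (Rf 0 + 1)))
    rw [← hε, le_div_iff₀ (by positivity)] at this
    exact this
  have hε4 : 2 * ε * Rf 0 ≤ e / 4 := by nlinarith
  obtain ⟨T2, hT2, hPC⟩ := pair_corr hF ε η hε0 (by linarith) hη0
  obtain ⟨C, hC, hends⟩ := NN_ends hF
  refine ⟨max (max T1 T2) (max 10 (2 * Real.pi * C * 32 / e)), fun T hT => ?_⟩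
  have hTT1 : T1 ≤ T := ((le_max_left _ _).trans (le_max_left _ _)).trans hT
  have hTT2 : T2 ≤ T := ((le_max_right _ _).trans (le_max_left _ _)).trans hT
  have hT10 : 10 ≤ T := ((le_max_left _ _).trans (le_max_right _ _)).trans hT
  have hTC : 2 * Real.pi * C * 32 / e ≤ T := ((le_max_right _ _).trans (le_max_right _ _)).trans hT
  obtain ⟨U1, U2, hU1, hU1', hU2, hU2', hNN, hQQ⟩ := hPC T hTT2
  have hL : 0 < Real.log T := Real.log_pos (by linarith)
  set M : ℝ := T * Real.log T / (2 * Real.pi) with hM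
  have hpi := Real.pi_pos
  have hM0 : 0 < M := by positivity
  have hTL : T * Real.log T = 2 * Real.pi * M := by rw [hM]; field_simp
  rw [hTL] at hNN
  have hpi2 : Real.pi < 3.15 := Real.pi_lt_d2
  have hηM : η * (2 * Real.pi * M) ≤ (7 * e / 80) * M := by
    have : 2 * Real.pi ≤ 7 := by linarith
    calc η * (2 * Real.pi * M) = (η * M) * (2 * Real.pi) := by ring
      _ ≤ (η * M) * 7 := by
        apply mul_le_mul_of_nonneg_left this (by positivity)
      _ = (7 * e / 80) * M := by rw [hη]; ring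
  obtain ⟨hNNl, hNNu⟩ := abs_le.mp hNN
  have h1e : 1 / (1 - ε) ≤ 1 + 2 * ε := by
    rw [div_le_iff₀ (by linarith)]
    nlinarith
  have hQ2 : QQ F ((1 - ε) * Real.log T) U1 U2 ≤ M * (cMTinv + 2 * ε * Rf 0 + η) := by
    refine hQQ.trans ?_
    apply mul_le_mul_of_nonneg_left _ hM0.le
    have : Rf 0 / (1 - ε) ≤ (1 + 2 * ε) * Rf 0 := by
      rw [div_eq_mul_one_div, mul_comm]
      exact mul_le_mul_of_nonneg_right h1e hR0
    have h2 : 2 * (1 - ε) * J ≤ 2 * J := by nlinarith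
    rw [← hcM]
    linarith
  have hQ3 : QQ F ((1 - ε) * Real.log T) U1 U2 ≤ M * (cMTinv + e / 4 + e / 80) := by
    refine hQ2.trans ?_
    apply mul_le_mul_of_nonneg_left _ hM0.le
    rw [hη]; linarith
  have hU : 1 ≤ U1 := by linarith
  have hb := (trace_zeros (U2 := U2) hF hU ((1 - ε) * Real.log T) (fun _ _ => 0) (by
    intro v
    simp only [zero_mul, Finset.sum_const_zero]
    exact Finset.sum_nonneg fun x _ => by positivity)).1
  rw [YT_zero] at hb
  have hs : s1 * M ≤ ((SF F U1 U2).card : ℝ) := by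
    rw [← Ns_card hF hU]
    have h3 : s1 * M ≤ (2 - cMTinv - e) * M := mul_le_mul_of_nonneg_right (by linarith) hM0.le
    nlinarith
  obtain ⟨Y, hY, hYT⟩ := H T hTT1 ((1 - ε) * Real.log T)
    (mul_le_mul_of_nonneg_right (by linarith) hL.le) (by nlinarith) (SF F U1 U2)
    (fun x hx => ⟨by linarith [(SF_mem hF hU hx).1], by linarith [(SF_mem hF hU hx).2]⟩) hs
  obtain ⟨hb1, hb2⟩ := trace_zeros hF hU ((1 - ε) * Real.log T) Y hY
  have hNsm : (Ns F U1 U2 : ℝ) ≤ Ns F T (2 * T) := by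
    exact_mod_cast Ns_mono hF (by linarith) hU1 hU2'
  have hNdm : (Nd F U1 U2 : ℝ) ≤ Nd F T (2 * T) := by
    exact_mod_cast Nd_mono hF (by linarith) hU1 hU2'
  have hend := hends T hT10 U1 U2 hU1 hU1' hU2 hU2'
  have hCL : C * Real.log T ≤ e / 32 * M := by
    rw [hM]
    rw [div_le_iff₀ he0] at hTC
    have : e / 32 * (T * Real.log T / (2 * Real.pi)) =
      (T * e) * (Real.log T / (64 * Real.pi)) := by ring
    rw [this]
    calc C * Real.log T = (2 * Real.pi * C * 32) * (Real.log T / (64 * Real.pi)) := by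
          field_simp; ring
      _ ≤ (T * e) * (Real.log T / (64 * Real.pi)) :=
        mul_le_mul_of_nonneg_right hTC (by positivity)
  have hNtot : (NN F T (2 * T) : ℝ) ≤ M * (1 + 7 * e / 80 + e / 32) := by linarith
  have hcM0 : 0 ≤ cMTinv := by rw [← hcM]; positivity
  constructor
  · calc (2 - cMTinv + κ') * (NN F T (2 * T) : ℝ)
        ≤ (2 - cMTinv + κ') * (M * (1 + 7 * e / 80 + e / 32)) :=
          mul_le_mul_of_nonneg_left hNtot (by linarith)
      _ ≤ (2 - cMTinv + κ' + e / 2) * M := by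
          have h5 : (2 - cMTinv + κ') * (7 * e / 80 + e / 32) ≤ 3 * (7 * e / 80 + e / 32) :=
            mul_le_mul_of_nonneg_right (by linarith) (by positivity)
          have h6 : (2 - cMTinv + κ') * (1 + 7 * e / 80 + e / 32) ≤ 2 - cMTinv + κ' + e / 2 := by
            nlinarith
          calc (2 - cMTinv + κ') * (M * (1 + 7 * e / 80 + e / 32))
              = ((2 - cMTinv + κ') * (1 + 7 * e / 80 + e / 32)) * M := by ring
            _ ≤ _ := mul_le_mul_of_nonneg_right h6 hM0.le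
      _ ≤ (Ns F T (2 * T) : ℝ) := by
            have h7 : (κ' + e) * M ≤ κ * M := mul_le_mul_of_nonneg_right (by linarith) hM0.le
            have h8 : 0 ≤ e * M := by positivity
            linarith
  · have : (3 - cMTinv + κ') * (NN F T (2 * T) : ℝ) ≤ 2 * (Nd F T (2 * T) : ℝ) := by
      calc (3 - cMTinv + κ') * (NN F T (2 * T) : ℝ)
          ≤ (3 - cMTinv + κ') * (M * (1 + 7 * e / 80 + e / 32)) :=
            mul_le_mul_of_nonneg_left hNtot (by linarith)
        _ ≤ (3 - cMTinv + κ' + 19 * e / 40) * M := by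
            have h5 : (3 - cMTinv + κ') * (7 * e / 80 + e / 32) ≤ 4 * (7 * e / 80 + e / 32) :=
              mul_le_mul_of_nonneg_right (by linarith) (by positivity)
            have h6 : (3 - cMTinv + κ') * (1 + 7 * e / 80 + e / 32) ≤ 3 - cMTinv + κ' + 19 * e / 40 := by
              nlinarith
            calc (3 - cMTinv + κ') * (M * (1 + 7 * e / 80 + e / 32))
                = ((3 - cMTinv + κ') * (1 + 7 * e / 80 + e / 32)) * M := by ring
              _ ≤ _ := mul_le_mul_of_nonneg_right h6 hM0.le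
        _ ≤ 2 * (Nd F T (2 * T) : ℝ) := by
            have h7 : (κ' + e) * M ≤ κ * M := mul_le_mul_of_nonneg_right (by linarith) hM0.le
            linarith
    linarith

end H370
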