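import Pool.Agent.H370R2.Fin3
import Pool.Agent.H370R2.Fin2

open Complex Filter Topology Set MeasureTheory
open scoped BigOperators ComplexConjugate

namespace H370

lemma phi_re (Λ r : ℝ) : (phi Λ (r : ℂ)).re = (kap ((Λ * r : ℝ) : ℂ)).re * Real.exp (-r ^ 2 / 8) := by
  unfold phi
  have h1 : cexp (-(r : ℂ) ^ 2 / 8) = ((Real.exp (-r ^ 2 / 8) : ℝ) : ℂ) := by
    push_cast; rfl
  rw [h1, Complex.re_mul_ofReal]
  push_cast; rfl

lemma phi_sub_re (Λ x y : ℝ) : (phi Λ ((x : ℂ) - y)).re =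
    (kap ((Λ * (x - y) : ℝ) : ℂ)).re * Real.exp (-(x - y) ^ 2 / 8) := by
  rw [← phi_re]; push_cast; rfl

lemma phi_sub_symm (Λ x y : ℝ) : (phi Λ ((x : ℂ) - y)).re = (phi Λ ((y : ℂ) - x)).re := by
  rw [← phi_even]; congr 2; ring

lemma phi_abs_le (Λ x y : ℝ) : |(phi Λ ((x : ℂ) - y)).re| ≤ 1 := by
  obtain ⟨E, iE1, iE2, k, hk⟩ := gram_exists Λ
  have h1 : ∀ x : ℝ, ‖k (x : ℂ)‖ = 1 := by
    intro x
    have := hk x x
    rw [Complex.conj_ofReal, sub_self, phi_zero] at this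
    have h2 : ‖k (x : ℂ)‖ ^ 2 = 1 := by
      have h3 := inner_self_eq_norm_sq (𝕜 := ℂ) (k (x : ℂ))
      rw [this] at h3
      simpa using h3.symm
    nlinarith [norm_nonneg (k (x : ℂ))]
  have h2 := hk (y : ℂ) (x : ℂ)
  rw [Complex.conj_ofReal] at h2
  rw [← h2]
  refine (Complex.abs_re_le_norm _).trans ?_
  refine (norm_inner_le_norm _ _).trans ?_
  rw [h1, h1, one_mul]

lemma gersh (B : Finset ℝ) (y0 : ℝ → ℝ → ℝ) (h1 : ∀ p ∈ B, ∑ q ∈ B, |y0 p q| ≤ 1)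
    (h2 : ∀ q ∈ B, ∑ p ∈ B, |y0 p q| ≤ 1) (v : ℝ → ℂ) :
    ∑ x ∈ B, ∑ y ∈ B, y0 x y * (conj (v x) * v y).re ≤ ∑ x ∈ B, ‖v x‖ ^ 2 := by
  have h3 : ∀ x y : ℝ, y0 x y * (conj (v x) * v y).re ≤
      |y0 x y| * (‖v x‖ ^ 2 / 2) + |y0 x y| * (‖v y‖ ^ 2 / 2) := by
    intro x y
    calc y0 x y * (conj (v x) * v y).re ≤ |y0 x y * (conj (v x) * v y).re| := le_abs_self _
      _ = |y0 x y| * |(conj (v x) * v y).re| := abs_mul _ _
      _ ≤ |y0 x y| * (‖v x‖ * ‖v y‖) := by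
          apply mul_le_mul_of_nonneg_left _ (abs_nonneg _)
          refine (Complex.abs_re_le_norm _).trans ?_
          rw [norm_mul, Complex.norm_conj]
      _ ≤ _ := by
          rw [← mul_add]
          apply mul_le_mul_of_nonneg_left _ (abs_nonneg _)
          nlinarith [sq_nonneg (‖v x‖ - ‖v y‖)]
  calc ∑ x ∈ B, ∑ y ∈ B, y0 x y * (conj (v x) * v y).re
      ≤ ∑ x ∈ B, ∑ y ∈ B, (|y0 x y| * (‖v x‖ ^ 2 / 2) + |y0 x y| * (‖v y‖ ^ 2 / 2)) :=
        Finset.sum_le_sum fun x _ => Finset.sum_le_sum fun y _ => h3 x y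
    _ = ∑ x ∈ B, (∑ y ∈ B, |y0 x y|) * (‖v x‖ ^ 2 / 2) +
        ∑ y ∈ B, (∑ x ∈ B, |y0 x y|) * (‖v y‖ ^ 2 / 2) := by
        simp_rw [Finset.sum_add_distrib, Finset.sum_mul]
        congr 1
        exact Finset.sum_comm
    _ ≤ ∑ x ∈ B, 1 * (‖v x‖ ^ 2 / 2) + ∑ y ∈ B, 1 * (‖v y‖ ^ 2 / 2) := by
        refine add_le_add (Finset.sum_le_sum fun x hx => ?_) (Finset.sum_le_sum fun x hx => ?_)
        · exact mul_le_mul_of_nonneg_right (h1 x hx) (by positivity)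
        · exact mul_le_mul_of_nonneg_right (h2 x hx) (by positivity)
    _ = ∑ x ∈ B, ‖v x‖ ^ 2 := by
        rw [← Finset.sum_add_distrib]
        refine Finset.sum_congr rfl fun x _ => by ring

/-- the test matrix `t·(φ - 1)` -/
noncomputable def yt (Λ t x y : ℝ) : ℝ := if x = y then 0 else t * (phi Λ ((x : ℂ) - y)).re

lemma yt_abs_le (Λ t x y : ℝ) (ht : 0 ≤ t) : |yt Λ t x y| ≤ if x = y then 0 else t := by
  unfold yt
  split_ifs with h
  · simp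
  · rw [abs_mul, abs_of_nonneg ht]
    have := phi_abs_le Λ x y
    nlinarith

/-- a block with at most `k+1` points can be used with `t = 1/k` -/
lemma yt_block (Λ t : ℝ) (k : ℕ) (ht : 0 ≤ t) (hk : (k : ℝ) * t ≤ 1) (B : Finset ℝ)
    (hB : B.card ≤ k + 1) (v : ℝ → ℂ) :
    ∑ x ∈ B, ∑ y ∈ B, yt Λ t x y * (conj (v x) * v y).re ≤ ∑ x ∈ B, ‖v x‖ ^ 2 := by
  classical
  have hr : ∀ p ∈ B, ∑ q ∈ B, (if p = q then (0 : ℝ) else t) ≤ 1 := by
    intro p hp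
    have h1 : ∑ q ∈ B, (if p = q then (0 : ℝ) else t) = ∑ q ∈ B.erase p, t := by
      rw [← Finset.add_sum_erase B _ hp, if_pos rfl, zero_add]
      refine Finset.sum_congr rfl fun q hq => ?_
      rw [if_neg (Finset.ne_of_mem_erase hq).symm]
    rw [h1, Finset.sum_const, Finset.card_erase_of_mem hp, nsmul_eq_mul]
    refine le_trans ?_ hk
    apply mul_le_mul_of_nonneg_right _ ht
    exact_mod_cast (by omega : B.card - 1 ≤ k)
  apply gersh
  · intro p hp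
    exact (Finset.sum_le_sum fun q _ => yt_abs_le Λ t p q ht).trans (hr p hp)
  · intro q hq
    refine (Finset.sum_le_sum fun p _ => yt_abs_le Λ t p q ht).trans ?_
    have := hr q hq
    simpa only [eq_comm] using this

lemma YT_yt (Λ t : ℝ) (B : Finset ℝ) : YT Λ B (yt Λ t) =
    (2 * t - t ^ 2) * ∑ x ∈ B, ∑ y ∈ B, (if x = y then 0 else (phi Λ ((x : ℂ) - y)).re ^ 2) := by
  unfold YT
  rw [Finset.mul_sum, Finset.mul_sum, ← Finset.sum_sub_distrib]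
  refine Finset.sum_congr rfl fun x _ => ?_
  rw [Finset.mul_sum, Finset.mul_sum, ← Finset.sum_sub_distrib]
  refine Finset.sum_congr rfl fun y _ => ?_
  unfold yt
  split_ifs <;> ring

lemma YT_triple (Λ t : ℝ) (x1 x2 x3 : ℝ) (h12 : x1 < x2) (h23 : x2 < x3) :
    YT Λ {x1, x2, x3} (yt Λ t) = 2 * (2 * t - t ^ 2) * ((phi Λ ((x2 : ℂ) - x1)).re ^ 2 +
      (phi Λ ((x3 : ℂ) - x2)).re ^ 2 + (phi Λ ((x3 : ℂ) - x1)).re ^ 2) := by
  rw [YT_yt]
  have n12 : x1 ≠ x2 := h12.ne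
  have n23 : x2 ≠ x3 := h23.ne
  have n13 : x1 ≠ x3 := (h12.trans h23).ne
  have e1 : x1 ∉ ({x2, x3} : Finset ℝ) := by simp [n12, n13]
  have e2 : x2 ∉ ({x3} : Finset ℝ) := by simp [n23]
  simp only [Finset.sum_insert e1, Finset.sum_insert e2, Finset.sum_singleton, if_true,
    if_neg n12, if_neg n12.symm, if_neg n23, if_neg n23.symm, if_neg n13, if_neg n13.symm]
  rw [phi_sub_symm Λ x1 x2, phi_sub_symm Λ x2 x3, phi_sub_symm Λ x1 x3]
  ring

lemma phi_sq_lower (Λ x y : ℝ) (h : |x - y| ≤ 1) :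
    (3 / 4) * (kap ((Λ * (x - y) : ℝ) : ℂ)).re ^ 2 ≤ (phi Λ ((x : ℂ) - y)).re ^ 2 := by
  rw [phi_sub_re, mul_pow, mul_comm (3 / 4 : ℝ)]
  apply mul_le_mul_of_nonneg_left _ (sq_nonneg _)
  rw [← Real.exp_nat_mul]
  have h1 := Real.add_one_le_exp (((2 : ℕ) : ℝ) * (-(x - y) ^ 2 / 8))
  have h2 : (x - y) ^ 2 ≤ 1 := by
    rw [← sq_abs]; nlinarith [abs_nonneg (x - y)]
  refine le_trans ?_ h1
  push_cast
  linarith

theorem yhyp_triples : ∃ κ : ℝ, 0 < κ ∧ κ ≤ 1 ∧ YHyp (1 / 2) κ := by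
  classical
  obtain ⟨c, hc, hgap⟩ := kap_gap 100 (by norm_num)
  refine ⟨min 1 (c / 8), lt_min one_pos (by positivity), min_le_left _ _, 1, one_pos,
    Real.exp 2000, fun T hT Λ hΛ0 hΛ1 S hS hcard => ?_⟩
  have hT0 : 0 < T := (Real.exp_pos _).trans_le hT
  set L := Real.log T with hL
  have hL1 : 2000 ≤ L := by
    rw [hL, Real.le_log_iff_exp_le hT0]; exact hT
  have hT1 : 1 ≤ T := by
    refine le_trans ?_ hT
    rw [show (1 : ℝ) = Real.exp 0 by simp]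
    exact Real.exp_le_exp.mpr (by norm_num)
  have hΛ0' : 0 ≤ Λ := by linarith
  have hpi := Real.pi_pos
  have hpi1 : Real.pi < 3.15 := Real.pi_lt_d2
  set M : ℝ := T * L / (2 * Real.pi) with hM
  have hTL : T * L = 2 * Real.pi * M := by rw [hM]; field_simp
  have hTL2 : 2000 ≤ T * L := by nlinarith
  have hM0 : 200 ≤ M := by
    rw [hM, le_div_iff₀ (by positivity)]
    linarith
  -- cells
  set w : ℝ := 100 / L with hw
  have hLpos : 0 < L := by linarith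
  have hw0 : 0 < w := by positivity
  have hw1 : w ≤ 1 := by rw [hw, div_le_one hLpos]; linarith
  set K : ℕ := ⌈T * L / 100⌉₊ with hK
  have hK1 : T * L / 100 ≤ K := Nat.le_ceil _
  have hK2 : (K : ℝ) < T * L / 100 + 1 := Nat.ceil_lt_add_one (by positivity)
  have hKw : T ≤ K * w := by
    rw [hw]
    calc T = (T * L / 100) * (100 / L) := by field_simp
      _ ≤ K * (100 / L) := mul_le_mul_of_nonneg_right hK1 (by positivity)
  obtain ⟨n, hn, f, hf, hfS, hford⟩ := triples S T w K hw0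
    (fun x hx => ⟨(hS x hx).1, by linarith [(hS x hx).2]⟩)
  have hn2 : (3 / 25 : ℝ) * M ≤ n := by
    have : (K : ℝ) < 0.063 * M + 1 := by
      refine hK2.trans_le ?_
      rw [hTL]
      nlinarith
    linarith
  have hsub : ∀ i ∈ (Finset.univ : Finset (Fin n)), ({f (i, 0), f (i, 1), f (i, 2)} : Finset ℝ) ⊆ S := by
    intro i _ x hx
    simp only [Finset.mem_insert, Finset.mem_singleton] at hx
    rcases hx with rfl | rfl | rfl <;> exact hfS _
  have hmemf : ∀ (i : Fin n) (x : ℝ), x ∈ ({f (i, 0), f (i, 1), f (i, 2)} : Finset ℝ) →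
      ∃ a, x = f (i, a) := by
    intro i x hx
    simp only [Finset.mem_insert, Finset.mem_singleton] at hx
    rcases hx with rfl | rfl | rfl <;> exact ⟨_, rfl⟩
  obtain ⟨Y, hY1, hY2⟩ := block_lemma Λ S (Finset.univ : Finset (Fin n))
    (fun i => ({f (i, 0), f (i, 1), f (i, 2)} : Finset ℝ)) hsub
    (by
      intro i _ j _ hij
      rw [Finset.disjoint_left]
      intro x hx hx'
      obtain ⟨a, ha⟩ := hmemf i x hx
      obtain ⟨b, hb⟩ := hmemf j x hx'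
      have := hf (ha.symm.trans hb)
      exact hij (by injection this))
    (yt Λ (1 / 2))
    (fun i _ v => yt_block Λ (1 / 2) 2 (by norm_num) (by norm_num) _ Finset.card_le_three v)
  refine ⟨Y, hY1, ?_⟩
  rw [hY2]
  have hone : ∀ i ∈ (Finset.univ : Finset (Fin n)),
      (9 / 8) * c ≤ YT Λ ({f (i, 0), f (i, 1), f (i, 2)} : Finset ℝ) (yt Λ (1 / 2)) := by
    intro i _
    obtain ⟨h1, h2, h3⟩ := hford i
    rw [YT_triple Λ _ _ _ _ h1 h2]
    have g1 := phi_sq_lower Λ (f (i, 1)) (f (i, 0)) (by rw [abs_le]; constructor <;> linarith)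
    have g2 := phi_sq_lower Λ (f (i, 2)) (f (i, 1)) (by rw [abs_le]; constructor <;> linarith)
    have g3 := phi_sq_lower Λ (f (i, 2)) (f (i, 0)) (by rw [abs_le]; constructor <;> linarith)
    have hLw : L * w = 100 := by rw [hw]; field_simp
    have hb : ∀ d : ℝ, 0 ≤ d → d ≤ w → 0 ≤ Λ * d ∧ Λ * d ≤ 100 := by
      intro d hd0 hd1
      refine ⟨mul_nonneg hΛ0' hd0, ?_⟩
      rw [← hLw]
      exact mul_le_mul hΛ1 hd1 hd0 hLpos.le
    obtain ⟨a1, a2⟩ := hb (f (i, 1) - f (i, 0)) (by linarith) (by linarith)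
    obtain ⟨b1, b2⟩ := hb (f (i, 2) - f (i, 1)) (by linarith) (by linarith)
    have hg := hgap _ _ a1 b1 a2 b2
    have e : Λ * (f (i, 1) - f (i, 0)) + Λ * (f (i, 2) - f (i, 1)) =
        Λ * (f (i, 2) - f (i, 0)) := by ring
    rw [e] at hg
    norm_num
    linarith
  have hsum : (n : ℝ) * ((9 / 8) * c) ≤ ∑ i ∈ (Finset.univ : Finset (Fin n)),
      YT Λ ({f (i, 0), f (i, 1), f (i, 2)} : Finset ℝ) (yt Λ (1 / 2)) := by
    have := Finset.sum_le_sum hone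
    rw [Finset.sum_const, Finset.card_univ, Fintype.card_fin, nsmul_eq_mul] at this
    exact this
  refine le_trans ?_ hsum
  calc min 1 (c / 8) * M ≤ (c / 8) * M := mul_le_mul_of_nonneg_right (min_le_right _ _) (by linarith)
    _ ≤ ((3 / 25 : ℝ) * M) * ((9 / 8) * c) := by nlinarith
    _ ≤ (n : ℝ) * ((9 / 8) * c) := mul_le_mul_of_nonneg_right hn2 (by positivity)

theorem main_abstract {F : ℂ → ℂ} (hF : GoodL F) :
    ∃ δ : ℝ, 0 < δ ∧ ∃ T0 : ℝ, ∀ T : ℝ, T0 ≤ T →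
      (2 - cMTinv + δ) * (NN F T (2 * T) : ℝ) ≤ (Ns F T (2 * T) : ℝ) ∧
      ((3 - cMTinv) / 2 + δ) * (NN F T (2 * T) : ℝ) ≤ (Nd F T (2 * T) : ℝ) := by
  obtain ⟨κ, h1, h2, h3⟩ := yhyp_triples
  obtain ⟨T0, hT0⟩ := main_of_Y hF (1 / 2) κ (κ / 2) h2 (by linarith) (by linarith)
    (by linarith [cMTinv_lt]) h3
  refine ⟨κ / 4, by linarith, T0, fun T hT => ?_⟩
  obtain ⟨a, b⟩ := hT0 T hT
  have hNN : (0 : ℝ) ≤ NN F T (2 * T) := Nat.cast_nonneg _
  constructor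
  · nlinarith
  · refine le_trans (le_of_eq ?_) b
    ring

end H370
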