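import Pool.Agent.H370R2.Expl1
import Pool.Agent.H370R2.Fin4

open Complex Filter Topology Set MeasureTheory
open scoped BigOperators ComplexConjugate

namespace H370.Expl

lemma transfer (n : ℕ) (y : ℕ → ℝ) (hinj : ∀ i < n, ∀ j < n, y i = y j → i = j)
    (Z : ℕ → ℕ → ℝ) : ∃ Y : ℝ → ℝ → ℝ, ∀ i < n, ∀ j < n, Y (y i) (y j) = Z i j := by
  classical
  set inv : ℝ → ℕ := fun x => if h : ∃ i, i < n ∧ y i = x then h.choose else 0 with hinv
  have hi : ∀ i < n, inv (y i) = i := by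
    intro i hi
    have h : ∃ j, j < n ∧ y j = y i := ⟨i, hi, rfl⟩
    simp only [hinv]
    rw [dif_pos h]
    exact hinj _ h.choose_spec.1 _ hi h.choose_spec.2
  refine ⟨fun x x' => Z (inv x) (inv x'), fun i h j h' => ?_⟩
  simp only
  rw [hi i h, hi j h']

/-- clipping at `1/4` -/
noncomputable def clip (x : ℝ) : ℝ := max (-(1 / 4)) (min (1 / 4) x)

lemma clip_abs (x : ℝ) : |clip x| ≤ 1 / 4 := by
  unfold clip
  rw [abs_le]
  constructor
  · exact le_max_left _ _
  · exact max_le (by norm_num) (min_le_left _ _)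

lemma clip_gain (x : ℝ) : min (x ^ 2) (1 / 16) ≤ 2 * (clip x * x) - clip x ^ 2 := by
  unfold clip
  rcases le_total x (-(1 / 4)) with h | h
  · have h1 : min (1 / 4) x = x := min_eq_right (by linarith)
    rw [h1, max_eq_left h]
    refine (min_le_right _ _).trans ?_
    nlinarith
  · rcases le_total x (1 / 4) with h' | h'
    · rw [min_eq_right h', max_eq_right h]
      refine (min_le_left _ _).trans ?_
      nlinarith
    · rw [min_eq_left h', max_eq_right (by norm_num)]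
      refine (min_le_right _ _).trans ?_
      nlinarith

/-- the test matrix on indices -/
noncomputable def ZZ (Λ : ℝ) (y : ℕ → ℝ) (i j : ℕ) : ℝ :=
  if i ≠ j ∧ i ≤ j + 2 ∧ j ≤ i + 2 then clip (phi Λ ((y i : ℂ) - y j)).re else 0

lemma ZZ_row (Λ : ℝ) (y : ℕ → ℝ) (n i : ℕ) : ∑ j ∈ Finset.range n, |ZZ Λ y i j| ≤ 1 := by
  classical
  have h1 : ∑ j ∈ Finset.range n, |ZZ Λ y i j| ≤
      ∑ j ∈ (Finset.range n).filter (fun j => i ≠ j ∧ i ≤ j + 2 ∧ j ≤ i + 2), (1 / 4 : ℝ) := by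
    rw [Finset.sum_filter]
    refine Finset.sum_le_sum fun j _ => ?_
    unfold ZZ
    split_ifs
    · exact clip_abs _
    · simp
  refine h1.trans ?_
  rw [Finset.sum_const, nsmul_eq_mul]
  have hsub : (Finset.range n).filter (fun j => i ≠ j ∧ i ≤ j + 2 ∧ j ≤ i + 2) ⊆
      {i - 1, i - 2, i + 1, i + 2} := by
    intro j hj
    rw [Finset.mem_filter] at hj
    simp only [Finset.mem_insert, Finset.mem_singleton]
    omega
  have hc : ((Finset.range n).filter (fun j => i ≠ j ∧ i ≤ j + 2 ∧ j ≤ i + 2)).card ≤ 4 :=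
    (Finset.card_le_card hsub).trans Finset.card_le_four
  have hc' : (((Finset.range n).filter (fun j => i ≠ j ∧ i ≤ j + 2 ∧ j ≤ i + 2)).card : ℝ) ≤ 4 := by
    exact_mod_cast hc
  linarith

lemma ZZ_col (Λ : ℝ) (y : ℕ → ℝ) (n j : ℕ) : ∑ i ∈ Finset.range n, |ZZ Λ y i j| ≤ 1 := by
  refine le_trans (le_of_eq ?_) (ZZ_row Λ y n j)
  refine Finset.sum_congr rfl fun i _ => ?_
  unfold ZZ
  rw [phi_sub_symm]
  by_cases h : i ≠ j ∧ i ≤ j + 2 ∧ j ≤ i + 2
  · rw [if_pos h, if_pos ⟨h.1.symm, h.2.2, h.2.1⟩]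
  · rw [if_neg h, if_neg (fun h' => h ⟨h'.1.symm, h'.2.2, h'.2.1⟩)]

/-- index version of Gershgorin -/
lemma gersh_idx (n : ℕ) (Z : ℕ → ℕ → ℝ) (h1 : ∀ i, ∑ j ∈ Finset.range n, |Z i j| ≤ 1)
    (h2 : ∀ j, ∑ i ∈ Finset.range n, |Z i j| ≤ 1) (v : ℕ → ℂ) :
    ∑ i ∈ Finset.range n, ∑ j ∈ Finset.range n, Z i j * (conj (v i) * v j).re ≤
      ∑ i ∈ Finset.range n, ‖v i‖ ^ 2 := by
  have h3 : ∀ x y : ℕ, Z x y * (conj (v x) * v y).re ≤
      |Z x y| * (‖v x‖ ^ 2 / 2) + |Z x y| * (‖v y‖ ^ 2 / 2) := by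
    intro x y
    calc Z x y * (conj (v x) * v y).re ≤ |Z x y * (conj (v x) * v y).re| := le_abs_self _
      _ = |Z x y| * |(conj (v x) * v y).re| := abs_mul _ _
      _ ≤ |Z x y| * (‖v x‖ * ‖v y‖) := by
          apply mul_le_mul_of_nonneg_left _ (abs_nonneg _)
          refine (Complex.abs_re_le_norm _).trans ?_
          rw [norm_mul, Complex.norm_conj]
      _ ≤ _ := by
          rw [← mul_add]
          apply mul_le_mul_of_nonneg_left _ (abs_nonneg _)
          nlinarith [sq_nonneg (‖v x‖ - ‖v y‖)]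
  calc ∑ x ∈ Finset.range n, ∑ y ∈ Finset.range n, Z x y * (conj (v x) * v y).re
      ≤ ∑ x ∈ Finset.range n, ∑ y ∈ Finset.range n,
          (|Z x y| * (‖v x‖ ^ 2 / 2) + |Z x y| * (‖v y‖ ^ 2 / 2)) :=
        Finset.sum_le_sum fun x _ => Finset.sum_le_sum fun y _ => h3 x y
    _ = ∑ x ∈ Finset.range n, (∑ y ∈ Finset.range n, |Z x y|) * (‖v x‖ ^ 2 / 2) +
        ∑ y ∈ Finset.range n, (∑ x ∈ Finset.range n, |Z x y|) * (‖v y‖ ^ 2 / 2) := by
        simp_rw [Finset.sum_add_distrib, Finset.sum_mul]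
        congr 1
        exact Finset.sum_comm
    _ ≤ ∑ x ∈ Finset.range n, 1 * (‖v x‖ ^ 2 / 2) + ∑ y ∈ Finset.range n, 1 * (‖v y‖ ^ 2 / 2) := by
        refine add_le_add (Finset.sum_le_sum fun x _ => ?_) (Finset.sum_le_sum fun x _ => ?_)
        · exact mul_le_mul_of_nonneg_right (h1 x) (by positivity)
        · exact mul_le_mul_of_nonneg_right (h2 x) (by positivity)
    _ = ∑ x ∈ Finset.range n, ‖v x‖ ^ 2 := by
        rw [← Finset.sum_add_distrib]
        refine Finset.sum_congr rfl fun x _ => by ring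

/-- banded sums -/
lemma band_sum (m : ℕ) (t : ℕ → ℕ → ℝ) (ht : ∀ i j, 0 ≤ t i j) :
    ∑ k ∈ Finset.range (m + 1), (t k (k + 1) + t (k + 1) k) +
      ∑ k ∈ Finset.range m, (t k (k + 2) + t (k + 2) k) ≤
      ∑ i ∈ Finset.range (m + 2), ∑ j ∈ Finset.range (m + 2), t i j := by
  classical
  have h1 : ∀ i j, (if j = i + 1 then t i j else 0) + (if j = i + 2 then t i j else 0) +
      (if i = j + 1 then t i j else 0) + (if i = j + 2 then t i j else 0) ≤ t i j := by
    intro i j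
    have := ht i j
    split_ifs <;> first | omega | linarith
  have h2 : ∑ i ∈ Finset.range (m + 2), ∑ j ∈ Finset.range (m + 2),
      ((if j = i + 1 then t i j else 0) + (if j = i + 2 then t i j else 0) +
      (if i = j + 1 then t i j else 0) + (if i = j + 2 then t i j else 0)) ≤
      ∑ i ∈ Finset.range (m + 2), ∑ j ∈ Finset.range (m + 2), t i j :=
    Finset.sum_le_sum fun i _ => Finset.sum_le_sum fun j _ => h1 i j
  refine le_trans ?_ h2
  simp_rw [Finset.sum_add_distrib]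
  have e1 : ∀ r : ℕ, ∑ i ∈ Finset.range (m + 2), ∑ j ∈ Finset.range (m + 2),
      (if j = i + r then t i j else 0) =
      ∑ i ∈ Finset.range (m + 2), (if i + r < m + 2 then t i (i + r) else 0) := by
    intro r
    refine Finset.sum_congr rfl fun i _ => ?_
    rw [Finset.sum_ite_eq']
    simp only [Finset.mem_range]
  have e2 : ∀ r : ℕ, ∑ i ∈ Finset.range (m + 2), ∑ j ∈ Finset.range (m + 2),
      (if i = j + r then t i j else 0) =
      ∑ j ∈ Finset.range (m + 2), (if j + r < m + 2 then t (j + r) j else 0) := by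
    intro r
    rw [Finset.sum_comm]
    refine Finset.sum_congr rfl fun j _ => ?_
    rw [Finset.sum_ite_eq']
    simp only [Finset.mem_range]
  have e3 : ∀ (r : ℕ) (f : ℕ → ℝ) (_ : ∀ i, 0 ≤ f i), r ≤ m + 2 →
      ∑ i ∈ Finset.range (m + 2 - r), f i ≤
      ∑ i ∈ Finset.range (m + 2), (if i + r < m + 2 then f i else 0) := by
    intro r f hf hr
    rw [← Finset.sum_filter]
    refine Finset.sum_le_sum_of_subset_of_nonneg ?_ fun i _ _ => hf i
    intro i hi
    rw [Finset.mem_range] at hi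
    rw [Finset.mem_filter, Finset.mem_range]
    omega
  rw [e1, e1, e2, e2]
  have a1 := e3 1 (fun i => t i (i + 1)) (fun i => ht _ _) (by omega)
  have a2 := e3 2 (fun i => t i (i + 2)) (fun i => ht _ _) (by omega)
  have a3 := e3 1 (fun i => t (i + 1) i) (fun i => ht _ _) (by omega)
  have a4 := e3 2 (fun i => t (i + 2) i) (fun i => ht _ _) (by omega)
  have n1 : m + 2 - 1 = m + 1 := by omega
  have n2 : m + 2 - 2 = m := by omega
  rw [n1] at a1 a3
  rw [n2] at a2 a4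
  linarith

end H370.Expl
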