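import Pool.Agent.H370R2.Expl2

open Complex Filter Topology Set MeasureTheory
open scoped BigOperators ComplexConjugate

namespace H370.Expl

/-- the gain from one pair -/
noncomputable def GG (Λ x y : ℝ) : ℝ := min ((phi Λ ((x : ℂ) - y)).re ^ 2) (1 / 16)

lemma GG_nonneg (Λ x y : ℝ) : 0 ≤ GG Λ x y := le_min (sq_nonneg _) (by norm_num)

lemma mm_nonneg (x : ℝ) : 0 ≤ mm x := le_min (sq_nonneg _) (by norm_num)

lemma GG_symm (Λ x y : ℝ) : GG Λ x y = GG Λ y x := by
  unfold GG; rw [phi_sub_symm]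

lemma GG_lower {Λ x y η : ℝ} (hη : 0 ≤ η) (h : (y - x) ^ 2 / 4 ≤ η) :
    (1 - η) * mm (Λ * (y - x)) ≤ GG Λ x y := by
  rw [GG_symm]
  unfold GG
  have hm := mm_nonneg (Λ * (y - x))
  refine le_min ?_ ?_
  · rw [phi_sub_re, mul_pow, ← Real.exp_nat_mul]
    have h1 := Real.add_one_le_exp (((2 : ℕ) : ℝ) * (-(y - x) ^ 2 / 8))
    push_cast at h1 ⊢
    have h2 : 1 - η ≤ Real.exp (2 * (-(y - x) ^ 2 / 8)) := by linarith
    have h3 : mm (Λ * (y - x)) ≤ (kap ((Λ * (y - x) : ℝ) : ℂ)).re ^ 2 := min_le_left _ _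
    push_cast at h3
    calc (1 - η) * mm (Λ * (y - x)) ≤ Real.exp (2 * (-(y - x) ^ 2 / 8)) * mm (Λ * (y - x)) :=
          mul_le_mul_of_nonneg_right h2 hm
      _ ≤ Real.exp (2 * (-(y - x) ^ 2 / 8)) * (kap ((Λ : ℂ) * ((y : ℂ) - x))).re ^ 2 :=
          mul_le_mul_of_nonneg_left h3 (Real.exp_pos _).le
      _ = _ := by ring
  · have h3 : mm (Λ * (y - x)) ≤ 1 / 16 := min_le_right _ _
    nlinarith

lemma triple_lower {Λ A B η x y z : ℝ} (hΛ : 0 < Λ) (hB : 0 < B) (hη : 0 ≤ η) (hη1 : η ≤ 1)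
    (h3 : ∀ a b : ℝ, 0 ≤ a → 0 ≤ b → A - B * (a + b) ≤ mm a / 2 + mm b / 2 + mm (a + b))
    (hs : (A / B) ^ 2 ≤ 4 * η * Λ ^ 2) (hxy : x ≤ y) (hyz : y ≤ z) :
    (1 - η) * (A - B * (Λ * (z - x))) ≤ GG Λ x y / 2 + GG Λ y z / 2 + GG Λ x z := by
  have g1 := GG_nonneg Λ x y
  have g2 := GG_nonneg Λ y z
  have g3 := GG_nonneg Λ x z
  rcases le_or_gt (A - B * (Λ * (z - x))) 0 with h | h
  · have : (1 - η) * (A - B * (Λ * (z - x))) ≤ 0 :=
      mul_nonpos_of_nonneg_of_nonpos (by linarith) h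
    linarith
  · have hd0 : 0 ≤ z - x := by linarith
    have h4 : Λ * (z - x) ≤ A / B := by
      rw [le_div_iff₀ hB]; linarith
    have h5 : (Λ * (z - x)) ^ 2 ≤ (A / B) ^ 2 :=
      pow_le_pow_left₀ (mul_nonneg hΛ.le hd0) h4 2
    have h6 : (z - x) ^ 2 / 4 ≤ η := by
      have h7 : Λ ^ 2 * (z - x) ^ 2 ≤ Λ ^ 2 * (4 * η) := by
        rw [← mul_pow]; linarith
      have h8 : (z - x) ^ 2 ≤ 4 * η := le_of_mul_le_mul_left h7 (by positivity)
      linarith
    have h7 : (y - x) ^ 2 / 4 ≤ η := by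
      have : (y - x) ^ 2 ≤ (z - x) ^ 2 := pow_le_pow_left₀ (by linarith) (by linarith) 2
      linarith
    have h8 : (z - y) ^ 2 / 4 ≤ η := by
      have : (z - y) ^ 2 ≤ (z - x) ^ 2 := pow_le_pow_left₀ (by linarith) (by linarith) 2
      linarith
    have i1 := GG_lower (Λ := Λ) hη h7
    have i2 := GG_lower (Λ := Λ) hη h8
    have i3 := GG_lower (Λ := Λ) hη h6
    have i4 := h3 (Λ * (y - x)) (Λ * (z - y)) (mul_nonneg hΛ.le (by linarith))
      (mul_nonneg hΛ.le (by linarith))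
    have e : Λ * (y - x) + Λ * (z - y) = Λ * (z - x) := by ring
    rw [e] at i4
    have i5 := mul_le_mul_of_nonneg_left i4 (by linarith : 0 ≤ 1 - η)
    linarith

/-- the term of the quadratic form -/
noncomputable def tt (Λ : ℝ) (y : ℕ → ℝ) (i j : ℕ) : ℝ :=
  2 * (ZZ Λ y i j * (phi Λ ((y i : ℂ) - y j)).re) - ZZ Λ y i j ^ 2

lemma tt_lower (Λ : ℝ) (y : ℕ → ℝ) (i j : ℕ) (h : i ≠ j ∧ i ≤ j + 2 ∧ j ≤ i + 2) :
    GG Λ (y i) (y j) ≤ tt Λ y i j := by
  unfold tt ZZ GG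
  rw [if_pos h]
  exact clip_gain _

lemma tt_nonneg (Λ : ℝ) (y : ℕ → ℝ) (i j : ℕ) : 0 ≤ tt Λ y i j := by
  by_cases h : i ≠ j ∧ i ≤ j + 2 ∧ j ≤ i + 2
  · exact (GG_nonneg _ _ _).trans (tt_lower Λ y i j h)
  · unfold tt ZZ
    rw [if_neg h]; simp

lemma tt_sum_lower {Λ A B η T : ℝ} (hΛ : 0 < Λ) (hB : 0 < B) (hη : 0 ≤ η) (hη1 : η ≤ 1)
    (h3 : ∀ a b : ℝ, 0 ≤ a → 0 ≤ b → A - B * (a + b) ≤ mm a / 2 + mm b / 2 + mm (a + b))
    (hs : (A / B) ^ 2 ≤ 4 * η * Λ ^ 2) (m : ℕ) (y : ℕ → ℝ)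
    (hmono : ∀ i j, i < j → j < m + 2 → y i < y j)
    (hr : ∀ i, i < m + 2 → T < y i ∧ y i ≤ 2 * T) :
    2 * (1 - η) * (A * m - 2 * (B * Λ * T)) ≤
      ∑ i ∈ Finset.range (m + 2), ∑ j ∈ Finset.range (m + 2), tt Λ y i j := by
  refine le_trans ?_ (band_sum m (tt Λ y) (tt_nonneg Λ y))
  have b1 : ∑ k ∈ Finset.range (m + 1), (2 * GG Λ (y k) (y (k + 1))) ≤
      ∑ k ∈ Finset.range (m + 1), (tt Λ y k (k + 1) + tt Λ y (k + 1) k) := by
    refine Finset.sum_le_sum fun k _ => ?_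
    have c1 := tt_lower Λ y k (k + 1) ⟨by omega, by omega, by omega⟩
    have c2 := tt_lower Λ y (k + 1) k ⟨by omega, by omega, by omega⟩
    rw [GG_symm Λ (y (k + 1))] at c2
    linarith
  have b2 : ∑ k ∈ Finset.range m, (2 * GG Λ (y k) (y (k + 2))) ≤
      ∑ k ∈ Finset.range m, (tt Λ y k (k + 2) + tt Λ y (k + 2) k) := by
    refine Finset.sum_le_sum fun k _ => ?_
    have c1 := tt_lower Λ y k (k + 2) ⟨by omega, by omega, by omega⟩
    have c2 := tt_lower Λ y (k + 2) k ⟨by omega, by omega, by omega⟩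
    rw [GG_symm Λ (y (k + 2))] at c2
    linarith
  have b3 : ∑ k ∈ Finset.range m, (GG Λ (y k) (y (k + 1)) + GG Λ (y (k + 1)) (y (k + 2))) ≤
      ∑ k ∈ Finset.range (m + 1), (2 * GG Λ (y k) (y (k + 1))) := by
    have s1 := Finset.sum_range_succ (fun k => GG Λ (y k) (y (k + 1))) m
    have s2 := Finset.sum_range_succ' (fun k => GG Λ (y k) (y (k + 1))) m
    rw [← Finset.mul_sum, Finset.sum_add_distrib]
    have p1 := GG_nonneg Λ (y m) (y (m + 1))
    have p2 := GG_nonneg Λ (y 0) (y (0 + 1))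
    have e : ∀ k, y (k + 1 + 1) = y (k + 2) := fun k => rfl
    simp only [e] at s2
    linarith
  have b4 : ∑ k ∈ Finset.range m, (2 * ((1 - η) * (A - B * (Λ * (y (k + 2) - y k))))) ≤
      ∑ k ∈ Finset.range m, (GG Λ (y k) (y (k + 1)) + GG Λ (y (k + 1)) (y (k + 2)) +
        2 * GG Λ (y k) (y (k + 2))) := by
    refine Finset.sum_le_sum fun k hk => ?_
    rw [Finset.mem_range] at hk
    have := triple_lower hΛ hB hη hη1 h3 hs (hmono k (k + 1) (by omega) (by omega)).le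
      (hmono (k + 1) (k + 2) (by omega) (by omega)).le
    linarith
  have b5 : ∑ k ∈ Finset.range m, (y (k + 2) - y k) ≤ 2 * T := by
    have e1 : ∑ k ∈ Finset.range m, (y (k + 2) - y k) =
        ∑ k ∈ Finset.range m, (y (k + 1 + 1) - y (k + 1)) + ∑ k ∈ Finset.range m,
          (y (k + 1) - y k) := by
      rw [← Finset.sum_add_distrib]
      refine Finset.sum_congr rfl fun k _ => ?_
      ring
    rw [e1, Finset.sum_range_sub (fun k => y (k + 1)), Finset.sum_range_sub y]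
    have r1 := hr 0 (by omega)
    have r2 := hr m (by omega)
    have r3 := hr (m + 1) (by omega)
    have r4 := hr (0 + 1) (by omega)
    linarith
  have b6 : 2 * (1 - η) * (A * m - 2 * (B * Λ * T)) ≤
      ∑ k ∈ Finset.range m, (2 * ((1 - η) * (A - B * (Λ * (y (k + 2) - y k))))) := by
    have e2 : ∑ k ∈ Finset.range m, (2 * ((1 - η) * (A - B * (Λ * (y (k + 2) - y k))))) =
        2 * (1 - η) * (A * m - B * Λ * ∑ k ∈ Finset.range m, (y (k + 2) - y k)) := by
      rw [Finset.mul_sum (Finset.range m) _ (B * Λ), mul_sub, Finset.mul_sum (Finset.range m) _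
        (2 * (1 - η))]
      have : ∀ k, 2 * ((1 - η) * (A - B * (Λ * (y (k + 2) - y k)))) =
        2 * (1 - η) * A - 2 * (1 - η) * (B * Λ * (y (k + 2) - y k)) := fun k => by ring
      simp_rw [this]
      rw [Finset.sum_sub_distrib, Finset.sum_const, Finset.card_range, nsmul_eq_mul]
      ring
    rw [e2]
    apply mul_le_mul_of_nonneg_left _ (by linarith)
    have : B * Λ * ∑ k ∈ Finset.range m, (y (k + 2) - y k) ≤ B * Λ * (2 * T) :=
      mul_le_mul_of_nonneg_left b5 (by positivity)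
    linarith
  rw [Finset.sum_add_distrib] at b4
  linarith

theorem yhyp_line {A B s1 κ : ℝ} (hA : 0 < A) (hB : 0 < B)
    (h3 : ∀ a b : ℝ, 0 ≤ a → 0 ≤ b → A - B * (a + b) ≤ mm a / 2 + mm b / 2 + mm (a + b))
    (hκ0 : 0 ≤ κ) (hκ : κ < 2 * (A * s1 - 4 * Real.pi * B)) : YHyp s1 κ := by
  classical
  have hpi := Real.pi_pos
  set D : ℝ := A * s1 - 4 * Real.pi * B with hD
  have hD0 : 0 < D := by linarith
  have hs1 : 0 < s1 := by
    by_contra hcon
    have : A * s1 ≤ 0 := mul_nonpos_of_nonneg_of_nonpos hA.le (not_lt.mp hcon)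
    have : 0 < 4 * Real.pi * B := by positivity
    linarith
  set η : ℝ := (1 - κ / (2 * D)) / 2 with hη
  have hκD : κ / (2 * D) < 1 := by rw [div_lt_one (by positivity)]; linarith
  have hκD0 : 0 ≤ κ / (2 * D) := by positivity
  have hη0 : 0 < η := by rw [hη]; linarith
  have hη1 : η ≤ 1 / 2 := by rw [hη]; linarith
  have hηD : 2 * (1 - η) * D = D + κ / 2 := by rw [hη]; field_simp; ring
  set X : ℝ := max (4 * A / (D - κ / 2)) (2 / s1) with hX
  have hev : ∀ᶠ T : ℝ in atTop, 1 ≤ Real.log T ∧ (A / B) ^ 2 / η ≤ Real.log T ∧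
      2 * Real.pi * X ≤ T ∧ 1 ≤ T :=
    (Real.tendsto_log_atTop.eventually_ge_atTop _).and
      ((Real.tendsto_log_atTop.eventually_ge_atTop _).and
        ((eventually_ge_atTop _).and (eventually_ge_atTop _)))
  obtain ⟨T1, hT1⟩ := hev.exists_forall_of_atTop
  refine ⟨1 / 2, by norm_num, T1, fun T hT Λ hΛ0 hΛ1 S hS hcard => ?_⟩
  obtain ⟨hL1, hL2, hTX, hT1'⟩ := hT1 T hT
  set L := Real.log T with hL
  set M : ℝ := T * L / (2 * Real.pi) with hM
  have hMX : X ≤ M := by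
    rw [hM, le_div_iff₀ (by positivity)]
    have : T * 1 ≤ T * L := mul_le_mul_of_nonneg_left hL1 (by linarith)
    linarith
  have hM1 : 4 * A / (D - κ / 2) ≤ M := (le_max_left _ _).trans hMX
  have hM2 : 2 / s1 ≤ M := (le_max_right _ _).trans hMX
  rw [div_le_iff₀ (by linarith)] at hM1
  rw [div_le_iff₀ hs1] at hM2
  have hΛ : 0 < Λ := by linarith
  have hΛL : L / 2 ≤ Λ := by linarith
  have hs : (A / B) ^ 2 ≤ 4 * η * Λ ^ 2 := by
    rw [div_le_iff₀ hη0] at hL2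
    have h1 : L ≤ L ^ 2 := by nlinarith
    have h2 : (L / 2) ^ 2 ≤ Λ ^ 2 := pow_le_pow_left₀ (by linarith) hΛL 2
    nlinarith
  -- enumerate S
  have hn2 : 2 ≤ S.card := by
    have : (2 : ℝ) ≤ S.card := by linarith
    exact_mod_cast this
  obtain ⟨m, hm⟩ : ∃ m, S.card = m + 2 := ⟨S.card - 2, by omega⟩
  set y : ℕ → ℝ := fun i => if h : i < m + 2 then S.orderEmbOfFin hm ⟨i, h⟩ else 0 with hy
  have hyv : ∀ i (h : i < m + 2), y i = S.orderEmbOfFin hm ⟨i, h⟩ := by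
    intro i h; simp only [hy]; rw [dif_pos h]
  have hymem : ∀ i, i < m + 2 → y i ∈ S := by
    intro i h; rw [hyv i h]; exact S.orderEmbOfFin_mem hm _
  have hmono : ∀ i j, i < j → j < m + 2 → y i < y j := by
    intro i j hij hj
    rw [hyv i (by omega), hyv j hj]
    exact (S.orderEmbOfFin hm).strictMono hij
  have hinj : ∀ i < m + 2, ∀ j < m + 2, y i = y j → i = j := by
    intro i hi j hj hij
    rcases lt_trichotomy i j with h | h | h
    · exact absurd hij (hmono i j h hj).ne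
    · exact h
    · exact absurd hij (hmono j i h hi).ne'
  have himg : S = (Finset.range (m + 2)).image y := by
    symm
    apply Finset.eq_of_subset_of_card_le
    · intro x hx
      rw [Finset.mem_image] at hx
      obtain ⟨i, hi, rfl⟩ := hx
      exact hymem i (Finset.mem_range.mp hi)
    · rw [Finset.card_image_of_injOn, Finset.card_range, hm]
      intro i hi j hj hij
      exact hinj i (Finset.mem_range.mp hi) j (Finset.mem_range.mp hj) hij
  have hsum : ∀ f : ℝ → ℝ, ∑ x ∈ S, f x = ∑ i ∈ Finset.range (m + 2), f (y i) := by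
    intro f
    conv_lhs => rw [himg]
    rw [Finset.sum_image]
    intro i hi j hj hij
    exact hinj i (Finset.mem_range.mp hi) j (Finset.mem_range.mp hj) hij
  obtain ⟨Y, hY⟩ := transfer (m + 2) y hinj (ZZ Λ y)
  refine ⟨Y, ?_, ?_⟩
  · intro v
    have e1 : ∑ x ∈ S, ∑ x' ∈ S, Y x x' * (conj (v x) * v x').re =
        ∑ i ∈ Finset.range (m + 2), ∑ j ∈ Finset.range (m + 2),
          ZZ Λ y i j * (conj (v (y i)) * v (y j)).re := by
      rw [hsum]
      refine Finset.sum_congr rfl fun i hi => ?_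
      rw [hsum]
      refine Finset.sum_congr rfl fun j hj => ?_
      rw [hY i (Finset.mem_range.mp hi) j (Finset.mem_range.mp hj)]
    rw [e1, hsum]
    exact gersh_idx (m + 2) (ZZ Λ y) (ZZ_row Λ y (m + 2)) (ZZ_col Λ y (m + 2)) (fun i => v (y i))
  · have e2 : YT Λ S Y = ∑ i ∈ Finset.range (m + 2), ∑ j ∈ Finset.range (m + 2), tt Λ y i j := by
      unfold YT
      rw [Finset.mul_sum, ← Finset.sum_sub_distrib, hsum]
      refine Finset.sum_congr rfl fun i hi => ?_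
      rw [Finset.mul_sum, ← Finset.sum_sub_distrib, hsum]
      refine Finset.sum_congr rfl fun j hj => ?_
      rw [hY i (Finset.mem_range.mp hi) j (Finset.mem_range.mp hj)]
      unfold tt
      by_cases hij : y i = y j
      · have hij' : i = j := hinj i (Finset.mem_range.mp hi) j (Finset.mem_range.mp hj) hij
        have hz : ZZ Λ y i j = 0 := by
          unfold ZZ
          rw [if_neg (fun h => h.1 hij')]
        rw [hz]; simp
      · rw [if_neg hij, sub_zero]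
    rw [e2]
    refine le_trans ?_ (tt_sum_lower hΛ hB hη0.le (by linarith) h3 hs m y hmono
      (fun i hi => hS _ (hymem i hi)))
    have hmr : (m : ℝ) = S.card - 2 := by
      rw [hm]; push_cast; ring
    have hLT : Λ * T ≤ 2 * Real.pi * M := by
      have : 2 * Real.pi * M = T * L := by rw [hM]; field_simp
      rw [this, mul_comm]
      exact mul_le_mul_of_nonneg_left hΛ1 (by linarith)
    have h1 : A * m - 2 * (B * Λ * T) ≥ M * D - 2 * A := by
      have i1 : A * (s1 * M - 2) ≤ A * m := by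
        apply mul_le_mul_of_nonneg_left _ hA.le
        rw [hmr]; linarith
      have i2 : B * (Λ * T) ≤ B * (2 * Real.pi * M) := mul_le_mul_of_nonneg_left hLT hB.le
      rw [hD]
      nlinarith
    have h2 : 2 * (1 - η) * (M * D - 2 * A) ≤ 2 * (1 - η) * (A * m - 2 * (B * Λ * T)) :=
      mul_le_mul_of_nonneg_left h1 (by linarith)
    refine le_trans ?_ h2
    have h3' : 2 * (1 - η) * (M * D - 2 * A) = M * (D + κ / 2) - 4 * A * (1 - η) := by
      rw [← hηD]; ring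
    rw [h3']
    have h4 : 4 * A * (1 - η) ≤ 4 * A := by nlinarith
    nlinarith

/-- the explicit gain -/
theorem yhyp_explicit : YHyp 0.67248 0.00011 := by
  have hpi := Real.pi_lt_d6
  refine yhyp_line (A := 0.000409) (B := 0.0000175) (by norm_num) (by norm_num)
    (fun a b ha hb => three_points ha hb) (by norm_num) ?_
  nlinarith

/-- unconditional proportions with an explicit gain over the Montgomery-Taylor constants -/
theorem main_explicit (F : ℂ → ℂ) (hF : GoodL F) (κ' : ℝ) (h0 : 0 ≤ κ') (h1 : κ' < 0.00011) :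
    ∃ T0 : ℝ, ∀ T : ℝ, T0 ≤ T →
      (2 - cMTinv + κ') * (NN F T (2 * T) : ℝ) ≤ (Ns F T (2 * T) : ℝ) ∧
      ((3 - cMTinv + κ') / 2) * (NN F T (2 * T) : ℝ) ≤ (Nd F T (2 * T) : ℝ) :=
  main_of_Y hF 0.67248 0.00011 κ' (by norm_num) h0 h1
    (by have := cMTinv_num; norm_num at this ⊢; linarith) yhyp_explicit

/-- unconditional proportions `0.6726` and `0.8363` -/
theorem main_numeric (F : ℂ → ℂ) (hF : GoodL F) :
    ∃ T0 : ℝ, ∀ T : ℝ, T0 ≤ T →
      (0.672605 : ℝ) * (NN F T (2 * T) : ℝ) ≤ (Ns F T (2 * T) : ℝ) ∧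
      (0.836302 : ℝ) * (NN F T (2 * T) : ℝ) ≤ (Nd F T (2 * T) : ℝ) := by
  obtain ⟨T0, hT0⟩ := main_explicit F hF 0.000109 (by norm_num) (by norm_num)
  refine ⟨T0, fun T hT => ?_⟩
  obtain ⟨h1, h2⟩ := hT0 T hT
  have h3 := cMTinv_num
  have h4 : (0 : ℝ) ≤ NN F T (2 * T) := Nat.cast_nonneg _
  norm_num at h3
  constructor
  · refine le_trans (mul_le_mul_of_nonneg_right ?_ h4) h1
    norm_num; linarith
  · refine le_trans (mul_le_mul_of_nonneg_right ?_ h4) h2
    norm_num; linarith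

end H370.Expl
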