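import Pool.Agent.H370R2.Fin1

open Complex Filter Topology Set MeasureTheory
open scoped BigOperators ComplexConjugate

namespace H370

section block

variable {ι : Type*} [DecidableEq ι]

open Classical in
/-- block indicator -/
noncomputable def bchi (I : Finset ι) (B : ι → Finset ℝ) (x y : ℝ) : ℝ :=
  ∑ i ∈ I, (if x ∈ B i then (1 : ℝ) else 0) * (if y ∈ B i then 1 else 0)

lemma bchi_sq (I : Finset ι) (B : ι → Finset ℝ)
    (hd : ∀ i ∈ I, ∀ j ∈ I, i ≠ j → Disjoint (B i) (B j)) (x y : ℝ) :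
    bchi I B x y ^ 2 = bchi I B x y := by
  classical
  by_cases h : ∃ i ∈ I, x ∈ B i
  · obtain ⟨i, hi, hx⟩ := h
    have h1 : bchi I B x y = if y ∈ B i then 1 else 0 := by
      unfold bchi
      rw [Finset.sum_eq_single i]
      · rw [if_pos hx, one_mul]
      · intro j hj hji
        have : x ∉ B j := fun hxj => Finset.disjoint_left.mp (hd j hj i hi hji) hxj hx
        rw [if_neg this, zero_mul]
      · intro h; exact absurd hi h
    rw [h1]
    split_ifs <;> norm_num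
  · have h1 : bchi I B x y = 0 := by
      unfold bchi
      refine Finset.sum_eq_zero fun i hi => ?_
      have : x ∉ B i := fun hxi => h ⟨i, hi, hxi⟩
      rw [if_neg this, zero_mul]
    rw [h1]; norm_num

lemma bchi_sum (S : Finset ℝ) (I : Finset ι) (B : ι → Finset ℝ) (hB : ∀ i ∈ I, B i ⊆ S)
    (g : ℝ → ℝ → ℝ) :
    ∑ x ∈ S, ∑ y ∈ S, bchi I B x y * g x y = ∑ i ∈ I, ∑ x ∈ B i, ∑ y ∈ B i, g x y := by
  classical
  unfold bchi
  have h1 : ∀ x y : ℝ, (∑ i ∈ I, (if x ∈ B i then (1 : ℝ) else 0) * (if y ∈ B i then 1 else 0)) *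
      g x y = ∑ i ∈ I, (if x ∈ B i then (if y ∈ B i then g x y else 0) else 0) := by
    intro x y
    rw [Finset.sum_mul]
    refine Finset.sum_congr rfl fun i _ => ?_
    split_ifs <;> simp
  simp_rw [h1]
  have h2 : ∀ x : ℝ, ∑ y ∈ S, ∑ i ∈ I, (if x ∈ B i then (if y ∈ B i then g x y else 0) else 0) =
      ∑ i ∈ I, (if x ∈ B i then ∑ y ∈ B i, g x y else 0) := by
    intro x
    rw [Finset.sum_comm]
    refine Finset.sum_congr rfl fun i hi => ?_
    split_ifs with h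
    · rw [← Finset.sum_filter, Finset.filter_mem_eq_inter,
        Finset.inter_eq_right.mpr (hB i hi)]
    · simp
  simp_rw [h2]
  rw [Finset.sum_comm]
  refine Finset.sum_congr rfl fun i hi => ?_
  rw [← Finset.sum_filter, Finset.filter_mem_eq_inter, Finset.inter_eq_right.mpr (hB i hi)]

lemma block_lemma (Λ : ℝ) (S : Finset ℝ) (I : Finset ι) (B : ι → Finset ℝ)
    (hB : ∀ i ∈ I, B i ⊆ S) (hd : ∀ i ∈ I, ∀ j ∈ I, i ≠ j → Disjoint (B i) (B j))
    (y0 : ℝ → ℝ → ℝ)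
    (hy0 : ∀ i ∈ I, ∀ v : ℝ → ℂ, ∑ x ∈ B i, ∑ y ∈ B i, y0 x y * (conj (v x) * v y).re ≤
      ∑ x ∈ B i, ‖v x‖ ^ 2) :
    ∃ Y : ℝ → ℝ → ℝ,
      (∀ v : ℝ → ℂ, ∑ x ∈ S, ∑ y ∈ S, Y x y * (conj (v x) * v y).re ≤ ∑ x ∈ S, ‖v x‖ ^ 2) ∧
      YT Λ S Y = ∑ i ∈ I, YT Λ (B i) y0 := by
  classical
  refine ⟨fun x y => bchi I B x y * y0 x y, ?_, ?_⟩
  · intro v
    have h1 : ∑ x ∈ S, ∑ y ∈ S, bchi I B x y * y0 x y * (conj (v x) * v y).re =
        ∑ i ∈ I, ∑ x ∈ B i, ∑ y ∈ B i, y0 x y * (conj (v x) * v y).re := by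
      rw [← bchi_sum S I B hB]
      refine Finset.sum_congr rfl fun x _ => Finset.sum_congr rfl fun y _ => ?_
      ring
    rw [h1]
    calc ∑ i ∈ I, ∑ x ∈ B i, ∑ y ∈ B i, y0 x y * (conj (v x) * v y).re
        ≤ ∑ i ∈ I, ∑ x ∈ B i, ‖v x‖ ^ 2 := Finset.sum_le_sum fun i hi => hy0 i hi v
      _ = ∑ x ∈ I.biUnion B, ‖v x‖ ^ 2 := by
          rw [Finset.sum_biUnion]
          intro i hi j hj hij
          exact hd i hi j hj hij
      _ ≤ ∑ x ∈ S, ‖v x‖ ^ 2 := by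
          refine Finset.sum_le_sum_of_subset_of_nonneg ?_ fun x _ _ => by positivity
          intro x hx
          rw [Finset.mem_biUnion] at hx
          obtain ⟨i, hi, hxi⟩ := hx
          exact hB i hi hxi
  · unfold YT
    have h1 : ∑ x ∈ S, ∑ y ∈ S, bchi I B x y * y0 x y *
        ((phi Λ ((x : ℂ) - y)).re - if x = y then 1 else 0) =
        ∑ i ∈ I, ∑ x ∈ B i, ∑ y ∈ B i, y0 x y *
          ((phi Λ ((x : ℂ) - y)).re - if x = y then 1 else 0) := by
      rw [← bchi_sum S I B hB]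
      refine Finset.sum_congr rfl fun x _ => Finset.sum_congr rfl fun y _ => ?_
      ring
    have h2 : ∑ x ∈ S, ∑ y ∈ S, (bchi I B x y * y0 x y) ^ 2 =
        ∑ i ∈ I, ∑ x ∈ B i, ∑ y ∈ B i, (y0 x y) ^ 2 := by
      rw [← bchi_sum S I B hB]
      refine Finset.sum_congr rfl fun x _ => Finset.sum_congr rfl fun y _ => ?_
      rw [mul_pow, bchi_sq I B hd]
    rw [h1, h2, Finset.sum_sub_distrib, Finset.mul_sum]

end block

end H370
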