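import Pool.Agent.H370R2.Defs2

set_option autoImplicit false

open Complex Filter Topology Set MeasureTheory

namespace H370

lemma hh_line (σ u t ℓ v : ℝ) :
    hh u t (⟨σ, v⟩ : ℂ) * cexp (-(ℓ : ℂ) * (⟨σ, v⟩ : ℂ)) =
      cexp (((-1 / 2 : ℂ)) * (v : ℂ) ^ 2 + (I * (u - ℓ + (σ - 1 / 2)) + t) * v +
        (u * (σ - 1 / 2) - ℓ * σ + (σ - 1 / 2) ^ 2 / 2 - I * (σ - 1 / 2) * t - t ^ 2 / 2)) := by
  have h : (⟨σ, v⟩ : ℂ) = (σ : ℂ) + v * I := by apply Complex.ext <;> simp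
  unfold hh
  rw [h, ← Complex.exp_add, ← Complex.exp_add]
  congr 1
  ring_nf
  simp only [I_sq]
  ring

theorem gauss_line (σ u t ℓ : ℝ) :
    ∫ v : ℝ, hh u t (⟨σ, v⟩ : ℂ) * cexp (-(ℓ : ℂ) * (⟨σ, v⟩ : ℂ)) =
      Real.sqrt (2 * Real.pi) * Real.exp (-ℓ / 2) * cexp (I * t * (u - ℓ)) *
        Real.exp (-(u - ℓ) ^ 2 / 2) := by
  simp_rw [hh_line]
  rw [integral_cexp_quadratic (by norm_num : ((-1 / 2 : ℂ)).re < 0)]
  have h1 : ((Real.pi : ℂ) / -(-1 / 2)) ^ (1 / 2 : ℂ) = (Real.sqrt (2 * Real.pi) : ℂ) := by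
    have : (Real.pi : ℂ) / -(-1 / 2) = ((2 * Real.pi : ℝ) : ℂ) := by
      push_cast; ring
    rw [this, Real.sqrt_eq_rpow, Complex.ofReal_cpow (by positivity)]
    norm_num
  rw [h1]
  rw [Complex.ofReal_exp, Complex.ofReal_exp, mul_assoc (Real.sqrt (2 * Real.pi) : ℂ),
    mul_assoc (Real.sqrt (2 * Real.pi) : ℂ), ← Complex.exp_add, ← Complex.exp_add]
  congr 2
  push_cast
  ring_nf
  simp only [I_sq]
  ring

end H370
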