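import Mathlib

open scoped BigOperators ComplexConjugate

namespace H370

variable {E : Type*} [NormedAddCommGroup E] [InnerProductSpace ℂ E]

/-- Bessel inequality for orthogonal families of vectors of norm at most one. -/
lemma bessel_le {α : Type*} [Fintype α] (f : α → E)
    (ho : ∀ i j, i ≠ j → inner ℂ (f i) (f j) = 0)
    (hn : ∀ i, ‖f i‖ ≤ 1) (v : E) : ∑ i, ‖inner ℂ (f i) v‖ ^ 2 ≤ ‖v‖ ^ 2 := by
  classical
  set w : E := ∑ i, (inner ℂ (f i) v) • f i with hw
  have h1 : inner ℂ v w = ((∑ i, ‖inner ℂ (f i) v‖ ^ 2 : ℝ) : ℂ) := by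
    rw [hw, inner_sum, Complex.ofReal_sum]
    refine Finset.sum_congr rfl fun i _ => ?_
    rw [inner_smul_right, ← inner_conj_symm v (f i), Complex.mul_conj, Complex.normSq_eq_norm_sq]
  have h2 : inner ℂ w w = ((∑ i, ‖inner ℂ (f i) v‖ ^ 2 * ‖f i‖ ^ 2 : ℝ) : ℂ) := by
    conv_lhs => rw [hw, sum_inner]
    rw [Complex.ofReal_sum]
    refine Finset.sum_congr rfl fun i _ => ?_
    rw [inner_sum, Finset.sum_eq_single i]
    · rw [inner_smul_left, inner_smul_right, inner_self_eq_norm_sq_to_K, ← mul_assoc,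
        mul_comm ((starRingEnd ℂ) _), Complex.mul_conj, Complex.normSq_eq_norm_sq]
      push_cast
      rfl
    · intro j _ hj
      rw [inner_smul_left, inner_smul_right, ho i j (Ne.symm hj)]
      simp
    · simp
  have h3 : ‖v - w‖ ^ 2 = ‖v‖ ^ 2 - 2 * (inner ℂ v w).re + ‖w‖ ^ 2 := by
    have := @norm_sub_sq ℂ E _ _ _ v w
    simpa using this
  have h4 : ‖w‖ ^ 2 = ∑ i, ‖inner ℂ (f i) v‖ ^ 2 * ‖f i‖ ^ 2 := by
    have := inner_self_eq_norm_sq_to_K (𝕜 := ℂ) w
    rw [h2] at this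
    apply Complex.ofReal_injective
    rw [this]
    push_cast
    rfl
  have h5 : ∑ i, ‖inner ℂ (f i) v‖ ^ 2 * ‖f i‖ ^ 2 ≤ ∑ i, ‖inner ℂ (f i) v‖ ^ 2 := by
    refine Finset.sum_le_sum fun i _ => ?_
    have : ‖f i‖ ^ 2 ≤ 1 := by
      have := hn i
      have h0 := norm_nonneg (f i)
      nlinarith
    have h0 : 0 ≤ ‖inner ℂ (f i) v‖ ^ 2 := by positivity
    nlinarith
  have h6 : 0 ≤ ‖v - w‖ ^ 2 := by positivity
  rw [h3, h1, Complex.ofReal_re, h4] at h6
  linarith

/-- coordinates of the inner product in `EuclideanSpace` -/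
lemma euc_inner {ι : Type*} [Fintype ι] (u v : EuclideanSpace ℂ ι) :
    inner ℂ u v = ∑ i, (starRingEnd ℂ) (u i) * v i := by
  rw [PiLp.inner_apply]
  refine Finset.sum_congr rfl fun i _ => ?_
  rw [RCLike.inner_apply, mul_comm]

/-- Parseval for a matrix applied to an orthonormal basis -/
lemma frob {ι κ : Type*} [Fintype ι] [Fintype κ] (e : OrthonormalBasis ι ℂ (EuclideanSpace ℂ ι))
    (M : κ → ι → ℂ) :
    ∑ a, ∑ k, ‖∑ j, M k j * (e a) j‖ ^ 2 = ∑ k, ∑ j, ‖M k j‖ ^ 2 := by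
  rw [Finset.sum_comm]
  refine Finset.sum_congr rfl fun k _ => ?_
  have h := e.sum_sq_norm_inner_left (WithLp.toLp 2 (fun j => (starRingEnd ℂ) (M k j)))
  rw [EuclideanSpace.norm_sq_eq] at h
  simp only [euc_inner, Complex.conj_conj, RCLike.norm_conj] at h
  exact h

/-- Parseval for coefficients -/
lemma frob' {ι : Type*} [Fintype ι] (e : OrthonormalBasis ι ℂ (EuclideanSpace ℂ ι))
    (c : ι → ℂ) :
    ∑ a, ‖∑ j, (starRingEnd ℂ) ((e a) j) * c j‖ ^ 2 = ∑ j, ‖c j‖ ^ 2 := by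
  have h := e.sum_sq_norm_inner_right (WithLp.toLp 2 c)
  rw [EuclideanSpace.norm_sq_eq] at h
  simp only [euc_inner] at h
  exact h

/-- spectral data of a finite family of vectors -/
lemma spectral_family {ι : Type*} [Fintype ι] [DecidableEq ι] (x : ι → E) :
    ∃ (e : OrthonormalBasis ι ℂ (EuclideanSpace ℂ ι)) (lam : ι → ℝ) (f : ι → E),
      (∀ a, 0 ≤ lam a) ∧ (∀ a, ‖f a‖ ≤ 1) ∧ (∀ a b, a ≠ b → inner ℂ (f a) (f b) = 0) ∧
      (∀ a, ∑ i, (e a) i • x i = (Real.sqrt (lam a) : ℂ) • f a) ∧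
      (∀ a, (lam a : ℂ) = ∑ i, ∑ j, (starRingEnd ℂ) ((e a) i) * inner ℂ (x i) (x j) * (e a) j) ∧
      (∑ a, lam a ^ 2 = ∑ i, ∑ j, ‖inner ℂ (x i) (x j)‖ ^ 2) ∧
      (∑ a, lam a = ∑ i, ‖x i‖ ^ 2) := by
  classical
  set P : Matrix ι ι ℂ := fun i j => inner ℂ (x i) (x j) with hPdef
  have hP : P.IsHermitian := by
    refine Matrix.IsHermitian.ext fun i j => ?_
    change (starRingEnd ℂ) (inner ℂ (x j) (x i)) = inner ℂ (x i) (x j)
    exact inner_conj_symm _ _
  set e := hP.eigenvectorBasis with he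
  set lam := hP.eigenvalues with hlam
  have hmul : ∀ a k, ∑ j, P k j * (e a) j = (lam a : ℂ) * (e a) k := by
    intro a k
    have := congrFun (hP.mulVec_eigenvectorBasis a) k
    simpa [Matrix.mulVec, dotProduct] using this
  have hyy : ∀ a b, inner ℂ (∑ i, (e a) i • x i) (∑ j, (e b) j • x j) =
      (lam b : ℂ) * inner ℂ (e a) (e b) := by
    intro a b
    rw [sum_inner, euc_inner, Finset.mul_sum]
    refine Finset.sum_congr rfl fun i _ => ?_
    rw [inner_sum]
    have : ∀ j, inner ℂ ((e a) i • x i) ((e b) j • x j) =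
        (starRingEnd ℂ) ((e a) i) * (P i j * (e b) j) := by
      intro j
      rw [inner_smul_left, inner_smul_right]
      simp only [hPdef]
      ring
    simp_rw [this]
    rw [← Finset.mul_sum, hmul]
    ring
  have hnorm : ∀ a, (‖∑ i, (e a) i • x i‖ : ℝ) ^ 2 = lam a := by
    intro a
    have h1 := hyy a a
    rw [e.inner_eq_one, mul_one, inner_self_eq_norm_sq_to_K] at h1
    apply Complex.ofReal_injective
    rw [← h1]
    push_cast
    rfl
  have hnn : ∀ a, 0 ≤ lam a := fun a => by rw [← hnorm a]; positivity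
  refine ⟨e, lam, fun a => ((Real.sqrt (lam a))⁻¹ : ℂ) • ∑ i, (e a) i • x i, hnn, ?_, ?_, ?_, ?_,
    ?_, ?_⟩
  · intro a
    rw [norm_smul, norm_inv, Complex.norm_real, Real.norm_of_nonneg (Real.sqrt_nonneg _)]
    have : ‖∑ i, (e a) i • x i‖ = Real.sqrt (lam a) := by
      rw [← hnorm a, Real.sqrt_sq (norm_nonneg _)]
    rw [this]
    exact inv_mul_le_one
  · intro a b hab
    simp only
    rw [inner_smul_left, inner_smul_right, hyy a b, e.inner_eq_zero hab]
    simp
  · intro a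
    simp only
    rw [smul_smul]
    by_cases h : lam a = 0
    · have : ‖∑ i, (e a) i • x i‖ ^ 2 = 0 := by rw [hnorm a, h]
      have h0 : ∑ i, (e a) i • x i = 0 := by
        rwa [sq_eq_zero_iff, norm_eq_zero] at this
      rw [h0]; simp
    · have : (Real.sqrt (lam a) : ℂ) ≠ 0 := by
        rw [Ne, Complex.ofReal_eq_zero, Real.sqrt_eq_zero (hnn a)]
        exact h
      rw [mul_inv_cancel₀ this, one_smul]
  · intro a
    have h1 : ∑ i, ∑ j, (starRingEnd ℂ) ((e a) i) * inner ℂ (x i) (x j) * (e a) j =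
        ∑ i, (starRingEnd ℂ) ((e a) i) * ∑ j, P i j * (e a) j := by
      refine Finset.sum_congr rfl fun i _ => ?_
      rw [Finset.mul_sum]
      refine Finset.sum_congr rfl fun j _ => ?_
      simp only [hPdef]; ring
    rw [h1]
    simp_rw [hmul]
    have h2 := e.inner_eq_one a
    rw [euc_inner] at h2
    calc (lam a : ℂ) = lam a * 1 := by ring
      _ = _ := by
        rw [← h2, Finset.mul_sum]
        refine Finset.sum_congr rfl fun i _ => ?_
        ring
  · have h := frob e (fun k j => P k j)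
    simp_rw [hmul] at h
    rw [← h]
    refine Finset.sum_congr rfl fun a _ => ?_
    have h2 : ∑ k, ‖(lam a : ℂ) * (e a) k‖ ^ 2 = lam a ^ 2 * ∑ k, ‖(e a) k‖ ^ 2 := by
      rw [Finset.mul_sum]
      refine Finset.sum_congr rfl fun k _ => ?_
      rw [norm_mul, mul_pow, Complex.norm_real, Real.norm_eq_abs, sq_abs]
    rw [h2, ← EuclideanSpace.norm_sq_eq, e.norm_eq_one]
    ring
  · have h := hP.trace_eq_sum_eigenvalues
    have h2 : P.trace = ((∑ i, ‖x i‖ ^ 2 : ℝ) : ℂ) := by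
      rw [Matrix.trace, Complex.ofReal_sum]
      refine Finset.sum_congr rfl fun i _ => ?_
      change inner ℂ (x i) (x i) = _
      rw [inner_self_eq_norm_sq_to_K]
      push_cast
      rfl
    rw [h2] at h
    apply Complex.ofReal_injective
    rw [h]
    push_cast
    rfl

theorem la_core
    {ι κ : Type*} [Fintype ι] [Fintype κ] [DecidableEq ι]
    (x : ι → E) (b : κ → E) (D : Matrix ι ι ℂ)
    (hD2 : ∀ v : ι → ℂ,
      (∑ i, ∑ j, (starRingEnd ℂ (v i)) * D i j * v j).re ≤ 2 * ∑ i, ‖v i‖ ^ 2) :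
    0 ≤ ∑ i, ∑ j, ‖inner ℂ (x i) (x j) - D i j‖ ^ 2
      - 2 * ∑ i, ∑ l, ‖inner ℂ (x i) (b l)‖ ^ 2
      + ∑ k, ∑ l, ‖inner ℂ (b k) (b l)‖ ^ 2 + 4 * ∑ l, ‖b l‖ ^ 2 := by
  classical
  obtain ⟨e, lam, f, hl0, hf1, hfo, hef, hlam, -, -⟩ := spectral_family x
  obtain ⟨e', sig, z, hs0, hz1, hzo, hez, -, hsig2, hsig1⟩ := spectral_family b
  -- mu
  set μ : ι → ℝ := fun a => (∑ i, ∑ j, (starRingEnd ℂ) ((e a) i) *
    (inner ℂ (x i) (x j) - D i j) * (e a) j).re with hμ
  have hen : ∀ a, ∑ i, ‖(e a) i‖ ^ 2 = 1 := by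
    intro a
    rw [← EuclideanSpace.norm_sq_eq, e.norm_eq_one]; norm_num
  have hlmu : ∀ a, lam a ≤ 2 + μ a := by
    intro a
    have h1 := hD2 (fun i => (e a) i)
    rw [hen a] at h1
    have h2 : (lam a : ℂ) = ∑ i, ∑ j, (starRingEnd ℂ) ((e a) i) *
        (inner ℂ (x i) (x j) - D i j) * (e a) j +
        ∑ i, ∑ j, (starRingEnd ℂ) ((e a) i) * D i j * (e a) j := by
      rw [hlam a, ← Finset.sum_add_distrib]
      refine Finset.sum_congr rfl fun i _ => ?_
      rw [← Finset.sum_add_distrib]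
      refine Finset.sum_congr rfl fun j _ => ?_
      ring
    have h3 := congrArg Complex.re h2
    rw [Complex.ofReal_re, Complex.add_re] at h3
    simp only [hμ]
    linarith
  have hmu2 : ∑ a, μ a ^ 2 ≤ ∑ i, ∑ j, ‖inner ℂ (x i) (x j) - D i j‖ ^ 2 := by
    have h := frob e (fun k j => inner ℂ (x k) (x j) - D k j)
    rw [← h]
    refine Finset.sum_le_sum fun a _ => ?_
    have h1 : |μ a| ≤ Real.sqrt (∑ k, ‖(e a) k‖ ^ 2) *
        Real.sqrt (∑ k, ‖∑ j, (inner ℂ (x k) (x j) - D k j) * (e a) j‖ ^ 2) := by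
      calc |μ a| ≤ ‖∑ i, ∑ j, (starRingEnd ℂ) ((e a) i) *
            (inner ℂ (x i) (x j) - D i j) * (e a) j‖ := Complex.abs_re_le_norm _
        _ ≤ ∑ i, ‖(e a) i‖ * ‖∑ j, (inner ℂ (x i) (x j) - D i j) * (e a) j‖ := by
          refine (norm_sum_le _ _).trans (Finset.sum_le_sum fun i _ => ?_)
          have : ∑ j, (starRingEnd ℂ) ((e a) i) * (inner ℂ (x i) (x j) - D i j) * (e a) j =
              (starRingEnd ℂ) ((e a) i) * ∑ j, (inner ℂ (x i) (x j) - D i j) * (e a) j := by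
            rw [Finset.mul_sum]
            refine Finset.sum_congr rfl fun j _ => ?_
            ring
          rw [this, norm_mul, RCLike.norm_conj]
        _ ≤ _ := Real.sum_mul_le_sqrt_mul_sqrt _ _ _
    rw [hen a, Real.sqrt_one, one_mul] at h1
    calc μ a ^ 2 = |μ a| ^ 2 := (sq_abs _).symm
      _ ≤ (Real.sqrt (∑ k, ‖∑ j, (inner ℂ (x k) (x j) - D k j) * (e a) j‖ ^ 2)) ^ 2 := by
        gcongr
      _ = _ := Real.sq_sqrt (by positivity)
  -- cross term
  set p : ι → κ → ℝ := fun a c => ‖inner ℂ (f a) (z c)‖ ^ 2 with hp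
  have hp0 : ∀ a c, 0 ≤ p a c := fun a c => by positivity
  have hp1 : ∀ a, ∑ c, p a c ≤ 1 := by
    intro a
    have h := bessel_le z hzo hz1 (f a)
    have h2 : ‖f a‖ ^ 2 ≤ 1 := by
      have := hf1 a
      have h0 := norm_nonneg (f a)
      nlinarith
    refine le_trans (le_of_eq ?_) (h.trans h2)
    refine Finset.sum_congr rfl fun c _ => ?_
    simp only [hp]
    rw [← inner_conj_symm, RCLike.norm_conj]
  have hp2 : ∀ c, ∑ a, p a c ≤ 1 := by
    intro c
    have h := bessel_le f hfo hf1 (z c)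
    have h2 : ‖z c‖ ^ 2 ≤ 1 := by
      have := hz1 c
      have h0 := norm_nonneg (z c)
      nlinarith
    exact h.trans h2
  have hcross : ∑ i, ∑ l, ‖inner ℂ (x i) (b l)‖ ^ 2 = ∑ a, ∑ c, lam a * sig c * p a c := by
    have h1 : ∑ i, ∑ l, ‖inner ℂ (x i) (b l)‖ ^ 2 =
        ∑ a, ∑ l, ‖inner ℂ (∑ i, (e a) i • x i) (b l)‖ ^ 2 := by
      rw [Finset.sum_comm, Finset.sum_comm (s := (Finset.univ : Finset ι)) (t := Finset.univ)
        (f := fun a l => ‖inner ℂ (∑ i, (e a) i • x i) (b l)‖ ^ 2)]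
      refine Finset.sum_congr rfl fun l _ => ?_
      rw [← frob' e (fun i => inner ℂ (x i) (b l))]
      refine Finset.sum_congr rfl fun a _ => ?_
      rw [sum_inner]
      simp_rw [inner_smul_left]
    rw [h1]
    refine Finset.sum_congr rfl fun a _ => ?_
    have h2 : ∑ l, ‖inner ℂ (∑ i, (e a) i • x i) (b l)‖ ^ 2 =
        ∑ c, ‖inner ℂ (∑ i, (e a) i • x i) (∑ l, (e' c) l • b l)‖ ^ 2 := by
      have h3 := frob e' (fun (_ : Unit) l => inner ℂ (∑ i, (e a) i • x i) (b l))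
      simp only [Finset.univ_unique, PUnit.default_eq_unit, Finset.sum_singleton] at h3
      rw [← h3]
      refine Finset.sum_congr rfl fun c _ => ?_
      rw [inner_sum]
      congr 2
      refine Finset.sum_congr rfl fun l _ => ?_
      rw [inner_smul_right, mul_comm]
    rw [h2]
    refine Finset.sum_congr rfl fun c _ => ?_
    rw [hef a, hez c, inner_smul_left, inner_smul_right, norm_mul, norm_mul, RCLike.norm_conj,
      Complex.norm_real, Complex.norm_real, Real.norm_of_nonneg (Real.sqrt_nonneg _),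
      Real.norm_of_nonneg (Real.sqrt_nonneg _), mul_pow, mul_pow, Real.sq_sqrt (hl0 a),
      Real.sq_sqrt (hs0 c)]
    simp only [hp]
    ring
  have hmain : 2 * ∑ a, ∑ c, lam a * sig c * p a c ≤
      4 * ∑ c, sig c + ∑ a, μ a ^ 2 + ∑ c, sig c ^ 2 := by
    have h1 : ∀ a c, 2 * (lam a * sig c * p a c) ≤
        4 * sig c * p a c + μ a ^ 2 * p a c + sig c ^ 2 * p a c := by
      intro a c
      have h2 : 2 * (lam a * sig c) ≤ 4 * sig c + μ a ^ 2 + sig c ^ 2 := by
        have h3 := mul_le_mul_of_nonneg_right (hlmu a) (hs0 c)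
        nlinarith [sq_nonneg (μ a - sig c)]
      have := mul_le_mul_of_nonneg_right h2 (hp0 a c)
      nlinarith
    calc 2 * ∑ a, ∑ c, lam a * sig c * p a c = ∑ a, ∑ c, 2 * (lam a * sig c * p a c) := by
          rw [Finset.mul_sum]
          refine Finset.sum_congr rfl fun a _ => ?_
          rw [Finset.mul_sum]
      _ ≤ ∑ a, ∑ c, (4 * sig c * p a c + μ a ^ 2 * p a c + sig c ^ 2 * p a c) :=
          Finset.sum_le_sum fun a _ => Finset.sum_le_sum fun c _ => h1 a c
      _ = ∑ c, 4 * sig c * ∑ a, p a c + ∑ a, μ a ^ 2 * ∑ c, p a c +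
          ∑ c, sig c ^ 2 * ∑ a, p a c := by
          simp_rw [Finset.sum_add_distrib, Finset.mul_sum]
          rw [Finset.sum_comm (f := fun a c => 4 * sig c * p a c),
            Finset.sum_comm (f := fun a c => sig c ^ 2 * p a c)]
      _ ≤ ∑ c, 4 * sig c * 1 + ∑ a, μ a ^ 2 * 1 + ∑ c, sig c ^ 2 * 1 := by
          gcongr with c _ a _ c _
          · have := hs0 c
            positivity
          · exact hp2 c
          · exact hp1 a
          · exact hp2 c
      _ = _ := by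
          simp only [mul_one]
          rw [Finset.mul_sum]
  rw [hcross]
  rw [hsig1, hsig2] at hmain
  linarith

end H370
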