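import Pool.Agent.H370R2.Base

open Complex Filter Topology Set MeasureTheory
open scoped BigOperators ComplexConjugate

namespace H370

lemma zz_spec (s : ℂ) : s - 1 / 2 = I * zz s := by
  unfold zz
  rw [← mul_assoc, mul_neg, I_mul_I]; ring

lemma hh_eq (u t : ℝ) (s : ℂ) :
    hh u t s = cexp (I * u * zz s) * cexp (-(zz s - t) ^ 2 / 2) := by
  unfold hh
  rw [zz_spec]
  congr 1
  · congr 1; ring
  · congr 1
    have : I * zz s - I * (t : ℂ) = I * (zz s - t) := by ring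
    rw [this, mul_pow, I_sq]; ring

lemma hh_conj (u t : ℝ) (s : ℂ) :
    conj (hh u t s) = cexp (-(I * u * conj (zz s))) * cexp (-(conj (zz s) - t) ^ 2 / 2) := by
  rw [hh_eq, map_mul, ← Complex.exp_conj, ← Complex.exp_conj]
  congr 1
  · congr 1; simp
  · congr 1
    simp only [map_div₀, map_neg, map_pow, map_sub, Complex.conj_ofReal, Complex.conj_ofNat]

lemma pi_cpow_half : (Real.pi : ℂ) ^ (1 / 2 : ℂ) = (Real.sqrt Real.pi : ℂ) := by
  rw [show (1 / 2 : ℂ) = ((1 / 2 : ℝ) : ℂ) by push_cast; ring,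
    ← Complex.ofReal_cpow Real.pi_pos.le, ← Real.sqrt_eq_rpow]

lemma gauss_pair_eq (z w : ℂ) (t : ℝ) :
    cexp (-(z - t) ^ 2 / 2) * cexp (-(w - t) ^ 2 / 2) =
      cexp ((-1 : ℂ) * (t : ℂ) ^ 2 + (z + w) * t + (-(z ^ 2 + w ^ 2) / 2)) := by
  rw [← Complex.exp_add]; congr 1; ring

lemma gauss_pair_int (z w : ℂ) :
    Integrable (fun t : ℝ => cexp (-(z - t) ^ 2 / 2) * cexp (-(w - t) ^ 2 / 2)) := by
  simp_rw [gauss_pair_eq]
  exact integrable_cexp_quadratic' (by simp) _ _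

lemma gauss_pair (z w : ℂ) :
    ∫ t : ℝ, cexp (-(z - t) ^ 2 / 2) * cexp (-(w - t) ^ 2 / 2) =
      (Real.sqrt Real.pi : ℂ) * cexp (-(z - w) ^ 2 / 4) := by
  simp_rw [gauss_pair_eq]
  rw [integral_cexp_quadratic (by simp), neg_neg, div_one, pi_cpow_half]
  congr 2
  ring

lemma gauss_single_eq (z : ℂ) (t : ℝ) :
    cexp (-(z - t) ^ 2 / 2) = cexp ((-1 / 2 : ℂ) * (t : ℂ) ^ 2 + z * t + (-z ^ 2 / 2)) := by
  congr 1; ring

lemma gauss_single_int (z : ℂ) : Integrable (fun t : ℝ => cexp (-(z - t) ^ 2 / 2)) := by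
  simp_rw [gauss_single_eq]
  exact integrable_cexp_quadratic' (by norm_num) _ _

lemma gauss_single (z : ℂ) :
    ∫ t : ℝ, cexp (-(z - t) ^ 2 / 2) = (Real.sqrt (2 * Real.pi) : ℂ) := by
  simp_rw [gauss_single_eq]
  rw [integral_cexp_quadratic (by norm_num)]
  have h1 : (Real.pi : ℂ) / -(-1 / 2) = ((2 * Real.pi : ℝ) : ℂ) := by push_cast; ring
  rw [h1, show (1 / 2 : ℂ) = ((1 / 2 : ℝ) : ℂ) by push_cast; ring,
    ← Complex.ofReal_cpow (by positivity), ← Real.sqrt_eq_rpow]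
  have h2 : (-z ^ 2 / 2 - z ^ 2 / (4 * (-1 / 2)) : ℂ) = 0 := by ring
  rw [h2, Complex.exp_zero, mul_one]

section zeros

variable {F : ℂ → ℂ} (hF : GoodL F) {U1 U2 : ℝ} (hU : 1 ≤ U1)

include hF hU in
lemma zset_refl {s : ℂ} (hs : s ∈ zset F U1 U2) : 1 - conj s ∈ zset F U1 U2 := by
  obtain ⟨h1, h2, h3, h4, h5⟩ := hs
  have him : (1 - conj s).im = s.im := by simp
  have hre : (1 - conj s).re = 1 - s.re := by simp
  refine ⟨by rw [hre]; linarith, by rw [hre]; linarith, by rw [him]; exact h3,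
    by rw [him]; exact h4, ?_⟩
  have ha : AnalyticAt ℂ F s := hF.an s (by linarith)
  have hb : AnalyticAt ℂ F (1 - conj s) := hF.an _ (by rw [him]; linarith)
  have h6 := hF.symm s h1 h2 (by linarith)
  have h7 : analyticOrderAt F s ≠ 0 := ha.analyticOrderAt_ne_zero.mpr h5
  rw [← h6] at h7
  exact hb.analyticOrderAt_ne_zero.mp h7

include hF in
lemma mult_refl {s : ℂ} (h1 : 0 < s.re) (h2 : s.re < 1) (h3 : 1 ≤ s.im) :
    mult F (1 - conj s) = mult F s := by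
  unfold mult analyticOrderNatAt
  rw [hF.symm s h1 h2 h3]

lemma zz_refl (s : ℂ) : zz (1 - conj s) = conj (zz s) := by
  unfold zz
  simp only [map_mul, map_neg, conj_I, map_sub, map_div₀, map_one, Complex.conj_ofNat]
  ring

lemma zz_inj {s s' : ℂ} (h : zz s = zz s') : s = s' := by
  have h1 := zz_spec s
  have h2 := zz_spec s'
  rw [h, ← h2] at h1
  linear_combination h1

lemma zz_re (s : ℂ) : (zz s).re = s.im := by
  unfold zz; simp

lemma zz_im (s : ℂ) : (zz s).im = -(s.re - 1 / 2) := by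
  unfold zz; simp

/-- finset of zeros -/
noncomputable def Zf (F : ℂ → ℂ) (U1 U2 : ℝ) : Finset ℂ := by
  classical
  exact if h : (zset F U1 U2).Finite then h.toFinset else ∅

include hF hU in
lemma mem_Zf {s : ℂ} : s ∈ Zf F U1 U2 ↔ s ∈ zset F U1 U2 := by
  unfold Zf
  rw [dif_pos (zset_finite hF U1 U2 hU), Set.Finite.mem_toFinset]

include hF hU in
lemma finsum_Zf {M : Type*} [AddCommMonoid M] (f : ℂ → M) :
    ∑ᶠ s ∈ zset F U1 U2, f s = ∑ s ∈ Zf F U1 U2, f s := by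
  rw [finsum_mem_eq_finite_toFinset_sum f (zset_finite hF U1 U2 hU)]
  unfold Zf
  rw [dif_pos (zset_finite hF U1 U2 hU)]

include hF hU in
lemma NN_eq : NN F U1 U2 = ∑ s ∈ Zf F U1 U2, mult F s := finsum_Zf hF hU _

include hF hU in
lemma AA_eq (u t : ℝ) : AA F U1 U2 u t = ∑ s ∈ Zf F U1 U2, (mult F s : ℂ) * hh u t s :=
  finsum_Zf hF hU _

include hF hU in
lemma QQ_eq (Λ : ℝ) : QQ F Λ U1 U2 = (∑ s ∈ Zf F U1 U2, ∑ s' ∈ Zf F U1 U2,
    (mult F s : ℂ) * (mult F s' : ℂ) * (phi Λ (zz s - zz s')) ^ 2).re := by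
  unfold QQ
  rw [finsum_Zf hF hU]
  congr 1
  refine Finset.sum_congr rfl fun s _ => ?_
  rw [finsum_Zf hF hU]

include hF hU in
/-- reindexing by the reflection -/
lemma sum_refl {M : Type*} [AddCommMonoid M] (f : ℂ → M) :
    ∑ s ∈ Zf F U1 U2, f (1 - conj s) = ∑ s ∈ Zf F U1 U2, f s := by
  refine Finset.sum_nbij' (fun s => 1 - conj s) (fun s => 1 - conj s) ?_ ?_ ?_ ?_ ?_
  · intro s hs
    rw [mem_Zf hF hU] at hs ⊢
    exact zset_refl hF hU hs
  · intro s hs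
    rw [mem_Zf hF hU] at hs ⊢
    exact zset_refl hF hU hs
  · intro s _; simp
  · intro s _; simp
  · intro s _; rfl

/-- mean square of the zero sum -/
noncomputable def JJ (F : ℂ → ℂ) (U1 U2 u : ℝ) : ℝ := ∫ t : ℝ, ‖AA F U1 U2 u t‖ ^ 2

include hF hU in
lemma JJ_eq (u : ℝ) : ((JJ F U1 U2 u : ℝ) : ℂ) = (Real.sqrt Real.pi : ℂ) *
    ∑ s ∈ Zf F U1 U2, ∑ s' ∈ Zf F U1 U2, (mult F s : ℂ) * (mult F s' : ℂ) *
      (cexp (I * u * (zz s - zz s')) * cexp (-(zz s - zz s') ^ 2 / 4)) := by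
  have h1 : ∀ t : ℝ, ((‖AA F U1 U2 u t‖ ^ 2 : ℝ) : ℂ) =
      ∑ s ∈ Zf F U1 U2, ∑ s' ∈ Zf F U1 U2, (mult F s : ℂ) * (mult F s' : ℂ) *
        (cexp (I * u * (zz s - conj (zz s'))) *
        (cexp (-(zz s - t) ^ 2 / 2) * cexp (-(conj (zz s') - t) ^ 2 / 2))) := by
    intro t
    rw [← Complex.normSq_eq_norm_sq, ← Complex.mul_conj, AA_eq hF hU, map_sum, Finset.sum_mul_sum]
    refine Finset.sum_congr rfl fun s _ => Finset.sum_congr rfl fun s' _ => ?_
    rw [map_mul, hh_conj, hh_eq, Complex.conj_natCast]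
    have : cexp (I * u * (zz s - conj (zz s'))) =
        cexp (I * u * zz s) * cexp (-(I * u * conj (zz s'))) := by
      rw [← Complex.exp_add]; congr 1; ring
    rw [this]; ring
  unfold JJ
  have h0 : ((∫ t : ℝ, ‖AA F U1 U2 u t‖ ^ 2 : ℝ) : ℂ) =
      ∫ t : ℝ, ((‖AA F U1 U2 u t‖ ^ 2 : ℝ) : ℂ) := integral_ofReal.symm
  rw [h0]
  simp_rw [h1]
  rw [integral_finsetSum]
  swap
  · intro s _
    refine integrable_finsetSum _ fun s' _ => ?_
    exact ((gauss_pair_int _ _).const_mul _).const_mul _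
  rw [Finset.mul_sum]
  refine Finset.sum_congr rfl fun s _ => ?_
  rw [integral_finsetSum]
  swap
  · intro s' _
    exact ((gauss_pair_int _ _).const_mul _).const_mul _
  rw [Finset.mul_sum]
  have h2 : ∀ s' ∈ Zf F U1 U2, ∫ t : ℝ, (mult F s : ℂ) * (mult F s' : ℂ) *
        (cexp (I * u * (zz s - conj (zz s'))) *
        (cexp (-(zz s - t) ^ 2 / 2) * cexp (-(conj (zz s') - t) ^ 2 / 2))) =
      (fun w => (Real.sqrt Real.pi : ℂ) * ((mult F s : ℂ) * (mult F w : ℂ) *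
      (cexp (I * u * (zz s - zz w)) * cexp (-(zz s - zz w) ^ 2 / 4)))) (1 - conj s') := by
    intro s' hs'
    rw [mem_Zf hF hU] at hs'
    rw [integral_const_mul, integral_const_mul, gauss_pair]
    simp only
    rw [zz_refl, mult_refl hF hs'.1 hs'.2.1 (by linarith [hs'.2.2.1])]
    ring
  rw [Finset.sum_congr rfl h2]
  exact sum_refl hF hU (fun w => (Real.sqrt Real.pi : ℂ) * ((mult F s : ℂ) * (mult F w : ℂ) *
      (cexp (I * u * (zz s - zz w)) * cexp (-(zz s - zz w) ^ 2 / 4))))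

include hF hU in
lemma JJ_cont : Continuous (fun u : ℝ => JJ F U1 U2 u) := by
  have h : Continuous (fun u : ℝ => ((JJ F U1 U2 u : ℝ) : ℂ)) := by
    simp_rw [JJ_eq hF hU]
    fun_prop
  exact (Complex.continuous_re.comp h).congr fun u => by simp

include hF hU in
lemma JJ_even (u : ℝ) : JJ F U1 U2 (-u) = JJ F U1 U2 u := by
  apply Complex.ofReal_injective
  rw [JJ_eq hF hU, JJ_eq hF hU, Finset.sum_comm]
  congr 1
  refine Finset.sum_congr rfl fun s _ => Finset.sum_congr rfl fun s' _ => ?_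
  have e1 : I * ((-u : ℝ) : ℂ) * (zz s' - zz s) = I * u * (zz s - zz s') := by push_cast; ring
  have e2 : -(zz s' - zz s) ^ 2 / 4 = -(zz s - zz s') ^ 2 / 4 := by ring
  rw [e1, e2]; ring

lemma Rf_cont : Continuous Rf := by
  obtain ⟨K, hK, h⟩ := Rf_lip
  have : LipschitzWith K.toNNReal Rf := by
    refine LipschitzWith.of_dist_le_mul fun x y => ?_
    rw [Real.dist_eq, Real.dist_eq, Real.coe_toNNReal _ hK.le]
    exact h x y
  exact this.continuous

include hF hU in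
lemma QQ_JJ (Λ : ℝ) : QQ F Λ U1 U2 =
    2 / Real.sqrt Real.pi * ∫ α in (0 : ℝ)..1, Rf α * JJ F U1 U2 (Λ * α) := by
  have hpi : (Real.sqrt Real.pi : ℂ) ≠ 0 := by
    rw [Ne, Complex.ofReal_eq_zero]; positivity
  have h1 : ∀ s s' : ℂ, (phi Λ (zz s - zz s')) ^ 2 = ∫ α in (-1 : ℝ)..1, (Rf α : ℂ) *
      (cexp (I * ((Λ * α : ℝ) : ℂ) * (zz s - zz s')) * cexp (-(zz s - zz s') ^ 2 / 4)) := by
    intro s s'
    unfold phi
    rw [mul_pow, kap_sq, ← intervalIntegral.integral_mul_const]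
    refine intervalIntegral.integral_congr fun α _ => ?_
    rw [← Complex.exp_nat_mul]
    have e1 : I * (Λ * (zz s - zz s')) * (α : ℂ) = I * ((Λ * α : ℝ) : ℂ) * (zz s - zz s') := by
      push_cast; ring
    have e2 : ((2 : ℕ) : ℂ) * (-(zz s - zz s') ^ 2 / 8) = -(zz s - zz s') ^ 2 / 4 := by
      push_cast; ring
    rw [e1, e2]; ring
  have h2 : ∑ s ∈ Zf F U1 U2, ∑ s' ∈ Zf F U1 U2,
      (mult F s : ℂ) * (mult F s' : ℂ) * (phi Λ (zz s - zz s')) ^ 2 =
      ∫ α in (-1 : ℝ)..1, ((1 / Real.sqrt Real.pi * (Rf α * JJ F U1 U2 (Λ * α)) : ℝ) : ℂ) := by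
    have h3 : ∀ α : ℝ, ((1 / Real.sqrt Real.pi * (Rf α * JJ F U1 U2 (Λ * α)) : ℝ) : ℂ) =
        ∑ s ∈ Zf F U1 U2, ∑ s' ∈ Zf F U1 U2, (mult F s : ℂ) * (mult F s' : ℂ) * ((Rf α : ℂ) *
      (cexp (I * ((Λ * α : ℝ) : ℂ) * (zz s - zz s')) * cexp (-(zz s - zz s') ^ 2 / 4))) := by
      intro α
      rw [Complex.ofReal_mul, Complex.ofReal_mul, JJ_eq hF hU, Finset.mul_sum, Finset.mul_sum,
        Finset.mul_sum]
      refine Finset.sum_congr rfl fun s _ => ?_
      rw [Finset.mul_sum, Finset.mul_sum, Finset.mul_sum]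
      refine Finset.sum_congr rfl fun s' _ => ?_
      push_cast
      field_simp
    simp_rw [h3]
    have hc : ∀ s s' : ℂ, Continuous fun α : ℝ => (mult F s : ℂ) * (mult F s' : ℂ) * ((Rf α : ℂ) *
      (cexp (I * ((Λ * α : ℝ) : ℂ) * (zz s - zz s')) * cexp (-(zz s - zz s') ^ 2 / 4))) := by
      intro s s'
      have := Rf_cont
      fun_prop
    rw [intervalIntegral.integral_finsetSum]
    swap
    · intro s _
      exact (continuous_finsetSum _ fun s' _ => hc s s').intervalIntegrable _ _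
    refine Finset.sum_congr rfl fun s _ => ?_
    rw [intervalIntegral.integral_finsetSum]
    swap
    · intro s' _
      exact (hc s s').intervalIntegrable _ _
    refine Finset.sum_congr rfl fun s' _ => ?_
    rw [h1, intervalIntegral.integral_const_mul]
  rw [QQ_eq hF hU, h2, intervalIntegral.integral_ofReal, Complex.ofReal_re,
    intervalIntegral.integral_const_mul]
  set G : ℝ → ℝ := fun α => Rf α * JJ F U1 U2 (Λ * α) with hG
  have hGc : Continuous G := Rf_cont.mul ((JJ_cont hF hU).comp (by fun_prop))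
  have hGe : ∀ α, G (-α) = G α := by
    intro α
    simp only [hG]
    rw [Rf_even, mul_neg, JJ_even hF hU]
  have h4 : ∫ α in (-1 : ℝ)..1, G α = 2 * ∫ α in (0 : ℝ)..1, G α := by
    rw [← intervalIntegral.integral_add_adjacent_intervals (b := 0)
      (hGc.intervalIntegrable _ _) (hGc.intervalIntegrable _ _)]
    have h5 : ∫ α in (-1 : ℝ)..0, G α = ∫ α in (0 : ℝ)..1, G α := by
      have := intervalIntegral.integral_comp_neg (a := (0 : ℝ)) (b := 1) G
      simp_rw [hGe] at this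
      rw [neg_zero] at this
      exact this.symm
    rw [h5]; ring
  rw [h4]; ring

end zeros

end H370
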