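import Pool.Agent.H370R2.PC1

open Complex Filter Topology Set MeasureTheory
open scoped BigOperators ComplexConjugate

namespace H370

lemma pc_norm_hh (u t : ℝ) (s : ℂ) :
    ‖hh u t s‖ = Real.exp (u * (s.re - 1 / 2)) *
      Real.exp (((s.re - 1 / 2) ^ 2 - (s.im - t) ^ 2) / 2) := by
  unfold hh
  rw [norm_mul, Complex.norm_exp, Complex.norm_exp]
  congr 2
  · simp
  · have : ((s - 1 / 2 - I * t) ^ 2 / 2 : ℂ).re = ((s.re - 1 / 2) ^ 2 - (s.im - t) ^ 2) / 2 := by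
      rw [show ((s - 1 / 2 - I * t) ^ 2 / 2 : ℂ) = ((s - 1 / 2 - I * t) ^ 2) * ((1 / 2 : ℝ) : ℂ) by
        push_cast; ring, Complex.re_mul_ofReal, sq, Complex.mul_re]
      simp
      ring
    exact this

lemma norm_hh_le {F : ℂ → ℂ} {U1 U2 : ℝ} {s : ℂ} (hs : s ∈ zset F U1 U2) (u t : ℝ) (hu : 0 ≤ u) :
    ‖hh u t s‖ ≤ 2 * Real.exp (u / 2) * Real.exp (-(s.im - t) ^ 2 / 2) := by
  rw [pc_norm_hh]
  have h1 : Real.exp (u * (s.re - 1 / 2)) ≤ Real.exp (u / 2) := by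
    apply Real.exp_le_exp.mpr
    nlinarith [hs.2.1]
  have h2 : Real.exp (((s.re - 1 / 2) ^ 2 - (s.im - t) ^ 2) / 2) ≤
      2 * Real.exp (-(s.im - t) ^ 2 / 2) := by
    have h3 : Real.exp (((s.re - 1 / 2) ^ 2 - (s.im - t) ^ 2) / 2) =
      Real.exp ((s.re - 1 / 2) ^ 2 / 2) * Real.exp (-(s.im - t) ^ 2 / 2) := by
      rw [← Real.exp_add]; congr 1; ring
    rw [h3]
    gcongr
    have h4 : (s.re - 1 / 2) ^ 2 / 2 ≤ 1 / 2 := by nlinarith [hs.1, hs.2.1]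
    calc Real.exp ((s.re - 1 / 2) ^ 2 / 2) ≤ Real.exp (1 / 2) := Real.exp_le_exp.mpr h4
      _ ≤ 2 := by
        have := Real.exp_one_lt_d9
        have h5 : Real.exp (1 / 2) ^ 2 = Real.exp 1 := by
          rw [← Real.exp_nat_mul]; norm_num
        nlinarith [Real.exp_pos (1 / 2 : ℝ)]
  calc _ ≤ Real.exp (u / 2) * (2 * Real.exp (-(s.im - t) ^ 2 / 2)) := by gcongr
    _ = _ := by ring

lemma summable_exp_abs : Summable (fun k : ℤ => Real.exp (-|(k : ℝ)|)) := by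
  rw [summable_int_iff_summable_nat_and_neg]
  have h : Summable (fun n : ℕ => Real.exp (-(n : ℝ))) := Real.summable_exp_neg_nat
  constructor
  · refine h.congr fun n => ?_
    simp
  · refine h.congr fun n => ?_
    simp

lemma exp_floor_le (x : ℝ) : Real.exp (-x ^ 2 / 2) ≤ Real.exp (3 / 2) *
    Real.exp (-|((⌊x⌋ : ℤ) : ℝ)|) := by
  rw [← Real.exp_add]
  apply Real.exp_le_exp.mpr
  have h1 := Int.floor_le x
  have h2 := Int.lt_floor_add_one x
  have h3 : |((⌊x⌋ : ℤ) : ℝ)| ≤ |x| + 1 := by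
    rw [abs_le]
    constructor
    · have := neg_abs_le x; linarith
    · have := le_abs_self x; linarith
  have h4 : |x| ≤ x ^ 2 / 2 + 1 / 2 := by
    have : x ^ 2 = |x| ^ 2 := (sq_abs x).symm
    rw [this]; nlinarith [sq_nonneg (|x| - 1)]
  linarith

section zeros

variable {F : ℂ → ℂ} (hF : GoodL F)

include hF in
lemma local_sum : ∃ C : ℝ, 0 < C ∧ ∀ T : ℝ, 4 ≤ T → ∀ U1 U2 : ℝ, T ≤ U1 → U2 ≤ 2 * T →
    ∀ t : ℝ, ∀ w : ℤ → ℝ, (∀ k, 0 ≤ w k) → ∀ g : ℂ → ℝ,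
      (∀ s ∈ Zf F U1 U2, g s ≤ w ⌊s.im - t⌋) →
      ∑ s ∈ Zf F U1 U2, (mult F s : ℝ) * g s ≤
        C * Real.log T * ∑ k ∈ (Zf F U1 U2).image (fun s => ⌊s.im - t⌋), w k := by
  classical
  obtain ⟨C, hC, hcount⟩ := zcount hF
  refine ⟨2 * C, by positivity, fun T hT U1 U2 hU1 hU2 t w hw g hg => ?_⟩
  have hU : 1 ≤ U1 := by linarith
  rw [← Finset.sum_fiberwise_of_maps_to (s := Zf F U1 U2)
    (t := (Zf F U1 U2).image (fun s => ⌊s.im - t⌋)) (g := fun s => ⌊s.im - t⌋)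
    (fun s hs => Finset.mem_image_of_mem _ hs), Finset.mul_sum]
  refine Finset.sum_le_sum fun k hk => ?_
  obtain ⟨s0, hs0, hk0⟩ := Finset.mem_image.mp hk
  have hs0' := (mem_Zf hF hU).mp hs0
  set t' : ℝ := t + k + 1 / 2 with ht'
  have hkl : (k : ℝ) ≤ s0.im - t := by rw [← hk0]; exact Int.floor_le _
  have hku : s0.im - t < k + 1 := by rw [← hk0]; exact Int.lt_floor_add_one _
  have ht1 : 3.5 ≤ t' := by
    rw [ht']; have := hs0'.2.2.1; norm_num; linarith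
  have ht2 : t' ≤ 2 * T + 1 := by
    rw [ht']; have := hs0'.2.2.2.1; linarith
  have h1 : ∑ s ∈ (Zf F U1 U2).filter (fun s => ⌊s.im - t⌋ = k), (mult F s : ℝ) ≤
      (NN F (t' - 1) (t' + 1) : ℝ) := by
    have ht3 : 1 ≤ t' - 1 := by linarith
    rw [NN_eq hF ht3, Nat.cast_sum]
    refine Finset.sum_le_sum_of_subset_of_nonneg ?_ fun _ _ _ => by positivity
    intro s hs
    rw [Finset.mem_filter] at hs
    rw [mem_Zf hF ht3]
    have hs' := (mem_Zf hF hU).mp hs.1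
    have e1 : (k : ℝ) ≤ s.im - t := by rw [← hs.2]; exact Int.floor_le _
    have e2 : s.im - t < k + 1 := by rw [← hs.2]; exact Int.lt_floor_add_one _
    exact ⟨hs'.1, hs'.2.1, by rw [ht']; linarith, by rw [ht']; linarith, hs'.2.2.2.2⟩
  have h2 : (NN F (t' - 1) (t' + 1) : ℝ) ≤ 2 * C * Real.log T := by
    refine (hcount t' (by linarith)).trans ?_
    have h3 : Real.log t' ≤ 2 * Real.log T := by
      have : Real.log (T ^ 2) = 2 * Real.log T := by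
        rw [Real.log_pow]; norm_num
      rw [← this]
      apply Real.log_le_log (by linarith)
      nlinarith
    nlinarith
  calc ∑ s ∈ (Zf F U1 U2).filter (fun s => ⌊s.im - t⌋ = k), (mult F s : ℝ) * g s
      ≤ ∑ s ∈ (Zf F U1 U2).filter (fun s => ⌊s.im - t⌋ = k), (mult F s : ℝ) * w k := by
        refine Finset.sum_le_sum fun s hs => ?_
        rw [Finset.mem_filter] at hs
        have := hg s hs.1
        rw [hs.2] at this
        gcongr
    _ = (∑ s ∈ (Zf F U1 U2).filter (fun s => ⌊s.im - t⌋ = k), (mult F s : ℝ)) * w k := by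
        rw [Finset.sum_mul]
    _ ≤ (2 * C * Real.log T) * w k := by
        have := hw k
        gcongr
        exact h1.trans h2

/-- Gaussian-weighted zero count -/
noncomputable def Zg (F : ℂ → ℂ) (U1 U2 t : ℝ) : ℝ :=
  ∑ s ∈ Zf F U1 U2, (mult F s : ℝ) * Real.exp (-(s.im - t) ^ 2 / 2)

include hF in
lemma Zg_le : ∃ C : ℝ, 0 < C ∧ ∀ T : ℝ, 4 ≤ T → ∀ U1 U2 : ℝ, T ≤ U1 → U2 ≤ 2 * T →
    ∀ t : ℝ, Zg F U1 U2 t ≤ C * Real.log T := by
  obtain ⟨C, hC, h⟩ := local_sum hF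
  set S := ∑' k : ℤ, Real.exp (-|(k : ℝ)|) with hS
  have hS0 : 0 < S := summable_exp_abs.tsum_pos (fun k => (Real.exp_pos _).le) 0 (Real.exp_pos _)
  refine ⟨C * (Real.exp (3 / 2) * S), by positivity, fun T hT U1 U2 hU1 hU2 t => ?_⟩
  have h1 := h T hT U1 U2 hU1 hU2 t (fun k => Real.exp (3 / 2) * Real.exp (-|(k : ℝ)|))
    (fun k => by positivity) (fun s => Real.exp (-(s.im - t) ^ 2 / 2))
    (fun s _ => exp_floor_le _)
  refine h1.trans ?_
  have hlog : 0 ≤ Real.log T := Real.log_nonneg (by linarith)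
  rw [← Finset.mul_sum]
  have h2 : ∑ k ∈ (Zf F U1 U2).image (fun s => ⌊s.im - t⌋), Real.exp (-|(k : ℝ)|) ≤ S :=
    summable_exp_abs.sum_le_tsum _ (fun k _ => (Real.exp_pos _).le)
  calc C * Real.log T * (Real.exp (3 / 2) *
        ∑ k ∈ (Zf F U1 U2).image (fun s => ⌊s.im - t⌋), Real.exp (-|(k : ℝ)|)) ≤
      C * Real.log T * (Real.exp (3 / 2) * S) := by gcongr
    _ = _ := by ring

include hF in
lemma NN_crude : ∃ C : ℝ, 0 < C ∧ ∀ T : ℝ, 4 ≤ T → ∀ U1 U2 : ℝ, T ≤ U1 → U2 ≤ 2 * T →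
    (NN F U1 U2 : ℝ) ≤ C * (T * Real.log T) := by
  classical
  obtain ⟨C, hC, h⟩ := local_sum hF
  refine ⟨2 * C, by positivity, fun T hT U1 U2 hU1 hU2 => ?_⟩
  have hU : 1 ≤ U1 := by linarith
  have h1 := h T hT U1 U2 hU1 hU2 0 (fun _ => 1) (fun _ => zero_le_one) (fun _ => 1)
    (fun s _ => le_refl _)
  have hlog : 0 ≤ Real.log T := Real.log_nonneg (by linarith)
  rw [NN_eq hF hU, Nat.cast_sum]
  simp only [mul_one, sub_zero, Finset.sum_const, nsmul_eq_mul] at h1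
  have h2 : (((Zf F U1 U2).image (fun s => ⌊s.im⌋)).card : ℝ) ≤ 2 * T := by
    have h3 : (Zf F U1 U2).image (fun s => ⌊s.im⌋) ⊆ Finset.Icc ⌊T⌋ ⌊2 * T⌋ := by
      intro k hk
      obtain ⟨s, hs, rfl⟩ := Finset.mem_image.mp hk
      have hs' := (mem_Zf hF hU).mp hs
      rw [Finset.mem_Icc]
      exact ⟨Int.floor_le_floor (by linarith [hs'.2.2.1]),
        Int.floor_le_floor (by linarith [hs'.2.2.2.1])⟩
    have h4 := Finset.card_le_card h3
    rw [Int.card_Icc] at h4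
    have h5 : ((⌊2 * T⌋ + 1 - ⌊T⌋).toNat : ℝ) ≤ T + 2 := by
      have h6 : (0 : ℤ) ≤ ⌊2 * T⌋ + 1 - ⌊T⌋ := by
        have : ⌊T⌋ ≤ ⌊2 * T⌋ := Int.floor_le_floor (by linarith)
        omega
      have h7 : (((⌊2 * T⌋ + 1 - ⌊T⌋).toNat : ℤ) : ℝ) = ((⌊2 * T⌋ + 1 - ⌊T⌋ : ℤ) : ℝ) := by
        rw [Int.toNat_of_nonneg h6]
      have h8 : ((⌊2 * T⌋ + 1 - ⌊T⌋).toNat : ℝ) = (((⌊2 * T⌋ + 1 - ⌊T⌋).toNat : ℤ) : ℝ) := by
        norm_cast
      rw [h8, h7]
      push_cast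
      have := Int.floor_le (2 * T)
      have := Int.lt_floor_add_one T
      linarith
    have h9 : (((Zf F U1 U2).image (fun s => ⌊s.im⌋)).card : ℝ) ≤
        ((⌊2 * T⌋ + 1 - ⌊T⌋).toNat : ℝ) := by exact_mod_cast h4
    linarith
  calc ∑ s ∈ Zf F U1 U2, (mult F s : ℝ) ≤
      C * Real.log T * (((Zf F U1 U2).image (fun s => ⌊s.im⌋)).card : ℝ) := h1
    _ ≤ C * Real.log T * (2 * T) := by gcongr
    _ = _ := by ring

lemma Zg_nonneg (F : ℂ → ℂ) (U1 U2 t : ℝ) : 0 ≤ Zg F U1 U2 t :=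
  Finset.sum_nonneg fun s _ => by positivity

lemma Zg_cont (F : ℂ → ℂ) (U1 U2 : ℝ) : Continuous (fun t => Zg F U1 U2 t) := by
  unfold Zg
  fun_prop

include hF in
lemma AA_le_Zg {U1 U2 : ℝ} (hU : 1 ≤ U1) (u t : ℝ) (hu : 0 ≤ u) :
    ‖AA F U1 U2 u t‖ ≤ 2 * Real.exp (u / 2) * Zg F U1 U2 t := by
  rw [AA_eq hF hU]
  unfold Zg
  rw [Finset.mul_sum]
  refine (norm_sum_le _ _).trans (Finset.sum_le_sum fun s hs => ?_)
  have := norm_hh_le ((mem_Zf hF hU).mp hs) u t hu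
  rw [norm_mul, Complex.norm_natCast]
  calc (mult F s : ℝ) * ‖hh u t s‖ ≤
      (mult F s : ℝ) * (2 * Real.exp (u / 2) * Real.exp (-(s.im - t) ^ 2 / 2)) := by gcongr
    _ = _ := by ring

include hF in
lemma Zg_left {T U1 U2 t : ℝ} (hU : 1 ≤ U1) (hT : T ≤ U1) (ht : t ≤ T) :
    Zg F U1 U2 t ≤ (NN F U1 U2 : ℝ) * Real.exp (-(T - t) ^ 2 / 2) := by
  rw [NN_eq hF hU, Nat.cast_sum, Finset.sum_mul]
  unfold Zg
  refine Finset.sum_le_sum fun s hs => ?_
  have h1 := ((mem_Zf hF hU).mp hs).2.2.1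
  gcongr _ * Real.exp ?_
  nlinarith

include hF in
lemma Zg_right {T U1 U2 t : ℝ} (hU : 1 ≤ U1) (hT : U2 ≤ 2 * T) (ht : 2 * T ≤ t) :
    Zg F U1 U2 t ≤ (NN F U1 U2 : ℝ) * Real.exp (-(2 * T - t) ^ 2 / 2) := by
  rw [NN_eq hF hU, Nat.cast_sum, Finset.sum_mul]
  unfold Zg
  refine Finset.sum_le_sum fun s hs => ?_
  have h1 := ((mem_Zf hF hU).mp hs).2.2.2.1
  gcongr _ * Real.exp ?_
  nlinarith

include hF in
lemma AA_cont {U1 U2 : ℝ} (hU : 1 ≤ U1) (u : ℝ) : Continuous (fun t => AA F U1 U2 u t) := by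
  simp_rw [AA_eq hF hU]
  unfold hh
  fun_prop

include hF in
lemma AA_sq_int {U1 U2 : ℝ} (hU : 1 ≤ U1) (u : ℝ) :
    Integrable (fun t : ℝ => ‖AA F U1 U2 u t‖ ^ 2) := by
  have h1 : ∀ t : ℝ, ((‖AA F U1 U2 u t‖ ^ 2 : ℝ) : ℂ) =
      ∑ s ∈ Zf F U1 U2, ∑ s' ∈ Zf F U1 U2, (mult F s : ℂ) * (mult F s' : ℂ) *
        (cexp (I * u * (zz s - conj (zz s'))) *
        (cexp (-(zz s - t) ^ 2 / 2) * cexp (-(conj (zz s') - t) ^ 2 / 2))) := by
    intro t
    rw [← Complex.normSq_eq_norm_sq, ← Complex.mul_conj, AA_eq hF hU, map_sum, Finset.sum_mul_sum]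
    refine Finset.sum_congr rfl fun s _ => Finset.sum_congr rfl fun s' _ => ?_
    rw [map_mul, hh_conj, hh_eq, Complex.conj_natCast]
    have : cexp (I * u * (zz s - conj (zz s'))) =
        cexp (I * u * zz s) * cexp (-(I * u * conj (zz s'))) := by
      rw [← Complex.exp_add]; congr 1; ring
    rw [this]; ring
  have h2 : Integrable (fun t : ℝ => ((‖AA F U1 U2 u t‖ ^ 2 : ℝ) : ℂ)) := by
    simp_rw [h1]
    refine integrable_finsetSum _ fun s _ => integrable_finsetSum _ fun s' _ => ?_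
    exact ((gauss_pair_int _ _).const_mul _).const_mul _
  exact h2.re

include hF in
lemma AA_int {U1 U2 : ℝ} (hU : 1 ≤ U1) (u : ℝ) :
    Integrable (fun t : ℝ => AA F U1 U2 u t) := by
  simp_rw [AA_eq hF hU]
  refine integrable_finsetSum _ fun s _ => ?_
  simp_rw [hh_eq]
  exact ((gauss_single_int _).const_mul _).const_mul _

lemma gauss_real_int (c : ℝ) : Integrable (fun t : ℝ => Real.exp (-(c - t) ^ 2 / 2)) := by
  have := (gauss_single_int (c : ℂ)).re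
  refine this.congr (Eventually.of_forall fun t => ?_)
  simp only
  rw [show (-((c : ℂ) - t) ^ 2 / 2 : ℂ) = ((-(c - t) ^ 2 / 2 : ℝ) : ℂ) by push_cast; ring,
    ← Complex.ofReal_exp]
  exact Complex.ofReal_re _

lemma gauss_real (c : ℝ) : ∫ t : ℝ, Real.exp (-(c - t) ^ 2 / 2) = Real.sqrt (2 * Real.pi) := by
  apply Complex.ofReal_injective
  rw [← gauss_single (c : ℂ)]
  have h0 : ((∫ t : ℝ, Real.exp (-(c - t) ^ 2 / 2) : ℝ) : ℂ) =
      ∫ t : ℝ, ((Real.exp (-(c - t) ^ 2 / 2) : ℝ) : ℂ) := integral_ofReal.symm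
  rw [h0]
  congr 1
  ext t
  push_cast
  ring_nf

include hF in
/-- outer region, mean square -/
lemma outer_sq : ∃ C T1 : ℝ, 0 < C ∧ 4 ≤ T1 ∧ ∀ T : ℝ, T1 ≤ T → ∀ U1 U2 : ℝ, T ≤ U1 →
    U2 ≤ 2 * T → ∀ u : ℝ, 0 ≤ u →
    ∫ t in (Set.Icc (T + Real.log T) (2 * T - Real.log T))ᶜ, ‖AA F U1 U2 u t‖ ^ 2 ≤
      C * Real.exp u * (Real.log T) ^ 3 := by
  obtain ⟨C1, hC1, hZ⟩ := Zg_le hF
  obtain ⟨C2, hC2, hN⟩ := NN_crude hF
  -- need `T^2 L^2 exp(-L^2/2) ≤ 1` for large T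
  have hlim : ∀ᶠ T : ℝ in atTop, T ^ 2 * Real.exp (-(Real.log T) ^ 2 / 2) ≤ 1 := by
    have h4 : ∀ᶠ T : ℝ in atTop, 4 ≤ Real.log T := Real.tendsto_log_atTop.eventually_ge_atTop 4
    filter_upwards [h4, eventually_gt_atTop 0] with T hT hT0
    have : T ^ 2 = Real.exp (2 * Real.log T) := by
      rw [mul_comm, Real.exp_mul, Real.exp_log hT0]; norm_cast
    rw [this, ← Real.exp_add]
    apply Real.exp_le_one_iff.mpr
    nlinarith
  obtain ⟨T2, hT2⟩ := (hlim.and (Real.tendsto_log_atTop.eventually_ge_atTop 1)).exists_forall_of_atTop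
  refine ⟨4 * (4 * C1 ^ 2 + C2 ^ 2 * (2 * Real.sqrt (2 * Real.pi))), max T2 4, by positivity,
    le_max_right _ _, fun T hT U1 U2 hU1 hU2 u hu => ?_⟩
  have hTa := (hT2 T ((le_max_left _ _).trans hT)).1
  have hL1 := (hT2 T ((le_max_left _ _).trans hT)).2
  have hT4 : 4 ≤ T := (le_max_right _ _).trans hT
  have hU : 1 ≤ U1 := by linarith
  set L := Real.log T with hL
  set N : ℝ := (NN F U1 U2 : ℝ) with hNdef
  have hN0 : 0 ≤ N := by positivity
  have hNle : N ≤ C2 * (T * L) := hN T hT4 U1 U2 hU1 hU2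
  set Ψ : ℝ → ℝ := fun t => 4 * Real.exp u * ((C1 * L) ^ 2 *
    ((Set.Icc (T - L) (T + L)).indicator (fun _ => (1 : ℝ)) t +
      (Set.Icc (2 * T - L) (2 * T + L)).indicator (fun _ => (1 : ℝ)) t) +
    N ^ 2 * Real.exp (-L ^ 2 / 2) *
      (Real.exp (-(T - t) ^ 2 / 2) + Real.exp (-(2 * T - t) ^ 2 / 2))) with hΨ
  have hind : ∀ a b : ℝ, Integrable ((Set.Icc a b).indicator (fun _ => (1 : ℝ))) := by
    intro a b
    rw [integrable_indicator_iff measurableSet_Icc]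
    exact integrableOn_const (by simp)
  have hΨint : Integrable Ψ := by
    simp only [hΨ]
    refine Integrable.const_mul ?_ _
    refine Integrable.add ?_ ?_
    · exact ((hind _ _).add (hind _ _)).const_mul _
    · exact ((gauss_real_int _).add (gauss_real_int _)).const_mul _
  have hΨ0 : ∀ t, 0 ≤ Ψ t := by
    intro t
    simp only [hΨ]
    have e1 : 0 ≤ (Set.Icc (T - L) (T + L)).indicator (fun _ => (1 : ℝ)) t :=
      Set.indicator_nonneg (fun _ _ => zero_le_one) _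
    have e2 : 0 ≤ (Set.Icc (2 * T - L) (2 * T + L)).indicator (fun _ => (1 : ℝ)) t :=
      Set.indicator_nonneg (fun _ _ => zero_le_one) _
    positivity
  have hpt : ∀ t ∈ (Set.Icc (T + L) (2 * T - L))ᶜ, ‖AA F U1 U2 u t‖ ^ 2 ≤ Ψ t := by
    intro t ht
    have e1 : 0 ≤ (Set.Icc (T - L) (T + L)).indicator (fun _ => (1 : ℝ)) t :=
      Set.indicator_nonneg (fun _ _ => zero_le_one) _
    have e2 : 0 ≤ (Set.Icc (2 * T - L) (2 * T + L)).indicator (fun _ => (1 : ℝ)) t :=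
      Set.indicator_nonneg (fun _ _ => zero_le_one) _
    have h1 := AA_le_Zg hF (U2 := U2) hU u t hu
    have hZ0 := Zg_nonneg F U1 U2 t
    have h2 : ‖AA F U1 U2 u t‖ ^ 2 ≤ 4 * Real.exp u * (Zg F U1 U2 t) ^ 2 := by
      calc ‖AA F U1 U2 u t‖ ^ 2 ≤ (2 * Real.exp (u / 2) * Zg F U1 U2 t) ^ 2 := by gcongr
        _ = 4 * (Real.exp (u / 2)) ^ 2 * (Zg F U1 U2 t) ^ 2 := by ring
        _ = _ := by
          congr 2
          rw [← Real.exp_nat_mul]; congr 1; push_cast; ring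
    refine h2.trans ?_
    simp only [hΨ]
    gcongr
    -- cases
    have hcase : (t ∈ Set.Icc (T - L) (T + L) ∨ t ∈ Set.Icc (2 * T - L) (2 * T + L)) ∨
        t < T - L ∨ 2 * T + L < t := by
      by_contra hcon
      push Not at hcon
      obtain ⟨⟨h3, h4⟩, h5, h6⟩ := hcon
      apply ht
      rw [Set.mem_Icc, not_and_or, not_le, not_le] at h3 h4
      rw [Set.mem_Icc]
      rcases h3 with h3 | h3
      · linarith
      · rcases h4 with h4 | h4
        · exact ⟨h3.le, h4.le⟩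
        · linarith
    have hE : 0 ≤ N ^ 2 * Real.exp (-L ^ 2 / 2) *
      (Real.exp (-(T - t) ^ 2 / 2) + Real.exp (-(2 * T - t) ^ 2 / 2)) := by positivity
    rcases hcase with h3 | h3 | h3
    · have h4 : 1 ≤ (Set.Icc (T - L) (T + L)).indicator (fun _ => (1 : ℝ)) t +
          (Set.Icc (2 * T - L) (2 * T + L)).indicator (fun _ => (1 : ℝ)) t := by
        rcases h3 with h3 | h3
        · rw [Set.indicator_of_mem h3]; linarith
        · rw [Set.indicator_of_mem h3]; linarith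
      have h5 : (Zg F U1 U2 t) ^ 2 ≤ (C1 * L) ^ 2 := by
        have := hZ T hT4 U1 U2 hU1 hU2 t
        gcongr
      have h6 : (C1 * L) ^ 2 * 1 ≤ (C1 * L) ^ 2 *
          ((Set.Icc (T - L) (T + L)).indicator (fun _ => (1 : ℝ)) t +
          (Set.Icc (2 * T - L) (2 * T + L)).indicator (fun _ => (1 : ℝ)) t) := by gcongr
      linarith
    · have h4 := Zg_left hF (U2 := U2) hU hU1 (show t ≤ T by linarith)
      have h5 : (Zg F U1 U2 t) ^ 2 ≤ N ^ 2 * Real.exp (-L ^ 2 / 2) *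
          Real.exp (-(T - t) ^ 2 / 2) := by
        calc (Zg F U1 U2 t) ^ 2 ≤ (N * Real.exp (-(T - t) ^ 2 / 2)) ^ 2 := by gcongr
          _ = N ^ 2 * Real.exp (-(T - t) ^ 2 / 2) * Real.exp (-(T - t) ^ 2 / 2) := by ring
          _ ≤ _ := by
            gcongr _ * Real.exp ?_ * _
            nlinarith
      have h6 : 0 ≤ (C1 * L) ^ 2 * ((Set.Icc (T - L) (T + L)).indicator (fun _ => (1 : ℝ)) t +
          (Set.Icc (2 * T - L) (2 * T + L)).indicator (fun _ => (1 : ℝ)) t) := by positivity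
      have h7 : 0 ≤ N ^ 2 * Real.exp (-L ^ 2 / 2) * Real.exp (-(2 * T - t) ^ 2 / 2) := by
        positivity
      linarith
    · have h4 := Zg_right hF (U2 := U2) hU hU2 (show 2 * T ≤ t by linarith)
      have h5 : (Zg F U1 U2 t) ^ 2 ≤ N ^ 2 * Real.exp (-L ^ 2 / 2) *
          Real.exp (-(2 * T - t) ^ 2 / 2) := by
        calc (Zg F U1 U2 t) ^ 2 ≤ (N * Real.exp (-(2 * T - t) ^ 2 / 2)) ^ 2 := by gcongr
          _ = N ^ 2 * Real.exp (-(2 * T - t) ^ 2 / 2) * Real.exp (-(2 * T - t) ^ 2 / 2) := by ring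
          _ ≤ _ := by
            gcongr _ * Real.exp ?_ * _
            nlinarith
      have h6 : 0 ≤ (C1 * L) ^ 2 * ((Set.Icc (T - L) (T + L)).indicator (fun _ => (1 : ℝ)) t +
          (Set.Icc (2 * T - L) (2 * T + L)).indicator (fun _ => (1 : ℝ)) t) := by positivity
      have h7 : 0 ≤ N ^ 2 * Real.exp (-L ^ 2 / 2) * Real.exp (-(T - t) ^ 2 / 2) := by
        positivity
      linarith
  have hstep1 : ∫ t in (Set.Icc (T + L) (2 * T - L))ᶜ, ‖AA F U1 U2 u t‖ ^ 2 ≤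
      ∫ t in (Set.Icc (T + L) (2 * T - L))ᶜ, Ψ t :=
    setIntegral_mono_on (AA_sq_int hF hU u).integrableOn hΨint.integrableOn
      measurableSet_Icc.compl hpt
  have hstep2 : ∫ t in (Set.Icc (T + L) (2 * T - L))ᶜ, Ψ t ≤ ∫ t, Ψ t :=
    setIntegral_le_integral hΨint (Eventually.of_forall hΨ0)
  have hstep3 : ∫ t, Ψ t = 4 * Real.exp u * ((C1 * L) ^ 2 * (4 * L) +
      N ^ 2 * Real.exp (-L ^ 2 / 2) * (2 * Real.sqrt (2 * Real.pi))) := by
    simp only [hΨ]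
    rw [integral_const_mul, integral_add, integral_const_mul, integral_const_mul, integral_add,
      integral_add, gauss_real, gauss_real, integral_indicator measurableSet_Icc,
      integral_indicator measurableSet_Icc]
    · simp only [integral_const, MeasurableSet.univ, measureReal_restrict_apply, Set.univ_inter,
        Real.volume_real_Icc, smul_eq_mul, mul_one]
      rw [max_eq_left (by linarith), max_eq_left (by linarith)]
      ring
    · exact gauss_real_int _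
    · exact gauss_real_int _
    · exact hind _ _
    · exact hind _ _
    · exact ((hind _ _).add (hind _ _)).const_mul _
    · exact ((gauss_real_int _).add (gauss_real_int _)).const_mul _
  refine (hstep1.trans hstep2).trans ?_
  rw [hstep3]
  have hN2 : N ^ 2 * Real.exp (-L ^ 2 / 2) ≤ C2 ^ 2 * L ^ 2 := by
    calc N ^ 2 * Real.exp (-L ^ 2 / 2) ≤ (C2 * (T * L)) ^ 2 * Real.exp (-L ^ 2 / 2) := by gcongr
      _ = C2 ^ 2 * L ^ 2 * (T ^ 2 * Real.exp (-L ^ 2 / 2)) := by ring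
      _ ≤ C2 ^ 2 * L ^ 2 * 1 := by gcongr
      _ = _ := by ring
  have hL3 : L ^ 2 ≤ L ^ 3 := by nlinarith [sq_nonneg L]
  have hs0 : 0 ≤ Real.sqrt (2 * Real.pi) := Real.sqrt_nonneg _
  calc 4 * Real.exp u * ((C1 * L) ^ 2 * (4 * L) +
      N ^ 2 * Real.exp (-L ^ 2 / 2) * (2 * Real.sqrt (2 * Real.pi))) ≤
      4 * Real.exp u * ((C1 * L) ^ 2 * (4 * L) +
      (C2 ^ 2 * L ^ 2) * (2 * Real.sqrt (2 * Real.pi))) := by gcongr
    _ ≤ 4 * Real.exp u * ((C1 * L) ^ 2 * (4 * L) +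
      (C2 ^ 2 * L ^ 3) * (2 * Real.sqrt (2 * Real.pi))) := by gcongr
    _ = _ := by ring

end zeros

end H370
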