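import Pool.Agent.H370R2.PC2

open Complex Filter Topology Set MeasureTheory
open scoped BigOperators ComplexConjugate ArithmeticFunction

namespace H370

/-- bound sequence -/
lemma vM_le (n : ℕ) : ArithmeticFunction.vonMangoldt n ≤ 2 * Real.sqrt n := by
  rcases Nat.eq_zero_or_pos n with rfl | hn
  · simp
  · refine ArithmeticFunction.vonMangoldt_le_log.trans ?_
    have h := Real.log_le_rpow_div (x := (n : ℝ)) (by positivity) (ε := 1 / 2) (by norm_num)
    rw [← Real.sqrt_eq_rpow] at h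
    linarith

lemma sum_inv_sq : Summable (fun n : ℕ => 1 / (n : ℝ) ^ 2) :=
  Real.summable_one_div_nat_pow.mpr one_lt_two

lemma exp_log_sq (n : ℕ) (hn : 1 ≤ n) : Real.exp (-(2 * Real.log n)) = 1 / (n : ℝ) ^ 2 := by
  have hn0 : (0 : ℝ) < n := by exact_mod_cast hn
  rw [Real.exp_neg, mul_comm, Real.exp_mul, Real.exp_log hn0, one_div]
  norm_cast

/-- the modulus of the prime terms -/
noncomputable def pt (a : ℕ → ℂ) (u : ℝ) (n : ℕ) : ℝ :=
  ‖a n‖ * (Real.sqrt n)⁻¹ * Real.exp (-(u - Real.log n) ^ 2 / 2)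

noncomputable def pterm (a : ℕ → ℂ) (u t : ℝ) (n : ℕ) : ℂ :=
  a n * (Real.sqrt n : ℂ)⁻¹ * cexp (I * t * (u - Real.log n)) *
    Real.exp (-(u - Real.log n) ^ 2 / 2)

lemma norm_pterm (a : ℕ → ℂ) (u t : ℝ) (n : ℕ) : ‖pterm a u t n‖ = pt a u n := by
  unfold pterm pt
  rw [norm_mul, norm_mul, norm_mul, norm_inv, Complex.norm_real, Complex.norm_real,
    Real.norm_of_nonneg (Real.sqrt_nonneg _), Real.norm_of_nonneg (Real.exp_pos _).le]
  have : ‖cexp (I * t * (u - Real.log n))‖ = 1 := by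
    rw [show (I * t * (u - Real.log n) : ℂ) = ((t * (u - Real.log n) : ℝ) : ℂ) * I by
      push_cast; ring, Complex.norm_exp_ofReal_mul_I]
  rw [this, mul_one]

section

variable {a : ℕ → ℂ} (ha : ∀ n, ‖a n‖ ≤ ArithmeticFunction.vonMangoldt n)

include ha in
lemma pt_le_gen (u : ℝ) (n : ℕ) (B : ℝ) (hB : 0 ≤ B)
    (h : 1 ≤ n → Real.exp (-(u - Real.log n) ^ 2 / 2) ≤ B * Real.exp (-(2 * Real.log n))) :
    pt a u n ≤ 2 * B * (1 / (n : ℝ) ^ 2) := by
  rcases Nat.eq_zero_or_pos n with rfl | hn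
  · unfold pt
    have h0 : ‖a 0‖ ≤ 0 := by simpa using ha 0
    have h1 : ‖a 0‖ = 0 := le_antisymm h0 (norm_nonneg _)
    rw [h1]; simp
  · unfold pt
    have h1 := h hn
    rw [exp_log_sq n hn] at h1
    have h2 : ‖a n‖ * (Real.sqrt n)⁻¹ ≤ 2 := by
      have hs : 0 < Real.sqrt n := Real.sqrt_pos.mpr (by exact_mod_cast hn)
      rw [← div_eq_mul_inv, div_le_iff₀ hs]
      exact (ha n).trans (vM_le n)
    calc ‖a n‖ * (Real.sqrt n)⁻¹ * Real.exp (-(u - Real.log n) ^ 2 / 2) ≤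
        2 * (B * (1 / (n : ℝ) ^ 2)) := by
          gcongr
      _ = _ := by ring

include ha in
lemma pt_le (u : ℝ) (n : ℕ) : pt a u n ≤ 2 * Real.exp (2 + 2 * u) * (1 / (n : ℝ) ^ 2) := by
  refine pt_le_gen ha u n _ (Real.exp_pos _).le fun _ => ?_
  rw [← Real.exp_add]
  apply Real.exp_le_exp.mpr
  nlinarith [sq_nonneg (u - Real.log n + 2)]

include ha in
lemma pt_le_tail (u D : ℝ) (n : ℕ) (hD : 0 ≤ D) (h : u + D ≤ Real.log n) :
    pt a u n ≤ 2 * (Real.exp (4 + 2 * u) * Real.exp (-D ^ 2 / 4)) * (1 / (n : ℝ) ^ 2) := by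
  refine pt_le_gen ha u n _ (by positivity) fun _ => ?_
  rw [← Real.exp_add, ← Real.exp_add]
  apply Real.exp_le_exp.mpr
  have h1 : D ^ 2 ≤ (Real.log n - u) ^ 2 := by
    apply pow_le_pow_left₀ hD; linarith
  nlinarith [sq_nonneg ((Real.log n - u) / 2 - 2)]

lemma pt_nonneg (a : ℕ → ℂ) (u : ℝ) (n : ℕ) : 0 ≤ pt a u n := by
  unfold pt; positivity

include ha in
lemma pt_summable (u : ℝ) : Summable (pt a u) :=
  Summable.of_nonneg_of_le (pt_nonneg a u) (pt_le ha u) (sum_inv_sq.mul_left _)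

include ha in
lemma pterm_summable (u t : ℝ) : Summable (pterm a u t) := by
  refine Summable.of_norm ?_
  simp_rw [norm_pterm]
  exact pt_summable ha u

lemma PP_eq (a : ℕ → ℂ) (u t : ℝ) : PP a u t = ∑' n, pterm a u t n := rfl

include ha in
lemma PP_cont (u : ℝ) : Continuous (fun t => PP a u t) := by
  simp_rw [PP_eq]
  refine continuous_tsum (u := pt a u) (fun n => ?_) (pt_summable ha u) (fun n t => ?_)
  · unfold pterm; fun_prop
  · rw [norm_pterm]

include ha in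
lemma PP_bound (u t : ℝ) : ‖PP a u t‖ ≤
    2 * (∑' n : ℕ, 1 / (n : ℝ) ^ 2) * Real.exp (2 + 2 * u) := by
  rw [PP_eq]
  have h1 := pt_summable ha u
  calc ‖∑' n, pterm a u t n‖ ≤ ∑' n, ‖pterm a u t n‖ := by
        apply norm_tsum_le_tsum_norm
        simp_rw [norm_pterm]; exact h1
    _ = ∑' n, pt a u n := by simp_rw [norm_pterm]
    _ ≤ ∑' n : ℕ, 2 * Real.exp (2 + 2 * u) * (1 / (n : ℝ) ^ 2) :=
        h1.tsum_le_tsum (pt_le ha u) (sum_inv_sq.mul_left _)
    _ = _ := by rw [tsum_mul_left]; ring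

include ha in
/-- truncation -/
lemma PP_trunc (u t D : ℝ) (X : ℕ) (hD : 0 ≤ D) (hX : u + D ≤ Real.log (X + 1)) :
    ‖PP a u t - ∑ n ∈ Finset.Icc 1 X, pterm a u t n‖ ≤
      2 * (∑' n : ℕ, 1 / (n : ℝ) ^ 2) * (Real.exp (4 + 2 * u) * Real.exp (-D ^ 2 / 4)) := by
  have h1 := pterm_summable ha u t
  have h2 := h1.sum_add_tsum_nat_add (X + 1)
  have h3 : ∑ n ∈ Finset.range (X + 1), pterm a u t n = ∑ n ∈ Finset.Icc 1 X, pterm a u t n := by
    rw [Finset.range_eq_Ico, Finset.sum_eq_sum_Ico_succ_bot (by omega)]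
    have h0 : pterm a u t 0 = 0 := by
      rw [← norm_eq_zero, norm_pterm]
      have := pt_le ha u 0
      have h0' := pt_nonneg a u 0
      simp only [Nat.cast_zero, ne_eq, OfNat.ofNat_ne_zero, not_false_eq_true, zero_pow,
        div_zero, mul_zero] at this
      linarith
    rw [h0, zero_add]
    rfl
  rw [PP_eq, ← h2, h3, add_sub_cancel_left]
  have hs1 : Summable (fun n => pt a u (n + (X + 1))) :=
    (summable_nat_add_iff (X + 1)).mpr (pt_summable ha u)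
  have hs2 : Summable (fun n : ℕ => 1 / ((n + (X + 1) : ℕ) : ℝ) ^ 2) :=
    (summable_nat_add_iff (f := fun n : ℕ => 1 / (n : ℝ) ^ 2) (X + 1)).mpr sum_inv_sq
  calc ‖∑' n, pterm a u t (n + (X + 1))‖ ≤ ∑' n, ‖pterm a u t (n + (X + 1))‖ := by
        apply norm_tsum_le_tsum_norm
        simp_rw [norm_pterm]; exact hs1
    _ = ∑' n, pt a u (n + (X + 1)) := by simp_rw [norm_pterm]
    _ ≤ ∑' n : ℕ, 2 * (Real.exp (4 + 2 * u) * Real.exp (-D ^ 2 / 4)) *
        (1 / ((n + (X + 1) : ℕ) : ℝ) ^ 2) := by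
        refine hs1.tsum_le_tsum (fun n => pt_le_tail ha u D _ hD (hX.trans ?_)) (hs2.mul_left _)
        apply Real.log_le_log (by positivity)
        push_cast
        have : (0 : ℝ) ≤ n := by positivity
        linarith
    _ = 2 * (Real.exp (4 + 2 * u) * Real.exp (-D ^ 2 / 4)) *
        ∑' n : ℕ, (1 / ((n + (X + 1) : ℕ) : ℝ) ^ 2) := tsum_mul_left
    _ ≤ 2 * (Real.exp (4 + 2 * u) * Real.exp (-D ^ 2 / 4)) * ∑' n : ℕ, 1 / (n : ℝ) ^ 2 := by
        have h5 := sum_inv_sq.sum_add_tsum_nat_add (X + 1)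
        have h6 : 0 ≤ ∑ i ∈ Finset.range (X + 1), 1 / (i : ℝ) ^ 2 :=
          Finset.sum_nonneg fun _ _ => by positivity
        have h7 : ∑' n : ℕ, (1 / ((n + (X + 1) : ℕ) : ℝ) ^ 2) ≤ ∑' n : ℕ, 1 / (n : ℝ) ^ 2 := by
          linarith
        gcongr
    _ = _ := by ring

/-- the smoothed sum of `Λ²` -/
noncomputable def VV (u : ℝ) : ℝ := ∑' n : ℕ, (ArithmeticFunction.vonMangoldt n) ^ 2 / n *
        Real.exp (-(u - Real.log n) ^ 2)

lemma VV_term_le (u : ℝ) (n : ℕ) : (ArithmeticFunction.vonMangoldt n) ^ 2 / n *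
        Real.exp (-(u - Real.log n) ^ 2) ≤ 4 * Real.exp (1 + 2 * u) * (1 / (n : ℝ) ^ 2) := by
  rcases Nat.eq_zero_or_pos n with rfl | hn
  · simp
  · rw [← exp_log_sq n hn, mul_assoc, ← Real.exp_add]
    have hn0 : (0 : ℝ) < n := by exact_mod_cast hn
    gcongr ?_ * Real.exp ?_
    · rw [div_le_iff₀ hn0]
      have h1 := vM_le n
      have h2 : 0 ≤ ArithmeticFunction.vonMangoldt n := ArithmeticFunction.vonMangoldt_nonneg
      calc (ArithmeticFunction.vonMangoldt n) ^ 2 ≤ (2 * Real.sqrt n) ^ 2 := by gcongr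
        _ = 4 * (n : ℝ) := by rw [mul_pow, Real.sq_sqrt hn0.le]; norm_num
    · nlinarith [sq_nonneg (Real.log n - u - 1)]

lemma VV_term_nonneg (u : ℝ) (n : ℕ) : 0 ≤ (ArithmeticFunction.vonMangoldt n) ^ 2 / n *
        Real.exp (-(u - Real.log n) ^ 2) := by positivity

lemma VV_summable (u : ℝ) : Summable (fun n : ℕ => (ArithmeticFunction.vonMangoldt n) ^ 2 / n *
        Real.exp (-(u - Real.log n) ^ 2)) :=
  Summable.of_nonneg_of_le (VV_term_nonneg u) (VV_term_le u) (sum_inv_sq.mul_left _)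

lemma VV_nonneg (u : ℝ) : 0 ≤ VV u := tsum_nonneg (VV_term_nonneg u)

lemma VV_cont (B : ℝ) : ContinuousOn VV (Set.Iic B) := by
  unfold VV
  refine continuousOn_tsum (u := fun n : ℕ => 4 * Real.exp (1 + 2 * B) * (1 / (n : ℝ) ^ 2))
    (fun n => ?_) (sum_inv_sq.mul_left _) (fun n u hu => ?_)
  · fun_prop
  · rw [Real.norm_of_nonneg (VV_term_nonneg u n)]
    refine (VV_term_le u n).trans ?_
    gcongr
    exact hu

lemma sq_young {x y : ℂ} {η : ℝ} (hη : 0 < η) :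
    ‖x + y‖ ^ 2 ≤ (1 + η) * ‖x‖ ^ 2 + (1 + 1 / η) * ‖y‖ ^ 2 := by
  have h1 : ‖x + y‖ ^ 2 ≤ (‖x‖ + ‖y‖) ^ 2 := by
    have := norm_add_le x y
    gcongr
  have h2 : 2 * (‖x‖ * ‖y‖) ≤ η * ‖x‖ ^ 2 + 1 / η * ‖y‖ ^ 2 := by
    have h3 : η * ‖x‖ ^ 2 + 1 / η * ‖y‖ ^ 2 - 2 * (‖x‖ * ‖y‖) =
        (1 / η) * (η * ‖x‖ - ‖y‖) ^ 2 := by
      field_simp; ring
    have h4 : 0 ≤ (1 / η) * (η * ‖x‖ - ‖y‖) ^ 2 := by positivity
    linarith
  nlinarith

include ha in
lemma PP_ms (u D T1 T2 η : ℝ) (X : ℕ) (hη : 0 < η) (hT : T1 ≤ T2) (hD : 0 ≤ D)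
    (hX : u + D ≤ Real.log (X + 1)) :
    ∫ t in T1..T2, ‖PP a u t‖ ^ 2 ≤
      (1 + η) * ((T2 - T1 + 8 * X * (1 + Real.log X)) * VV u) +
      (1 + 1 / η) * ((T2 - T1) * (2 * (∑' n : ℕ, 1 / (n : ℝ) ^ 2) *
        (Real.exp (4 + 2 * u) * Real.exp (-D ^ 2 / 4))) ^ 2) := by
  set E := 2 * (∑' n : ℕ, 1 / (n : ℝ) ^ 2) *
        (Real.exp (4 + 2 * u) * Real.exp (-D ^ 2 / 4)) with hE
  set b : ℕ → ℂ := fun n => a n * (Real.sqrt n : ℂ)⁻¹ * Real.exp (-(u - Real.log n) ^ 2 / 2) with hb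
  have h1 : ∀ t : ℝ, ‖∑ n ∈ Finset.Icc 1 X, pterm a u t n‖ =
      ‖∑ n ∈ Finset.Icc 1 X, b n * (n : ℂ) ^ (-(t : ℂ) * I)‖ := by
    intro t
    have h2 : ∑ n ∈ Finset.Icc 1 X, pterm a u t n = cexp (((t * u : ℝ) : ℂ) * I) *
        ∑ n ∈ Finset.Icc 1 X, b n * (n : ℂ) ^ (-(t : ℂ) * I) := by
      rw [Finset.mul_sum]
      refine Finset.sum_congr rfl fun n hn => ?_
      have hn1 : 1 ≤ n := (Finset.mem_Icc.mp hn).1
      have hn0 : (n : ℂ) ≠ 0 := by exact_mod_cast (by omega : n ≠ 0)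
      unfold pterm
      simp only [hb]
      have h3 : cexp (I * t * (u - Real.log n)) = cexp (((t * u : ℝ) : ℂ) * I) *
          (n : ℂ) ^ (-(t : ℂ) * I) := by
        rw [Complex.cpow_def_of_ne_zero hn0, ← Complex.exp_add, ← Complex.natCast_log]
        congr 1
        push_cast
        ring
      rw [h3]; ring
    rw [h2, norm_mul, Complex.norm_exp_ofReal_mul_I, one_mul]
  have h2 := mean_value b X T1 T2 hT
  have h3 : ∑ n ∈ Finset.Icc 1 X, ‖b n‖ ^ 2 ≤ VV u := by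
    have h4 : ∀ n ∈ Finset.Icc 1 X, ‖b n‖ ^ 2 ≤ (ArithmeticFunction.vonMangoldt n) ^ 2 / n *
        Real.exp (-(u - Real.log n) ^ 2) := by
      intro n hn
      have hn1 : 1 ≤ n := (Finset.mem_Icc.mp hn).1
      have hn0 : (0 : ℝ) < n := by exact_mod_cast hn1
      simp only [hb]
      rw [norm_mul, norm_mul, norm_inv, Complex.norm_real, Complex.norm_real,
        Real.norm_of_nonneg (Real.sqrt_nonneg _), Real.norm_of_nonneg (Real.exp_pos _).le,
        mul_pow, mul_pow, inv_pow, Real.sq_sqrt hn0.le, ← Real.exp_nat_mul, ← div_eq_mul_inv]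
      have e1 : ((2 : ℕ) : ℝ) * (-(u - Real.log n) ^ 2 / 2) = -(u - Real.log n) ^ 2 := by
        push_cast; ring
      rw [e1]
      have := ha n
      gcongr
    exact (Finset.sum_le_sum h4).trans
      ((VV_summable u).sum_le_tsum _ fun n _ => VV_term_nonneg u n)
  have hPc : Continuous (fun t => ∑ n ∈ Finset.Icc 1 X, pterm a u t n) := by
    unfold pterm; fun_prop
  have hPPc := PP_cont ha u
  calc ∫ t in T1..T2, ‖PP a u t‖ ^ 2 ≤
      ∫ t in T1..T2, ((1 + η) * ‖∑ n ∈ Finset.Icc 1 X, b n * (n : ℂ) ^ (-(t : ℂ) * I)‖ ^ 2 +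
        (1 + 1 / η) * E ^ 2) := by
        refine intervalIntegral.integral_mono_on hT ?_ ?_ fun t _ => ?_
        · exact (hPPc.norm.pow 2).intervalIntegrable _ _
        · simp_rw [← h1]
          exact ((continuous_const.mul (hPc.norm.pow 2)).add continuous_const).intervalIntegrable _ _
        · rw [← h1]
          have h5 := sq_young (x := ∑ n ∈ Finset.Icc 1 X, pterm a u t n)
            (y := PP a u t - ∑ n ∈ Finset.Icc 1 X, pterm a u t n) hη
          rw [add_sub_cancel] at h5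
          refine h5.trans ?_
          have h6 := PP_trunc ha u t D X hD hX
          gcongr
    _ = (1 + η) * (∫ t in T1..T2, ‖∑ n ∈ Finset.Icc 1 X, b n * (n : ℂ) ^ (-(t : ℂ) * I)‖ ^ 2) +
        (1 + 1 / η) * ((T2 - T1) * E ^ 2) := by
        rw [intervalIntegral.integral_add, intervalIntegral.integral_const_mul,
          intervalIntegral.integral_const, smul_eq_mul]
        · ring
        · simp_rw [← h1]
          exact (continuous_const.mul (hPc.norm.pow 2)).intervalIntegrable _ _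
        · exact continuous_const.intervalIntegrable _ _
    _ ≤ _ := by
        have hcoef : 0 ≤ T2 - T1 + 8 * X * (1 + Real.log X) := by
          have : 0 ≤ Real.log X := Real.log_natCast_nonneg X
          have : 0 ≤ T2 - T1 := by linarith
          positivity
        gcongr
        exact h2.trans (by gcongr)

end

end H370
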